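import Pool.Agent.D0H95.KP.Net

/-!
Smooth Jordan domains: the hypotheses of `Dom`.
-/

set_option autoImplicit false
set_option maxHeartbeats 1000000
set_option linter.unusedVariables false

namespace Pool.Agent.D0H95.KP
open Finset H974 Pool.Agent.H160R2.CV H362P
open Pool.Agent.H160R2.CV.Quad
open H973 (ES mem_ES BX mem_BX)
open TH976 (sd sd_self sd_comm sd_tri sd_pos fkg incr_and pr_edge EH cx norm_cx)
open Pool.Agent.Y989.SD (SmW disc cir pos TD Win btT)

theorem pos_eq (ε : ℝ) (v : Vtx) : pos ε v = (ε : ℂ) * cx v := by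
  unfold pos cx
  apply Complex.ext <;> simp

theorem norm_pos {ε : ℝ} (hε : 0 < ε) (u v : Vtx) :
    ε * sd u v ≤ ‖pos ε u - pos ε v‖ ∧ ‖pos ε u - pos ε v‖ ≤ 2 * (ε * sd u v) := by
  obtain ⟨h1, h2⟩ := norm_cx u v
  have e1 : ‖pos ε u - pos ε v‖ = ε * ‖cx u - cx v‖ := by
    rw [pos_eq, pos_eq, ← mul_sub, norm_mul, Complex.norm_real, Real.norm_of_nonneg hε.le]
  have h3 : ‖cx u - cx v‖ ≤ 2 * (sd u v : ℝ) := by
    have h0 : (0 : ℝ) ≤ (sd u v : ℝ) := Nat.cast_nonneg _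
    have h4 := norm_nonneg (cx u - cx v)
    nlinarith
  rw [e1]
  constructor
  · exact mul_le_mul_of_nonneg_left h1 hε.le
  · calc ε * ‖cx u - cx v‖ ≤ ε * (2 * (sd u v : ℝ)) := mul_le_mul_of_nonneg_left h3 hε.le
      _ = _ := by ring

theorem exists_vertex {ε : ℝ} (hε : 0 < ε) (z : ℂ) : ∃ v : Vtx, ‖pos ε v - z‖ ≤ ε := by
  refine ⟨(round (z.re / ε), round (z.im / ε)), ?_⟩
  have h1 := abs_sub_round (z.re / ε)
  have h2 := abs_sub_round (z.im / ε)
  have key : ∀ x : ℝ, |x / ε - round (x / ε)| ≤ 1 / 2 → |ε * (round (x / ε) : ℝ) - x| ≤ ε / 2 := by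
    intro x hx
    have e1 : ε * (round (x / ε) : ℝ) - x = -(ε * (x / ε - round (x / ε))) := by
      rw [mul_sub, mul_div_cancel₀ _ hε.ne']
      ring
    rw [e1, abs_neg, abs_mul, abs_of_pos hε]
    calc ε * |x / ε - round (x / ε)| ≤ ε * (1 / 2) := mul_le_mul_of_nonneg_left hx hε.le
      _ = _ := by ring
  have a1 := key _ h1
  have a2 := key _ h2
  refine (Complex.norm_le_abs_re_add_abs_im _).trans ?_
  rw [Complex.sub_re, Complex.sub_im]
  have e1 : (pos ε (round (z.re / ε), round (z.im / ε))).re = ε * (round (z.re / ε) : ℝ) := rfl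
  have e2 : (pos ε (round (z.re / ε), round (z.im / ε))).im = ε * (round (z.im / ε) : ℝ) := rfl
  rw [e1, e2]
  linarith

/-- the lattice domain is covered by windows -/
theorem bas_TD {f g : ℂ → ℂ} {M α ρ B ε : ℝ} (hε : 0 < ε)
    (h2 : ∀ θ : ℝ, ∃ v ∈ TD f ε, ‖pos ε v - f (cir θ)‖ ≤ 2 * ε ∧ Win (TD f ε) v ⌊ρ / ε⌋ B α)
    (h3 : ∀ v : Vtx, btT (TD f ε) v → ∃ θ : ℝ, ‖pos ε v - f (cir θ)‖ ≤ ε) :
    Bas (TD f ε) ⌊ρ / ε⌋ B α := by
  intro v hv
  obtain ⟨u, hu, hd⟩ := bt_near hv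
  obtain ⟨θ, hθ⟩ := h3 u hu
  obtain ⟨v0, hv0, h4, h5⟩ := h2 θ
  refine ⟨v0, hv0, ?_, h5⟩
  have h6 : ‖pos ε u - pos ε v0‖ ≤ 3 * ε := by
    calc ‖pos ε u - pos ε v0‖ = ‖(pos ε u - f (cir θ)) - (pos ε v0 - f (cir θ))‖ := by
          congr 1; ring
      _ ≤ ‖pos ε u - f (cir θ)‖ + ‖pos ε v0 - f (cir θ)‖ := norm_sub_le _ _
      _ ≤ _ := by linarith
  have h7 := (norm_pos hε u v0).1.trans h6
  have h8 : (sd u v0 : ℝ) ≤ 3 := by
    by_contra hcon
    rw [not_le] at hcon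
    nlinarith
  have h9 : sd u v0 ≤ 3 := by exact_mod_cast h8
  have := sd_tri v u v0
  omega

theorem Dec.weak {T : Finset Vtx} {K : ℕ} {c : Vtx} {R : ℕ} {κ κ' : ℝ} (h : Dec T K c R κ)
    (hk : κ' ≤ κ) : Dec T K c R κ' := by
  obtain ⟨D, h1, h2, h3⟩ := h
  exact ⟨D, h1, hk.trans h2, h3⟩

theorem Net.weak {T : Finset Vtx} {n : ℕ} {κ κ' : ℝ} (h : Net T n κ) (hk : κ' ≤ κ) :
    Net T n κ' := by
  obtain ⟨D, h1, h2, h3⟩ := h
  exact ⟨D, h1, hk.trans h2, h3⟩

/-- **The hypotheses of `Dom` hold in smooth Jordan domains.** -/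
theorem dom_TD {f g : ℂ → ℂ} {Mf α : ℝ} (hf : SmW f g Mf α) :
    ∃ (M : ℕ) (κ ε1 : ℝ), 0 < κ ∧ κ ≤ 1 ∧ 0 < ε1 ∧ ∀ ε : ℝ, 0 < ε → ε ≤ ε1 →
      ∃ N : ℕ, Dom (TD f ε) (eT (TD f ε)) 455 M N κ 3 := by
  obtain ⟨ρ, B, ε0, hρ, hε0, hGD⟩ := Y989.SD.m_GD f g Mf α hf
  obtain ⟨l, H, hl, hH, hlip, -, -, -, hint⟩ := Y989.SD.m_GA f g Mf α hf
  obtain ⟨κ0, κ00, κ01, hloc⟩ := local_est B α hf.al0
  -- the macroscopic scale
  obtain ⟨η, hη⟩ : ∃ η : ℝ, η = ρ / 20000000 := ⟨_, rfl⟩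
  have η0 : 0 < η := by rw [hη]; positivity
  obtain ⟨δ, hδ⟩ : ∃ δ : ℝ, δ = min (1 / 2) (η / (20 * H)) := ⟨_, rfl⟩
  have δ0 : 0 < δ := by rw [hδ]; exact lt_min (by norm_num) (by positivity)
  have δ1 : δ ≤ 1 / 2 := by rw [hδ]; exact min_le_left _ _
  have δ2 : H * δ ≤ η / 20 := by
    have : δ ≤ η / (20 * H) := by rw [hδ]; exact min_le_right _ _
    rw [le_div_iff₀ (by positivity)] at this
    linarith
  obtain ⟨m, p, hpA, hpst, hpcov⟩ := walk (isCompact_closedBall (0 : ℂ) (1 - δ))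
    (convex_closedBall _ _) ⟨0, by rw [Metric.mem_closedBall, dist_self]; linarith⟩ δ0
  have hA1 : ∀ z ∈ Metric.closedBall (0 : ℂ) (1 - δ), ‖z‖ < 1 := by
    intro z hz
    rw [Metric.mem_closedBall, dist_zero_right] at hz
    linarith
  have hA2 : ∀ z ∈ Metric.closedBall (0 : ℂ) (1 - δ), z ∈ disc := by
    intro z hz
    have := hA1 z hz
    unfold disc
    rw [Metric.mem_closedBall, dist_zero_right]
    exact this.le
  -- the image of the smaller disc is well inside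
  obtain ⟨r0, hr0, hr1⟩ : ∃ r0 : ℝ, 0 < r0 ∧ ∀ z ∈ Metric.closedBall (0 : ℂ) (1 - δ), ∀ w : ℂ,
      ‖w - f z‖ < r0 → w ∈ f '' disc := by
    have hcont : ContinuousOn f (Metric.closedBall (0 : ℂ) (1 - δ)) := by
      rw [Metric.continuousOn_iff]
      intro b hb e he
      refine ⟨e / H, by positivity, fun a ha hab => ?_⟩
      rw [dist_eq_norm] at hab ⊢
      rw [lt_div_iff₀ hH] at hab
      have := (hlip a (hA2 a ha) b (hA2 b hb)).2
      linarith
    have hc := (isCompact_closedBall (0 : ℂ) (1 - δ)).image_of_continuousOn hcont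
    obtain ⟨r0, h1, h2⟩ := hc.exists_thickening_subset_open (isOpen_interior (s := f '' disc)) (by
      rintro _ ⟨z, hz, rfl⟩
      exact hint z (hA1 z hz))
    refine ⟨r0, h1, fun z hz w hw => interior_subset (h2 ?_)⟩
    rw [Metric.mem_thickening_iff]
    exact ⟨f z, ⟨z, hz, rfl⟩, by rw [dist_eq_norm]; exact hw⟩
  obtain ⟨κ', hκ'⟩ : ∃ κ' : ℝ, κ' = κ0 ^ 2 * (1 / 3 : ℝ) ^ (8 + 1) := ⟨_, rfl⟩
  have κ'0 : 0 < κ' := by rw [hκ']; positivity
  obtain ⟨M, hM⟩ := exists_nat_ge (4 * H / η)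
  obtain ⟨κ, hκ⟩ : ∃ κ : ℝ, κ = min κ0 ((κ0 * κ') ^ m) := ⟨_, rfl⟩
  have κp : 0 < κ := by rw [hκ]; exact lt_min κ00 (by positivity)
  have κa : κ ≤ κ0 := by rw [hκ]; exact min_le_left _ _
  have κb : κ ≤ (κ0 * κ') ^ m := by rw [hκ]; exact min_le_right _ _
  refine ⟨M + 1, κ, min (min ε0 (r0 / 2)) (η / 100), κp, κa.trans κ01,
    lt_min (lt_min hε0 (by positivity)) (by positivity), ?_⟩
  intro ε hε hε1
  have hεa : ε ≤ ε0 := (hε1.trans (min_le_left _ _)).trans (min_le_left _ _)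
  have hεb : ε ≤ r0 / 2 := (hε1.trans (min_le_left _ _)).trans (min_le_right _ _)
  have hεc : ε ≤ η / 100 := hε1.trans (min_le_right _ _)
  obtain ⟨g1, g2, g3⟩ := hGD ε hε hεa
  have hB := bas_TD (g := g) (M := Mf) hε g2 g3
  obtain ⟨T, hT⟩ : ∃ T : Finset Vtx, T = TD f ε := ⟨_, rfl⟩
  rw [← hT] at g1 hB ⊢
  obtain ⟨L, hL⟩ : ∃ L : ℤ, L = ⌊ρ / ε⌋ := ⟨_, rfl⟩
  rw [← hL] at hB
  obtain ⟨hdec, harm⟩ := hloc T L hB
  obtain ⟨s, hs⟩ : ∃ s : ℕ, s = ⌊η / ε⌋₊ := ⟨_, rfl⟩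
  have hx : 100 ≤ η / ε := by
    rw [le_div_iff₀ hε]
    linarith
  have hs1 : (s : ℝ) ≤ η / ε := by
    rw [hs]
    exact Nat.floor_le (by positivity)
  have hs2 : η / ε - 1 < s := by
    rw [hs]
    have := Nat.lt_floor_add_one (η / ε)
    linarith
  have hs3 : (99 : ℝ) < s := by linarith
  have hs4 : 99 < s := by exact_mod_cast hs3
  have hsL : (12000 * 910 * s : ℤ) ≤ L := by
    rw [hL, Int.le_floor]
    push_cast
    rw [hη] at hs1
    have e1 : ρ / 20000000 / ε = (ρ / ε) / 20000000 := by ring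
    rw [e1, le_div_iff₀ (by norm_num)] at hs1
    have : (0 : ℝ) ≤ s := Nat.cast_nonneg _
    linarith
  -- the vertices of the walk
  choose c hc using fun j => exists_vertex hε (f (p j))
  have hcT : ∀ j, c j ∈ T := by
    intro j
    rw [g1]
    apply hr1 (p j) (hpA j)
    have := hc j
    linarith
  have sdle : ∀ (u v : Vtx) (x : ℝ), ‖pos ε u - pos ε v‖ ≤ x → (sd u v : ℝ) ≤ x / ε := by
    intro u v x h
    rw [le_div_iff₀ hε]
    have := (norm_pos hε u v).1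
    linarith
  refine ⟨2 * 455 * s, by norm_num, by omega, by omega, κp, κa.trans κ01, ?_, ?_, ?_, ?_,
    reg_eT T, fun v hv => eT_one hv⟩
  · intro v hv R hR hRN
    exact (hdec v hv R hR (by omega)).weak κa
  · have hnet := net_of_walk (T := T) (K := 455) (s := s) (m := m) (κ := κ0) (κ' := κ')
      (by norm_num) (by omega) κ00.le κ'0.le c hcT ?_ ?_ ?_ ?_
    · exact hnet.weak κb
    · intro j
      have h1 : ‖pos ε (c j) - pos ε (c (j + 1))‖ ≤ η / 20 + 2 * ε := by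
        have h2 := (hlip _ (hA2 _ (hpA j)) _ (hA2 _ (hpA (j + 1)))).2
        have h3 := hpst j
        have h4 : H * ‖p j - p (j + 1)‖ ≤ H * δ := mul_le_mul_of_nonneg_left h3 hH.le
        have h5 : pos ε (c j) - pos ε (c (j + 1)) = (pos ε (c j) - f (p j)) +
            (f (p j) - f (p (j + 1))) + -(pos ε (c (j + 1)) - f (p (j + 1))) := by ring
        rw [h5]
        refine norm_add₃_le.trans ?_
        rw [norm_neg]
        have h6 := hc j
        have h7 := hc (j + 1)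
        linarith
      have h8 := sdle _ _ _ h1
      have h9 : (η / 20 + 2 * ε) / ε = (η / ε) / 20 + 2 := by
        field_simp
      rw [h9] at h8
      have h10 : ((4 * sd (c j) (c (j + 1)) : ℕ) : ℝ) ≤ s := by
        push_cast
        linarith
      exact_mod_cast h10
    · intro u hu
      obtain ⟨z, hz, hzu⟩ := (g1 u).mp hu
      have hz1 : ‖z‖ ≤ 1 := by
        unfold disc at hz
        rw [Metric.mem_closedBall, dist_zero_right] at hz
        exact hz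
      have hz' : ((1 - δ : ℝ) : ℂ) * z ∈ Metric.closedBall (0 : ℂ) (1 - δ) := by
        rw [Metric.mem_closedBall, dist_zero_right, norm_mul, Complex.norm_real,
          Real.norm_of_nonneg (by linarith)]
        nlinarith [norm_nonneg z]
      obtain ⟨j, hj, hzj⟩ := hpcov _ hz'
      refine ⟨j, hj, ?_⟩
      have h1 : ‖z - ((1 - δ : ℝ) : ℂ) * z‖ ≤ δ := by
        have e1 : z - ((1 - δ : ℝ) : ℂ) * z = (δ : ℂ) * z := by push_cast; ring
        rw [e1, norm_mul, Complex.norm_real, Real.norm_of_nonneg δ0.le]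
        nlinarith [norm_nonneg z]
      have h2 : ‖z - p j‖ ≤ 2 * δ := by
        have e1 : z - p j = (z - ((1 - δ : ℝ) : ℂ) * z) + (((1 - δ : ℝ) : ℂ) * z - p j) := by ring
        rw [e1]
        refine (norm_add_le _ _).trans ?_
        linarith
      have h3 := (hlip z hz _ (hA2 _ (hpA j))).2
      have h4 : H * ‖z - p j‖ ≤ H * (2 * δ) := mul_le_mul_of_nonneg_left h2 hH.le
      have h5 : ‖pos ε u - pos ε (c j)‖ ≤ η / 10 + ε := by
        have e1 : pos ε u - pos ε (c j) = (f z - f (p j)) - (pos ε (c j) - f (p j)) := by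
          rw [hzu]; ring
        rw [e1]
        refine (norm_sub_le _ _).trans ?_
        have := hc j
        linarith
      have h6 := sdle _ _ _ h5
      have h7 : (η / 10 + ε) / ε = (η / ε) / 10 + 1 := by
        field_simp
      rw [h7] at h6
      have h8 : ((sd u (c j) : ℕ) : ℝ) ≤ s := by linarith
      exact_mod_cast h8
    · intro j
      exact hdec (c j) (hcT j) s (by omega) (by omega)
    · intro j
      rw [hκ']
      exact cx_of_arm κ00 (hcT j) (K := 455) (J := 8) (by omega) (by norm_num) (by norm_num)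
        (fun n hn hns => harm (c j) (hcT j) n hn (by omega))
  · intro v hv n hn hnN
    obtain ⟨h1, h2⟩ := harm v hv n hn (by omega)
    have e0 := eT_pos (T := T) hv hn
    exact ⟨(mul_le_mul_of_nonneg_right κa e0.le).trans h1,
      (mul_le_mul_of_nonneg_right κa (aT_nonneg _ _)).trans h2⟩
  · intro u hu v hv
    obtain ⟨z, hz, hzu⟩ := (g1 u).mp hu
    obtain ⟨w, hw, hwv⟩ := (g1 v).mp hv
    have hz1 : ‖z‖ ≤ 1 := by
      unfold disc at hz
      rw [Metric.mem_closedBall, dist_zero_right] at hz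
      exact hz
    have hw1 : ‖w‖ ≤ 1 := by
      unfold disc at hw
      rw [Metric.mem_closedBall, dist_zero_right] at hw
      exact hw
    have h1 := (hlip z hz w hw).2
    have h2 : ‖z - w‖ ≤ 2 := (norm_sub_le _ _).trans (by linarith)
    have h3 : H * ‖z - w‖ ≤ H * 2 := mul_le_mul_of_nonneg_left h2 hH.le
    have h4 : ‖pos ε u - pos ε v‖ ≤ 2 * H := by
      rw [← hzu, ← hwv]
      linarith
    have h5 := sdle _ _ _ h4
    have h6 : 2 * H / ε ≤ (M : ℝ) * s := by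
      have h7 : 4 * H ≤ M * η := by
        rw [div_le_iff₀ η0] at hM
        exact hM
      have h8 : η / ε / 2 ≤ s := by linarith
      calc 2 * H / ε = (4 * H) / (2 * ε) := by field_simp; ring
        _ ≤ (M * η) / (2 * ε) := div_le_div_of_nonneg_right h7 (by positivity)
        _ = M * (η / ε / 2) := by ring
        _ ≤ M * s := mul_le_mul_of_nonneg_left h8 (Nat.cast_nonneg _)
    have h7 : ((sd u v : ℕ) : ℝ) ≤ ((M * s : ℕ) : ℝ) := by
      push_cast
      linarith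
    have h8 : sd u v ≤ M * s := by exact_mod_cast h7
    calc sd u v ≤ M * s := h8
      _ ≤ (M + 1) * (2 * 455 * s) := by
        apply Nat.mul_le_mul (by omega) (by omega)

end Pool.Agent.D0H95.KP
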