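import Pool.Agent.D0H95.KP.Geo
import Pool.Agent.D0H95.KP.Kpt
import Pool.Agent.TH976.Conf

/-!
Smooth Jordan domains: the two-point function in terms of the conformal radius and of the
hyperbolic distance.
-/

set_option autoImplicit false
set_option maxHeartbeats 1000000
set_option linter.unusedVariables false

namespace Pool.Agent.D0H95.KP
open Finset H974 Pool.Agent.H160R2.CV H362P
open Pool.Agent.H160R2.CV.Quad
open H973 (ES mem_ES BX mem_BX)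
open TH976 (sd sd_self sd_comm sd_tri sd_pos fkg incr_and pr_edge EH cx norm_cx Cmp TwoP kFun)
open Pool.Agent.Y989.SD (SmW disc cir pos TD Win btT)

/-- conformal radius of the domain seen from `f ζ` -/
noncomputable def crad (f : ℂ → ℂ) (ζ : ℂ) : ℝ := ‖deriv f ζ‖ * (1 - ‖ζ‖ ^ 2)

/-- `4 sinh² (ρ / 2)`, where `ρ` is the hyperbolic distance -/
noncomputable def hX (ζ ω : ℂ) : ℝ := 4 * ‖ζ - ω‖ ^ 2 / ((1 - ‖ζ‖ ^ 2) * (1 - ‖ω‖ ^ 2))

/-- the two-point function -/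
noncomputable def GG (f : ℂ → ℂ) (ζ ω : ℂ) : ℝ :=
  (crad f ζ * crad f ω * hX ζ ω) ^ (-(5 / 48) : ℝ) * (1 + hX ζ ω) ^ (-(11 / 48) : ℝ)

theorem mem_disc' {z : ℂ} : z ∈ disc ↔ ‖z‖ ≤ 1 := by
  unfold disc
  rw [Metric.mem_closedBall, dist_zero_right]

/-- `SmW` gives the derivative inside the disc -/
theorem deriv_eq {f g : ℂ → ℂ} {M α : ℝ} (hf : SmW f g M α) {z : ℂ} (hz : ‖z‖ < 1) :
    deriv f z = g z := by
  apply HasDerivAt.deriv
  rw [hasDerivAt_iff_isLittleO]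
  have hα := hf.al0
  have h1 : (fun w => f w - f z - (w - z) • g z) =O[nhds z] fun w => ‖w - z‖ ^ (1 + α) := by
    apply Asymptotics.IsBigO.of_bound M
    have : Metric.ball (0 : ℂ) 1 ∈ nhds z := Metric.isOpen_ball.mem_nhds (by
      rw [Metric.mem_ball, dist_zero_right]; exact hz)
    filter_upwards [this] with w hw
    rw [Metric.mem_ball, dist_zero_right] at hw
    have h2 := hf.exp w (mem_disc'.mpr hw.le) z (mem_disc'.mpr hz.le)
    rw [Real.norm_of_nonneg (by positivity), smul_eq_mul, mul_comm (w - z)]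
    exact h2
  refine h1.trans_isLittleO ?_
  rw [Asymptotics.isLittleO_iff]
  intro c hc
  have h3 : Filter.Tendsto (fun w : ℂ => ‖w - z‖ ^ α) (nhds z) (nhds 0) := by
    have h4 : Filter.Tendsto (fun w : ℂ => ‖w - z‖) (nhds z) (nhds 0) := by
      have := (continuous_id.sub continuous_const : Continuous fun w : ℂ => w - z).norm.tendsto z
      simpa using this
    have h5 := h4.rpow_const (p := α) (Or.inr hα.le)
    rwa [Real.zero_rpow hα.ne'] at h5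
  have h6 : ∀ᶠ w in nhds z, ‖w - z‖ ^ α < c := h3.eventually (gt_mem_nhds hc)
  filter_upwards [h6] with w hw
  rw [Real.norm_of_nonneg (by positivity)]
  rcases eq_or_ne ‖w - z‖ 0 with h7 | h7
  · rw [h7, Real.zero_rpow (by linarith)]
    simp
  · have h8 : 0 < ‖w - z‖ := lt_of_le_of_ne (norm_nonneg _) (Ne.symm h7)
    rw [Real.rpow_add h8, Real.rpow_one]
    nlinarith

/-- a boundary point on a segment which leaves the domain -/
theorem cross_bd {f g : ℂ → ℂ} {M α : ℝ} (hf : SmW f g M α) {z w : ℂ} (hz : z ∈ f '' disc)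
    (hw : w ∉ f '' disc) : ∃ ξ : ℂ, ‖ξ‖ = 1 ∧ ‖z - f ξ‖ ≤ ‖z - w‖ := by
  obtain ⟨l, H, hl, hH, hlip, -, -, hcomp, hint⟩ := Y989.SD.m_GA f g M α hf
  by_contra hcon
  push Not at hcon
  have hpre : IsPreconnected (segment ℝ z w) := (convex_segment z w).isPreconnected
  have hsub : segment ℝ z w ⊆ interior (f '' disc) ∪ (f '' disc)ᶜ := by
    intro y hy
    by_cases h1 : y ∈ f '' disc
    · left
      obtain ⟨ξ, hξ, rfl⟩ := h1
      rcases lt_or_eq_of_le (mem_disc'.mp hξ) with h2 | h2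
      · exact hint ξ h2
      · exfalso
        have h3 := hcon ξ h2
        obtain ⟨a, b, ha, hb, hab, hy⟩ := hy
        have h4 : z - f ξ = (b : ℂ) * (z - w) := by
          rw [← hy]
          have : (a : ℂ) = 1 - b := by
            have : a = 1 - b := by linarith
            rw [this]; push_cast; ring
          simp only [Complex.real_smul]
          rw [this]
          ring
        have h5 : ‖z - f ξ‖ ≤ ‖z - w‖ := by
          rw [h4, norm_mul, Complex.norm_real, Real.norm_of_nonneg hb]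
          nlinarith [norm_nonneg (z - w)]
        linarith
    · exact Or.inr h1
  have hopen : IsOpen (f '' disc)ᶜ := hcomp.isClosed.isOpen_compl
  obtain ⟨y, hy, h1, h2⟩ := hpre _ _ isOpen_interior hopen hsub
    (by
      rcases (hsub (left_mem_segment ℝ z w)) with h | h
      · exact ⟨z, left_mem_segment ℝ z w, h⟩
      · exact absurd hz h)
    ⟨w, right_mem_segment ℝ z w, hw⟩
  exact h2 (interior_subset h1)

/-- the vertices at distance at least `ε` from the boundary -/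
def D0 (f : ℂ → ℂ) (ε : ℝ) : Set Vtx :=
  {v | pos ε v ∈ f '' disc ∧ ∀ z : ℂ, ‖z‖ = 1 → ε ≤ ‖pos ε v - f z‖}

theorem exists_cir {z : ℂ} (hz : ‖z‖ = 1) : ∃ θ : ℝ, z = cir θ := by
  refine ⟨Complex.arg z, ?_⟩
  unfold cir
  have := Complex.norm_mul_exp_arg_mul_I z
  rw [hz] at this
  simpa using this.symm

/-- the radial projection -/
theorem exists_rad (ζ : ℂ) (h : ‖ζ‖ ≤ 1) : ∃ ξ : ℂ, ‖ξ‖ = 1 ∧ ‖ζ - ξ‖ = 1 - ‖ζ‖ := by
  rcases eq_or_ne ζ 0 with h0 | h0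
  · refine ⟨1, by simp, ?_⟩
    rw [h0]
    simp
  · have hn : 0 < ‖ζ‖ := norm_pos_iff.mpr h0
    refine ⟨ζ / (‖ζ‖ : ℂ), ?_, ?_⟩
    · rw [norm_div, Complex.norm_real, Real.norm_of_nonneg hn.le, div_self hn.ne']
    · have e1 : ζ - ζ / (‖ζ‖ : ℂ) = -(ζ * ((1 - ‖ζ‖ : ℝ) : ℂ) / (‖ζ‖ : ℂ)) := by
        have : (‖ζ‖ : ℂ) ≠ 0 := by exact_mod_cast hn.ne'
        field_simp
        push_cast
        ring
      rw [e1, norm_neg, norm_div, norm_mul, Complex.norm_real, Complex.norm_real,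
        Real.norm_of_nonneg hn.le, Real.norm_of_nonneg (by linarith)]
      field_simp

/-- the distance to the complement, in conformal coordinates -/
theorem dd_cmp {f g : ℂ → ℂ} {M α : ℝ} (hf : SmW f g M α) :
    ∃ K ε1 : ℝ, 1 ≤ K ∧ 0 < ε1 ∧ ∀ ε : ℝ, 0 < ε → ε ≤ ε1 → ∀ v ∈ D0 f ε, ∀ ζ : ℂ, ‖ζ‖ ≤ 1 →
      f ζ = pos ε v → v ∈ TD f ε ∧ Cmp K (ε * dd (TD f ε) v) (1 - ‖ζ‖ ^ 2) := by
  obtain ⟨ρ, B, ε0, hρ, hε0, hGD⟩ := Y989.SD.m_GD f g M α hf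
  obtain ⟨l, H, hl, hH, hlip, -, -, -, hint⟩ := Y989.SD.m_GA f g M α hf
  obtain ⟨K, hK⟩ : ∃ K : ℝ, K = max 1 (max (4 * H) (4 / l)) := ⟨_, rfl⟩
  have K1 : 1 ≤ K := by rw [hK]; exact le_max_left _ _
  have K2 : 4 * H ≤ K := by rw [hK]; exact (le_max_left _ _).trans (le_max_right _ _)
  have K3 : 4 / l ≤ K := by rw [hK]; exact (le_max_right _ _).trans (le_max_right _ _)
  refine ⟨K, min ε0 ρ, K1, lt_min hε0 hρ, ?_⟩
  intro ε hε hε1 v hv ζ hζ hfζ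
  obtain ⟨g1, g2, g3⟩ := hGD ε hε (hε1.trans (min_le_left _ _))
  have hvT : v ∈ TD f ε := (g1 v).mpr hv.1
  refine ⟨hvT, ?_⟩
  obtain ⟨T, hT⟩ : ∃ T : Finset Vtx, T = TD f ε := ⟨_, rfl⟩
  rw [← hT] at g1 g2 hvT ⊢
  have hd := dd_pos hvT
  have d0 : (0 : ℝ) < dd T v := by exact_mod_cast hd
  have n0 := norm_nonneg ζ
  -- the nearest boundary point in the radial direction
  obtain ⟨ξ, hξ, hr⟩ := exists_rad ζ hζ
  have hξd : ξ ∈ disc := mem_disc'.mpr hξ.le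
  have hζd : ζ ∈ disc := mem_disc'.mpr hζ
  obtain ⟨θ, hθ⟩ := exists_cir hξ
  have u1 : ‖pos ε v - f ξ‖ ≤ H * (1 - ‖ζ‖) := by
    rw [← hfζ, ← hr]
    exact (hlip ζ hζd ξ hξd).2
  have u2 : ε ≤ ‖pos ε v - f ξ‖ := hv.2 ξ hξ
  have hζ1 : 0 < 1 - ‖ζ‖ := by
    by_contra hcon
    have : H * (1 - ‖ζ‖) ≤ 0 := mul_nonpos_of_nonneg_of_nonpos hH.le (by linarith)
    linarith
  obtain ⟨v0, hv0, h4, h5⟩ := g2 θ
  have hd0 : dd T v0 ≤ 1 := by
    obtain ⟨e, he, h, sl, hlp, -, -, hW⟩ := h5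
    have hL : 1 ≤ ⌊ρ / ε⌋ := by
      rw [Int.le_floor, le_div_iff₀ hε]
      push_cast
      linarith [hε1.trans (min_le_right _ _)]
    have m1 : ((0, -1) : Vtx) ∈ Y989.SD.QB ⌊ρ / ε⌋ := by
      rw [Y989.SD.mem_QB]
      simp only
      omega
    have m2 : Y989.SD.emb e v0 (0, -1) ∉ T := by
      rw [hW _ m1, hlp.zero]
      simp
    refine (dd_le m2).trans ?_
    unfold Y989.SD.emb sd
    rcases he with rfl | rfl | rfl | rfl <;> simp
  have u3 : ε * dd T v ≤ 4 * (H * (1 - ‖ζ‖)) := by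
    have a1 := dd_lip T v v0
    have a2 : (dd T v : ℝ) ≤ 1 + sd v v0 := by
      have : dd T v ≤ 1 + sd v v0 := by omega
      exact_mod_cast this
    have a3 := (norm_pos hε v v0).1
    have a4 : ‖pos ε v - pos ε v0‖ ≤ ‖pos ε v - f ξ‖ + 2 * ε := by
      have e1 : pos ε v - pos ε v0 = (pos ε v - f ξ) - (pos ε v0 - f (cir θ)) := by
        rw [hθ]; ring
      rw [e1]
      exact (norm_sub_le _ _).trans (by linarith)
    have a5 : ε * dd T v ≤ ε * (1 + sd v v0) := mul_le_mul_of_nonneg_left a2 hε.le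
    nlinarith
  have u4 : l * (1 - ‖ζ‖) ≤ 2 * (ε * dd T v) := by
    obtain ⟨w, hw, hwd⟩ := dd_out T v
    have hw' : pos ε w ∉ f '' disc := fun h => hw ((g1 w).mpr h)
    obtain ⟨ξ', hξ', h6⟩ := cross_bd hf hv.1 hw'
    have a1 := (norm_pos hε v w).2
    rw [hwd] at a1
    have a2 := (hlip ζ hζd ξ' (mem_disc'.mpr hξ'.le)).1
    rw [hfζ] at a2
    have a3 : 1 - ‖ζ‖ ≤ ‖ζ - ξ'‖ := by
      have := norm_sub_norm_le ξ' ζ
      rw [hξ', norm_sub_rev] at this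
      exact this
    have a4 := mul_le_mul_of_nonneg_left a3 hl.le
    linarith
  have s1 : 1 - ‖ζ‖ ≤ 1 - ‖ζ‖ ^ 2 := by nlinarith
  have s2 : 1 - ‖ζ‖ ^ 2 ≤ 2 * (1 - ‖ζ‖) := by nlinarith
  refine ⟨K1, by positivity, by linarith, ?_, ?_⟩
  · calc ε * dd T v ≤ 4 * H * (1 - ‖ζ‖) := by linarith
      _ ≤ K * (1 - ‖ζ‖) := mul_le_mul_of_nonneg_right K2 hζ1.le
      _ ≤ _ := mul_le_mul_of_nonneg_left s1 (by linarith)
  · have h7 : 1 - ‖ζ‖ ≤ 2 * (ε * dd T v) / l := by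
      rw [le_div_iff₀ hl]
      linarith
    calc 1 - ‖ζ‖ ^ 2 ≤ 2 * (1 - ‖ζ‖) := s2
      _ ≤ 2 * (2 * (ε * dd T v) / l) := by linarith
      _ = 4 / l * (ε * dd T v) := by ring
      _ ≤ _ := mul_le_mul_of_nonneg_right K3 (by positivity)

theorem cmp_one_add {k x y : ℝ} (h : Cmp k x y) : Cmp k (1 + x) (1 + y) := by
  have h0 := h.hk
  have h1 := h.hx
  have h2 := h.hy
  refine ⟨h0, by linarith, by linarith, ?_, ?_⟩
  · have := h.l
    nlinarith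
  · have := h.r
    nlinarith

/-- the profile in conformal coordinates -/
theorem two_cov {f g : ℂ → ℂ} {M α : ℝ} (hf : SmW f g M α) :
    ∃ K ε1 : ℝ, 1 ≤ K ∧ 0 < ε1 ∧ ∀ ε : ℝ, 0 < ε → ε ≤ ε1 → ∀ x ∈ D0 f ε, ∀ y ∈ D0 f ε, x ≠ y →
      ∀ ζ ω : ℂ, ‖ζ‖ < 1 → ‖ω‖ < 1 → f ζ = pos ε x → f ω = pos ε y →
      Cmp K (eT (TD f ε) x (sd x y) * eT (TD f ε) y (sd x y))
        (ε ^ (5 / 48 : ℝ) * ε ^ (5 / 48 : ℝ) * GG f ζ ω) := by
  obtain ⟨K0, ε1, K01, hε1, hdd⟩ := dd_cmp hf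
  obtain ⟨l, H, hl, hH, hlip, hg, -, -, hint⟩ := Y989.SD.m_GA f g M α hf
  have K00 : 0 < K0 := by linarith
  -- constants
  obtain ⟨K1, hK1⟩ : ∃ K1 : ℝ, K1 = max 1 (max (H ^ 2 / (4 * l ^ 2)) (16 * H ^ 2 / l ^ 2)) :=
    ⟨_, rfl⟩
  have K11 : 1 ≤ K1 := by rw [hK1]; exact le_max_left _ _
  have K1a : H ^ 2 / (4 * l ^ 2) ≤ K1 := by
    rw [hK1]; exact (le_max_left _ _).trans (le_max_right _ _)
  have K1b : 16 * H ^ 2 / l ^ 2 ≤ K1 := by
    rw [hK1]; exact (le_max_right _ _).trans (le_max_right _ _)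
  obtain ⟨K2, hK2⟩ : ∃ K2 : ℝ, K2 = max 1 (max (H ^ 2) (16 / l ^ 2)) := ⟨_, rfl⟩
  have K21 : 1 ≤ K2 := by rw [hK2]; exact le_max_left _ _
  have K2a : H ^ 2 ≤ K2 := by rw [hK2]; exact (le_max_left _ _).trans (le_max_right _ _)
  have K2b : 16 / l ^ 2 ≤ K2 := by rw [hK2]; exact (le_max_right _ _).trans (le_max_right _ _)
  refine ⟨K1 * (3 * (K2 * (K0 * K0))), ε1, Cmp.one_le_mul' K11 (Cmp.one_le_mul' (by norm_num)
    (Cmp.one_le_mul' K21 (Cmp.one_le_mul' K01 K01))), hε1, ?_⟩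
  intro ε hε hεε x hx y hy hxy ζ ω hζ hω hfx hfy
  obtain ⟨xT, cx'⟩ := hdd ε hε hεε x hx ζ hζ.le hfx
  obtain ⟨yT, cy'⟩ := hdd ε hε hεε y hy ω hω.le hfy
  obtain ⟨T, hT⟩ : ∃ T : Finset Vtx, T = TD f ε := ⟨_, rfl⟩
  rw [← hT] at xT yT cx' cy' ⊢
  have hdx := dd_pos xT
  have hdy := dd_pos yT
  have dx0 : (0 : ℝ) < dd T x := by exact_mod_cast hdx
  have dy0 : (0 : ℝ) < dd T y := by exact_mod_cast hdy
  obtain ⟨n, hn⟩ : ∃ n : ℕ, n = sd x y := ⟨_, rfl⟩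
  have hn1 : 1 ≤ n := by rw [hn]; exact sd_pos hxy
  have n0 : (0 : ℝ) < n := by exact_mod_cast hn1
  rw [← hn]
  obtain ⟨p1, p2⟩ := norm_pos hε x y
  rw [← hn, ← hfx, ← hfy] at p1 p2
  have hζd : ζ ∈ disc := mem_disc'.mpr hζ.le
  have hωd : ω ∈ disc := mem_disc'.mpr hω.le
  obtain ⟨q1, q2⟩ := hlip ζ hζd ω hωd
  obtain ⟨N, hN⟩ : ∃ N : ℝ, N = ‖ζ - ω‖ := ⟨_, rfl⟩
  rw [← hN] at q1 q2
  have r1 : ε * n ≤ H * N := p1.trans q2
  have r2 : l * N ≤ 2 * (ε * n) := q1.trans p2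
  have N0 : 0 < N := by
    by_contra hcon
    have h1 : H * N ≤ 0 := mul_nonpos_of_nonneg_of_nonpos hH.le (not_lt.mp hcon)
    have h2 : 0 < ε * n := by positivity
    linarith
  have e1 : ‖deriv f ζ‖ = ‖g ζ‖ := by rw [deriv_eq hf hζ]
  have e2 : ‖deriv f ω‖ = ‖g ω‖ := by rw [deriv_eq hf hω]
  obtain ⟨b1, b2⟩ := hg ζ hζd
  obtain ⟨b3, b4⟩ := hg ω hωd
  rw [← e1] at b1 b2
  rw [← e2] at b3 b4
  obtain ⟨A, hA⟩ : ∃ A : ℝ, A = ‖deriv f ζ‖ := ⟨_, rfl⟩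
  obtain ⟨A', hA'⟩ : ∃ A' : ℝ, A' = ‖deriv f ω‖ := ⟨_, rfl⟩
  rw [← hA] at b1 b2
  rw [← hA'] at b3 b4
  have A0 : 0 < A := by linarith
  have A'0 : 0 < A' := by linarith
  have s0 : 0 < 1 - ‖ζ‖ ^ 2 := cx'.hy
  have t0 : 0 < 1 - ‖ω‖ ^ 2 := cy'.hy
  obtain ⟨s, hs⟩ : ∃ s : ℝ, s = 1 - ‖ζ‖ ^ 2 := ⟨_, rfl⟩
  obtain ⟨t, ht⟩ : ∃ t : ℝ, t = 1 - ‖ω‖ ^ 2 := ⟨_, rfl⟩
  have hXe : hX ζ ω = 4 * N ^ 2 / (s * t) := by
    unfold hX
    rw [hs, ht, hN]
  have hGe : GG f ζ ω = (A * A' * (4 * N ^ 2)) ^ (-(5 / 48) : ℝ) *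
      (1 + 4 * N ^ 2 / (s * t)) ^ (-(11 / 48) : ℝ) := by
    unfold GG
    rw [hXe]
    unfold crad
    rw [← hA, ← hA', ← hs, ← ht]
    congr 2
    rw [← hs] at s0
    rw [← ht] at t0
    field_simp
  rw [← hs] at s0 cx'
  rw [← ht] at t0 cy'
  -- the first factor
  have f1 : Cmp K1 ((n : ℝ) ^ 2) (A * A' * (4 * N ^ 2) / ε ^ 2) := by
    have hεn : 0 < ε * n := by positivity
    refine ⟨K11, by positivity, by positivity, ?_, ?_⟩
    · -- `n² ≤ (H/(ε))² N² `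
      rw [mul_div_assoc', le_div_iff₀ (by positivity)]
      have h1 : (ε * n) ^ 2 ≤ (H * N) ^ 2 := pow_le_pow_left₀ hεn.le r1 2
      have h2 : H ^ 2 ≤ K1 * (4 * (A * A')) := by
        have h3 : l ^ 2 ≤ A * A' := by nlinarith
        rw [div_le_iff₀ (by positivity)] at K1a
        calc H ^ 2 ≤ K1 * (4 * l ^ 2) := K1a
          _ ≤ K1 * (4 * (A * A')) := by
            apply mul_le_mul_of_nonneg_left _ (by linarith)
            linarith
      calc (n : ℝ) ^ 2 * ε ^ 2 = (ε * n) ^ 2 := by ring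
        _ ≤ (H * N) ^ 2 := h1
        _ = H ^ 2 * N ^ 2 := by ring
        _ ≤ (K1 * (4 * (A * A'))) * N ^ 2 := mul_le_mul_of_nonneg_right h2 (by positivity)
        _ = _ := by ring
    · rw [div_le_iff₀ (by positivity)]
      have h1 : (l * N) ^ 2 ≤ (2 * (ε * n)) ^ 2 := pow_le_pow_left₀ (by positivity) r2 2
      have h2 : A * A' ≤ H ^ 2 := by nlinarith
      have h3 : 16 * H ^ 2 ≤ K1 * l ^ 2 := by
        rw [div_le_iff₀ (by positivity)] at K1b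
        exact K1b
      have h4 : l ^ 2 * N ^ 2 ≤ 4 * (n ^ 2 * ε ^ 2) := by nlinarith
      have h5 : (A * A' * (4 * N ^ 2)) * l ^ 2 ≤ (K1 * (n : ℝ) ^ 2 * ε ^ 2) * l ^ 2 := by
        calc (A * A' * (4 * N ^ 2)) * l ^ 2 = (A * A') * (4 * (l ^ 2 * N ^ 2)) := by ring
          _ ≤ H ^ 2 * (4 * (4 * (n ^ 2 * ε ^ 2))) := by
              apply mul_le_mul h2 _ (by positivity) (by positivity)
              linarith
          _ = (16 * H ^ 2) * (n ^ 2 * ε ^ 2) := by ring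
          _ ≤ (K1 * l ^ 2) * (n ^ 2 * ε ^ 2) := mul_le_mul_of_nonneg_right h3 (by positivity)
          _ = _ := by ring
      exact le_of_mul_le_mul_right h5 (by positivity)
  -- the second factor
  have f2 : Cmp K2 ((ε * n) ^ 2) (4 * N ^ 2) := by
    refine ⟨K21, by positivity, by positivity, ?_, ?_⟩
    · calc (ε * n) ^ 2 ≤ (H * N) ^ 2 := pow_le_pow_left₀ (by positivity) r1 2
        _ = H ^ 2 * N ^ 2 := by ring
        _ ≤ K2 * N ^ 2 := mul_le_mul_of_nonneg_right K2a (by positivity)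
        _ ≤ _ := by nlinarith [mul_pos (show (0 : ℝ) < K2 by linarith) (pow_pos N0 2)]
    · have h1 : (l * N) ^ 2 ≤ (2 * (ε * n)) ^ 2 := pow_le_pow_left₀ (by positivity) r2 2
      have h2 : 4 * N ^ 2 ≤ 16 / l ^ 2 * (ε * n) ^ 2 := by
        rw [div_mul_eq_mul_div, le_div_iff₀ (by positivity)]
        nlinarith
      exact h2.trans (mul_le_mul_of_nonneg_right K2b (by positivity))
  have f3 : Cmp (K2 * (K0 * K0)) ((n : ℝ) ^ 2 / ((dd T x : ℝ) * dd T y)) (4 * N ^ 2 / (s * t)) := by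
    refine (f2.div (cx'.mul cy')).congr ?_ rfl
    field_simp
  have f4 := TH976.min_cmp dx0 dy0 n0 (by
      rw [abs_le]
      have h1 := dd_lip T x y
      have h2 := dd_lip T y x
      have h3 := sd_comm x y
      have h4 : (dd T x : ℝ) ≤ dd T y + n := by
        have : dd T x ≤ dd T y + n := by omega
        exact_mod_cast this
      have h5 : (dd T y : ℝ) ≤ dd T x + n := by
        have : dd T y ≤ dd T x + n := by omega
        exact_mod_cast this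
      constructor <;> linarith) (le_refl (n : ℝ)) (by nlinarith)
  have f5 := f4.trans (cmp_one_add f3).inv
  have f6 := f5.rpow (a := 11 / 48) (by norm_num) (by norm_num)
  have f7 := f1.rpow_neg (a := 5 / 48) (by norm_num) (by norm_num)
  refine (f7.mul f6).congr ?_ ?_
  · unfold eT EH
    rw [Real.mul_rpow (by positivity) (by positivity)]
    have h1 : ((n : ℝ) ^ 2) ^ (-(5 / 48) : ℝ) =
        (n : ℝ) ^ (-(5 / 48) : ℝ) * (n : ℝ) ^ (-(5 / 48) : ℝ) := by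
      rw [pow_two, Real.mul_rpow n0.le n0.le]
    rw [h1]
    ring
  · rw [hGe]
    have h1 : (A * A' * (4 * N ^ 2) / ε ^ 2) ^ (-(5 / 48) : ℝ) =
        ε ^ (5 / 48 : ℝ) * ε ^ (5 / 48 : ℝ) * (A * A' * (4 * N ^ 2)) ^ (-(5 / 48) : ℝ) := by
      rw [Real.div_rpow (by positivity) (by positivity), pow_two ε, Real.mul_rpow hε.le hε.le,
        Real.rpow_neg hε.le]
      field_simp
    have h2 : ((1 + 4 * N ^ 2 / (s * t))⁻¹) ^ (11 / 48 : ℝ) =
        (1 + 4 * N ^ 2 / (s * t)) ^ (-(11 / 48) : ℝ) := by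
      rw [Real.inv_rpow (by positivity), Real.rpow_neg (by positivity)]
    rw [h1, h2]
    ring

end Pool.Agent.D0H95.KP
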