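import Pool.Agent.TH976.KPt
import Pool.Agent.Y989.SD.Stm

/-!
Connection probabilities in a general finite domain: boxes, arms, crossings, decoupling, and the
four basic inequalities for the addition of a point.
-/

set_option autoImplicit false
set_option maxHeartbeats 400000
set_option linter.unusedVariables false

namespace Pool.Agent.D0H95.KP
open Finset H974 Pool.Agent.H160R2.CV H362P
open Pool.Agent.H160R2.CV.Quad
open H973 (ES mem_ES)
open TH976 (sd sd_self sd_comm sd_tri sd_pos fkg incr_and Near Diam Good Reg PD dE Cmp)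

theorem sd_nv (u v : Vtx) : sd u v = nv (u - v) := by
  unfold sd nv
  rw [Prod.fst_sub, Prod.snd_sub]

variable {T : Finset Vtx}

/-- the edges of `T` in the box of radius `n` around `c` -/
noncomputable def bT (T : Finset Vtx) (c : Vtx) (n : ℕ) : Finset Edg := bo c n ∩ ES T

theorem bT_sub (T : Finset Vtx) (c : Vtx) (n : ℕ) : bT T c n ⊆ ES T := Finset.inter_subset_right

theorem bo_mono {c c' : Vtx} {m m' : ℕ} (h : sd c c' + m ≤ m') : bo c m ⊆ bo c' m' := by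
  unfold sd at h
  rintro ⟨x, y, _ | _⟩ h
  · simp only [bo, mem_RE_false] at h ⊢
    omega
  · simp only [bo, mem_RE_true] at h ⊢
    omega

theorem bT_mono {c c' : Vtx} {m m' : ℕ} (h : sd c c' + m ≤ m') : bT T c m ⊆ bT T c' m' :=
  Finset.inter_subset_inter_right (bo_mono h)

theorem bT_mono' {c : Vtx} {m m' : ℕ} (h : m ≤ m') : bT T c m ⊆ bT T c m' :=
  bT_mono (by rw [sd_self]; omega)

theorem bT_disj {x y : Vtx} {m m' : ℕ} (h : m + m' + 1 ≤ sd x y) :
    Disjoint (bT T x m) (bT T y m') := by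
  rw [Finset.disjoint_left]
  intro e h1 h2
  unfold bT at h1 h2
  have a1 := bo_ends (Finset.mem_inter.mp h1).1
  have a2 := bo_ends (Finset.mem_inter.mp h2).1
  rw [← sd_nv] at a1 a2
  have := sd_tri x (src e) y
  have := sd_comm x (src e)
  omega

theorem bT_ends {c : Vtx} {m : ℕ} {e : Edg} (he : e ∈ bT T c m) :
    (src e ∈ T ∧ sd (src e) c ≤ m) ∧ (tgt e ∈ T ∧ sd (tgt e) c ≤ m) := by
  unfold bT at he
  rw [Finset.mem_inter] at he
  have h1 := bo_ends he.1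
  have h2 := mem_ES.mp he.2
  rw [← sd_nv, ← sd_nv] at h1
  exact ⟨⟨h2.1, h1.1⟩, h2.2, h1.2⟩

theorem bT_ends' {c : Vtx} {m : ℕ} {e : Edg} (hT : e ∈ ES T) (he : e ∉ bT T c m) :
    (src e ∈ T ∧ m ≤ sd (src e) c) ∧ (tgt e ∈ T ∧ m ≤ sd (tgt e) c) := by
  unfold bT at he
  rw [Finset.mem_inter] at he
  have h0 : e ∉ bo c m := fun h => he ⟨h, hT⟩
  have h1 := bo_ends' h0
  have h2 := mem_ES.mp hT
  rw [← sd_nv, ← sd_nv] at h1
  exact ⟨⟨h2.1, h1.1⟩, h2.2, h1.2⟩

theorem reach_mem {F : Finset Edg} (hF : F ⊆ ES T) {u v : Vtx} (hu : u ∈ T)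
    (h : Reach (↑F) u v) : v ∈ T := by
  induction h with
  | refl => exact hu
  | tail _ hs _ =>
    obtain ⟨e, he, hc⟩ := hs
    have h2 := mem_ES.mp (hF (Finset.mem_coe.mp he))
    rcases hc with ⟨-, h3⟩ | ⟨h3, -⟩
    · rw [← h3]; exact h2.2
    · rw [← h3]; exact h2.1

theorem inter_bT {F : Finset Edg} (hF : F ⊆ ES T) (c : Vtx) (m : ℕ) :
    (↑F : Set Edg) ∩ ↑(bo c m) ⊆ ↑(F ∩ bT T c m) := by
  rintro e ⟨h1, h2⟩
  rw [Finset.mem_coe] at h1 h2
  rw [Finset.mem_coe, Finset.mem_inter]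
  unfold bT
  exact ⟨h1, Finset.mem_inter.mpr ⟨h2, hF h1⟩⟩

/-- exit from a box -/
theorem exitT {F : Finset Edg} (hF : F ⊆ ES T) {c u v : Vtx} {n : ℕ} (hu : sd u c ≤ n)
    (hv : n ≤ sd v c) (h : Reach (↑F) u v) :
    ∃ w, sd w c = n ∧ Reach (↑(F ∩ bT T c n)) u w := by
  unfold sd at hu hv
  obtain ⟨w, h1, h2, h3⟩ := first_exit (a := c.1 - n) (b := c.1 + n) (c := c.2 - n)
    (d := c.2 + n) (by unfold inR; omega) h (by omega)
  refine ⟨w, ?_, h3.mono ((Set.Subset.refl _).trans (inter_bT hF c n))⟩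
  unfold inR at h1
  unfold sd
  omega

/-- an arm from `c` to distance `n` -/
def Ar (c : Vtx) (n : ℕ) (F : Finset Edg) : Prop := ∃ v : Vtx, n ≤ sd v c ∧ Reach (↑F) c v

/-- a crossing of the annulus of radii `r`, `n` around `c` -/
def Cx (T : Finset Vtx) (c : Vtx) (r n : ℕ) (F : Finset Edg) : Prop :=
  ∃ u v : Vtx, u ∈ T ∧ sd u c ≤ r ∧ n ≤ sd v c ∧ Reach (↑F) u v

/-- some cluster meets all the crossings of the annulus of radii `R`, `K R` around `c` -/
def Dc (T : Finset Vtx) (K : ℕ) (c : Vtx) (R : ℕ) (F : Finset Edg) : Prop :=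
  ∃ z : Vtx, ∀ u v : Vtx, u ∈ T → sd u c ≤ R → K * R ≤ sd v c → Reach (↑F) u v → Reach (↑F) u z

/-- some cluster contains all connected sets of diameter at least `n` -/
def Nt (T : Finset Vtx) (n : ℕ) (F : Finset Edg) : Prop :=
  ∃ z : Vtx, ∀ u v : Vtx, u ∈ T → n ≤ sd u v → Reach (↑F) u v → Reach (↑F) u z

theorem Ar.mono {c : Vtx} {n : ℕ} {F G : Finset Edg} (h : F ⊆ G) (hF : Ar c n F) : Ar c n G := by
  obtain ⟨v, h1, h2⟩ := hF
  exact ⟨v, h1, h2.mono (by exact_mod_cast h)⟩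

theorem Cx.mono {c : Vtx} {r n : ℕ} {F G : Finset Edg} (h : F ⊆ G) (hF : Cx T c r n F) :
    Cx T c r n G := by
  obtain ⟨u, v, h0, h1, h2, h3⟩ := hF
  exact ⟨u, v, h0, h1, h2, h3.mono (by exact_mod_cast h)⟩

theorem Ar_incr (S : Finset Edg) (c : Vtx) (n : ℕ) : IncrE S (Ar c n) :=
  fun _ _ h _ hF => hF.mono h

theorem Cx_incr (S : Finset Edg) (c : Vtx) (r n : ℕ) : IncrE S (Cx T c r n) :=
  fun _ _ h _ hF => hF.mono h

theorem Ar_loc {F : Finset Edg} (hF : F ⊆ ES T) {c : Vtx} {n m : ℕ} (hm : n ≤ m)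
    (h : Ar c m F) : Ar c n (F ∩ bT T c n) := by
  obtain ⟨v, h1, h2⟩ := h
  obtain ⟨w, h3, h4⟩ := exitT hF (by rw [sd_self]; omega) (hm.trans h1) h2
  exact ⟨w, h3.ge, h4⟩

theorem Cx_loc {F : Finset Edg} (hF : F ⊆ ES T) {c : Vtx} {r n : ℕ} (hrn : r ≤ n)
    (h : Cx T c r n F) : Cx T c r n (F ∩ (bT T c n \ bT T c r)) := by
  obtain ⟨u, v, h0, h1, h2, h3⟩ := h
  obtain ⟨w, h4, h5⟩ := exitT hF (h1.trans hrn) h2 h3
  unfold sd at h1
  obtain ⟨u', h6, h7⟩ := last_exit (a := c.1 - r) (b := c.1 + r) (c := c.2 - r) (d := c.2 + r)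
    (x := u) (by unfold inR; omega) h5
  have hs : (↑(F ∩ bT T c n) : Set Edg) ⊆ ↑F := by exact_mod_cast Finset.inter_subset_left
  have hw : w ∈ T := reach_mem hF h0 (h5.mono hs)
  have hu' : u' ∈ T := reach_mem hF hw ((h7.mono (Set.sdiff_subset.trans hs)).symm)
  refine ⟨u', w, hu', ?_, h4.ge, h7.mono ?_⟩
  · unfold inR at h6
    unfold sd
    omega
  · rintro e ⟨h8, h10⟩
    rw [Finset.mem_coe, Finset.mem_inter] at h8
    rw [Finset.mem_coe, Finset.mem_inter, Finset.mem_sdiff]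
    refine ⟨h8.1, h8.2, ?_⟩
    intro h11
    apply h10
    unfold bT at h11
    rw [Finset.mem_inter] at h11
    have h12 := h11.1
    revert h12
    obtain ⟨x, y, _ | _⟩ := e
    · intro h12
      rw [bo, mem_RE_false] at h12
      rw [Finset.mem_coe, mem_RE_false]
      omega
    · intro h12
      rw [bo, mem_RE_true] at h12
      rw [Finset.mem_coe, mem_RE_true]
      omega

/-- the one-arm probability of `c` in `T` -/
noncomputable def aT (T : Finset Vtx) (c : Vtx) (n : ℕ) : ℝ := Pr P (ES T) (Ar c n)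

/-- the crossing probability of an annulus around `c` in `T` -/
noncomputable def cT (T : Finset Vtx) (c : Vtx) (r n : ℕ) : ℝ := Pr P (ES T) (Cx T c r n)

theorem aT_nonneg (c : Vtx) (n : ℕ) : 0 ≤ aT T c n := Pr_nonneg okP _ _
theorem cT_nonneg (c : Vtx) (r n : ℕ) : 0 ≤ cT T c r n := Pr_nonneg okP _ _
theorem aT_le_one (c : Vtx) (n : ℕ) : aT T c n ≤ 1 := Pr_le_one okP _ _
theorem cT_le_one (c : Vtx) (r n : ℕ) : cT T c r n ≤ 1 := Pr_le_one okP _ _

theorem aT_anti {c : Vtx} {n m : ℕ} (h : n ≤ m) : aT T c m ≤ aT T c n := by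
  apply Pr_mono okP
  rintro F _ ⟨v, h1, h2⟩
  exact ⟨v, h.trans h1, h2⟩

/-- localized events -/
def ArL (T : Finset Vtx) (c : Vtx) (n : ℕ) (F : Finset Edg) : Prop := Ar c n (F ∩ bT T c n)
def CxL (T : Finset Vtx) (c : Vtx) (r n : ℕ) (F : Finset Edg) : Prop :=
  Cx T c r n (F ∩ (bT T c n \ bT T c r))

theorem ArL_inc (c : Vtx) (n : ℕ) : IncA (ArL T c n) :=
  fun _ _ h hF => Ar.mono (Finset.inter_subset_inter_right h) hF

theorem CxL_inc (c : Vtx) (r n : ℕ) : IncA (CxL T c r n) :=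
  fun _ _ h hF => Cx.mono (Finset.inter_subset_inter_right h) hF

theorem ArL_loc (c : Vtx) (n : ℕ) : LocE (bT T c n) (ArL T c n) := by
  intro F
  unfold ArL
  rw [Finset.inter_assoc, Finset.inter_self]

theorem CxL_loc (c : Vtx) (r n : ℕ) : LocE (bT T c n \ bT T c r) (CxL T c r n) := by
  intro F
  unfold CxL
  rw [Finset.inter_assoc, Finset.inter_self]

theorem pr_ArL (c : Vtx) (n : ℕ) : Pr P (bT T c n) (ArL T c n) ≤ aT T c n := by
  refine (Pr_mono_set okP (bT_sub T c n) (fun F G h _ => ArL_inc c n F G h)).trans ?_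
  apply Pr_mono okP
  intro F _ h
  exact Ar.mono Finset.inter_subset_left h

theorem pr_CxL (c : Vtx) (r n : ℕ) : Pr P (bT T c n \ bT T c r) (CxL T c r n) ≤ cT T c r n := by
  refine (Pr_mono_set okP (Finset.sdiff_subset.trans (bT_sub T c n))
    (fun F G h _ => CxL_inc c r n F G h)).trans ?_
  apply Pr_mono okP
  intro F _ h
  exact Cx.mono Finset.inter_subset_left h

theorem aT_split {c : Vtx} (hc : c ∈ T) {r n : ℕ} (h : r ≤ n) :
    aT T c n ≤ aT T c r * cT T c r n := by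
  have hd : Disjoint (bT T c r) (bT T c n \ bT T c r) := Finset.disjoint_sdiff
  have h2 := indep2 (ES T) _ _ hd (ArL_inc c r) (CxL_inc c r n) (ArL_loc c r) (CxL_loc c r n)
  refine (le_trans (Pr_mono okP ?_) h2).trans ?_
  · intro F hF h1
    refine ⟨Ar_loc hF h h1, Cx_loc hF h ?_⟩
    obtain ⟨v, h3, h4⟩ := h1
    exact ⟨c, v, hc, by rw [sd_self]; omega, h3, h4⟩
  · exact mul_le_mul (pr_ArL c r) (pr_CxL c r n) (Pr_nonneg okP _ _) (aT_nonneg _ _)

/-- an increasing event of probability at least `κ` which implies `Dc` -/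
def Dec (T : Finset Vtx) (K : ℕ) (c : Vtx) (R : ℕ) (κ : ℝ) : Prop :=
  ∃ D : Finset Edg → Prop, IncrE (ES T) D ∧ κ ≤ Pr P (ES T) D ∧
    ∀ F, F ⊆ ES T → D F → Dc T K c R F

/-- an increasing event of probability at least `κ` which implies `Nt` -/
def Net (T : Finset Vtx) (n : ℕ) (κ : ℝ) : Prop :=
  ∃ D : Finset Edg → Prop, IncrE (ES T) D ∧ κ ≤ Pr P (ES T) D ∧
    ∀ F, F ⊆ ES T → D F → Nt T n F

theorem unwire_inT {c : Vtx} {K R : ℕ} {F : Finset Edg} (h : Dc T K c R F) {A : Set Edg}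
    (hA : ∀ e ∈ A, (src e ∈ T ∧ sd (src e) c ≤ R) ∧ (tgt e ∈ T ∧ sd (tgt e) c ≤ R))
    {u v : Vtx} (hu : K * R ≤ sd u c) (hv : K * R ≤ sd v c) (hr : Reach (↑F ∪ A) u v) :
    Reach (↑F) u v := by
  obtain ⟨z, hz⟩ := h
  have key : ∀ u v : Vtx, K * R ≤ sd u c → Reach (↑F ∪ A) u v →
      Reach (↑F) u v ∨ Reach (↑F) u z := by
    intro u v hu hr
    rcases hit_or (T := fun w => w ∈ T ∧ sd w c ≤ R) hA hr with h1 | ⟨w, h1, h2⟩
    · exact Or.inl h1
    · exact Or.inr (h2.trans (hz w u h1.1 h1.2 hu h2.symm))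
  rcases key u v hu hr with h1 | h1
  · exact h1
  · rcases key v u hv hr.symm with h2 | h2
    · exact h2.symm
    · exact h1.trans h2.symm

theorem unwire_outT {c : Vtx} {K R : ℕ} {F : Finset Edg} (h : Dc T K c R F) {A : Set Edg}
    (hA : ∀ e ∈ A, (src e ∈ T ∧ K * R ≤ sd (src e) c) ∧ (tgt e ∈ T ∧ K * R ≤ sd (tgt e) c))
    {u v : Vtx} (hu1 : u ∈ T) (hv1 : v ∈ T) (hu : sd u c ≤ R) (hv : sd v c ≤ R)
    (hr : Reach (↑F ∪ A) u v) : Reach (↑F) u v := by
  obtain ⟨z, hz⟩ := h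
  have key : ∀ u v : Vtx, u ∈ T → sd u c ≤ R → Reach (↑F ∪ A) u v →
      Reach (↑F) u v ∨ Reach (↑F) u z := by
    intro u v hu1 hu hr
    rcases hit_or (T := fun w => w ∈ T ∧ K * R ≤ sd w c) hA hr with h1 | ⟨w, h1, h2⟩
    · exact Or.inl h1
    · exact Or.inr (hz u w hu1 hu h1.2 h2)
  rcases key u v hu1 hu hr with h1 | h1
  · exact h1
  · rcases key v u hv1 hv hr.symm with h2 | h2
    · exact h2.symm
    · exact h1.trans h2.symm

/-- decoupling the neighbourhood of the new point -/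
theorem up1 {X : Finset Vtx} {x y : Vtx} (hx : x ∈ T) {r K : ℕ} (hy : y ∈ X)
    (hry : r ≤ sd y x) (hX : ∀ u ∈ X, K * r ≤ sd u x) {κ : ℝ} (hκ : 0 < κ)
    (hD : Dec T K x r κ) :
    κ * Pr P (ES T) (fun F => Cn (insert x X) (↑F)) ≤
      aT T x r * Pr P (ES T) (fun F => Cn X (↑F)) := by
  classical
  obtain ⟨D, hDi, hDp, hDc⟩ := hD
  set S := ES T with hS
  set B := bT T x r with hB
  set S2 := S \ B with hS2
  set E : Finset Edg → Prop := fun F => Cn X (↑(F ∩ S2) ∪ ↑B) with hE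
  have hEi : IncA E := by
    intro F G h hF
    refine Cn.mono (Set.union_subset_union_left _ ?_) hF
    exact_mod_cast Finset.inter_subset_inter_right h
  have hEl : LocE S2 E := by
    intro F
    rw [hE]
    simp only [Finset.inter_assoc, Finset.inter_self]
  have hd : Disjoint B S2 := by rw [hS2]; exact Finset.disjoint_sdiff
  have s1 : Pr P S (fun F => Cn (insert x X) (↑F)) ≤ Pr P S (fun F => ArL T x r F ∧ E F) := by
    apply Pr_mono okP
    intro F hFS hF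
    refine ⟨Ar_loc hFS (m := r) le_rfl ⟨y, hry,
      hF x (Finset.mem_insert_self _ _) y (Finset.mem_insert_of_mem hy)⟩, ?_⟩
    intro u hu v hv
    refine (hF u (Finset.mem_insert_of_mem hu) v (Finset.mem_insert_of_mem hv)).mono ?_
    intro e he
    by_cases h1 : e ∈ B
    · exact Or.inr (by exact_mod_cast h1)
    · left
      rw [Finset.mem_coe, Finset.mem_inter, hS2, Finset.mem_sdiff]
      exact ⟨Finset.mem_coe.mp he, hFS (Finset.mem_coe.mp he), h1⟩
  have s2 := indep2 S B S2 hd (ArL_inc x r) hEi (ArL_loc x r) hEl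
  have s3 : Pr P B (ArL T x r) ≤ aT T x r := pr_ArL x r
  have s4 : Pr P S2 E ≤ Pr P S E :=
    Pr_mono_set okP Finset.sdiff_subset (fun F G h _ => hEi F G h)
  have s5 : Pr P S E * Pr P S D ≤ Pr P S (fun F => Cn X (↑F)) := by
    refine (Pr_harris okP (fun F G h _ => hEi F G h) hDi).trans ?_
    apply Pr_mono okP
    rintro F hFS ⟨h1, h2⟩
    intro u hu v hv
    refine unwire_inT (hDc F hFS h2) (A := ↑B) ?_ (hX u hu) (hX v hv) ?_
    · intro e he
      exact bT_ends (Finset.mem_coe.mp he)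
    · refine (h1 u hu v hv).mono (Set.union_subset_union_left _ ?_)
      exact_mod_cast Finset.inter_subset_left
  have p0 : 0 ≤ Pr P S E := Pr_nonneg okP _ _
  have p1 : 0 ≤ aT T x r := aT_nonneg x r
  have p2 : 0 ≤ Pr P S2 E := Pr_nonneg okP _ _
  have s6 : κ * Pr P S E ≤ Pr P S (fun F => Cn X (↑F)) := by
    rw [mul_comm]
    exact (mul_le_mul_of_nonneg_left hDp p0).trans s5
  calc κ * Pr P S (fun F => Cn (insert x X) (↑F)) ≤ κ * (aT T x r * Pr P S2 E) := by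
        apply mul_le_mul_of_nonneg_left _ hκ.le
        exact (s1.trans s2).trans (mul_le_mul_of_nonneg_right s3 p2)
    _ = aT T x r * (κ * Pr P S2 E) := by ring
    _ ≤ aT T x r * (κ * Pr P S E) := by
        apply mul_le_mul_of_nonneg_left _ p1
        exact mul_le_mul_of_nonneg_left s4 hκ.le
    _ ≤ _ := mul_le_mul_of_nonneg_left s6 p1

/-- the new point is far from the others -/
theorem up2 {X : Finset Vtx} (hXT : ∀ u ∈ X, u ∈ T) {x y : Vtx} (hx : x ∈ T) {n R K : ℕ}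
    (hy : y ∈ X) (hxy : 2 * n + 1 ≤ sd x y) (hn : K * R ≤ n) (hX : ∀ u ∈ X, sd u y ≤ R)
    {κ : ℝ} (hκ : 0 < κ) (hD : Dec T K y R κ) :
    κ * Pr P (ES T) (fun F => Cn (insert x X) (↑F)) ≤
      aT T x n * (cT T y (K * R) n * Pr P (ES T) (fun F => Cn X (↑F))) := by
  classical
  obtain ⟨D, hDi, hDp, hDc⟩ := hD
  have hyT := hXT y hy
  set S := ES T with hS
  set B := bT T y (K * R) with hB
  set A2 := bT T y n \ B with hA2
  set O : Set Edg := {e | e ∈ ES T ∧ e ∉ B} with hO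
  set E : Finset Edg → Prop := fun F => Cn X (↑(F ∩ B) ∪ O) with hE
  have hEi : IncA E := by
    intro F G h hF
    refine Cn.mono (Set.union_subset_union_left _ ?_) hF
    exact_mod_cast Finset.inter_subset_inter_right h
  have hEl : LocE B E := by
    intro F
    rw [hE]
    simp only [Finset.inter_assoc, Finset.inter_self]
  have hCi : IncA (CxL T y (K * R) n) := CxL_inc _ _ _
  have hCl : LocE A2 (CxL T y (K * R) n) := CxL_loc _ _ _
  have hd2 : Disjoint B A2 := by rw [hA2]; exact Finset.disjoint_sdiff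
  have hBn : B ⊆ bT T y n := bT_mono' hn
  have hd1 : Disjoint (bT T x n) (B ∪ A2) := by
    have h1 : B ∪ A2 ⊆ bT T y n := Finset.union_subset hBn (by rw [hA2]; exact Finset.sdiff_subset)
    exact Finset.disjoint_of_subset_right h1 (bT_disj (by omega))
  have hBi : IncA (fun F => E F ∧ CxL T y (K * R) n F) :=
    fun F G h hF => ⟨hEi F G h hF.1, hCi F G h hF.2⟩
  have hBl : LocE (B ∪ A2) (fun F => E F ∧ CxL T y (K * R) n F) := by
    intro F
    show (E F ∧ CxL T y (K * R) n F) ↔ (E (F ∩ (B ∪ A2)) ∧ CxL T y (K * R) n (F ∩ (B ∪ A2)))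
    rw [hEl F, hCl F, hEl (F ∩ (B ∪ A2)), hCl (F ∩ (B ∪ A2))]
    have e1 : F ∩ (B ∪ A2) ∩ B = F ∩ B := by
      ext e; simp only [Finset.mem_inter, Finset.mem_union]; tauto
    have e2 : F ∩ (B ∪ A2) ∩ A2 = F ∩ A2 := by
      ext e; simp only [Finset.mem_inter, Finset.mem_union]; tauto
    rw [e1, e2]
  have s1 : Pr P S (fun F => Cn (insert x X) (↑F)) ≤
      Pr P S (fun F => ArL T x n F ∧ (E F ∧ CxL T y (K * R) n F)) := by
    apply Pr_mono okP
    intro F hFS hF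
    have hxy' : Reach (↑F) x y := hF x (Finset.mem_insert_self _ _) y (Finset.mem_insert_of_mem hy)
    have hsc := sd_comm y x
    refine ⟨Ar_loc hFS (m := n) le_rfl ⟨y, by omega, hxy'⟩, ?_, ?_⟩
    · intro u hu v hv
      refine (hF u (Finset.mem_insert_of_mem hu) v (Finset.mem_insert_of_mem hv)).mono ?_
      intro e he
      by_cases h1 : e ∈ B
      · left
        rw [Finset.mem_coe, Finset.mem_inter]
        exact ⟨Finset.mem_coe.mp he, h1⟩
      · exact Or.inr ⟨hFS (Finset.mem_coe.mp he), h1⟩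
    · exact Cx_loc hFS hn ⟨y, x, hyT, by rw [sd_self]; omega, by omega, hxy'.symm⟩
  have s2 := indep2 S (bT T x n) (B ∪ A2) hd1 (ArL_inc x n) hBi (ArL_loc x n) hBl
  have s2' := indep2 (B ∪ A2) B A2 hd2 hEi hCi hEl hCl
  have e3 : Pr P A2 (CxL T y (K * R) n) ≤ cT T y (K * R) n := pr_CxL _ _ _
  have e4 : Pr P (bT T x n) (ArL T x n) ≤ aT T x n := pr_ArL x n
  have s4 : Pr P B E ≤ Pr P S E :=
    Pr_mono_set okP (bT_sub T y (K * R)) (fun F G h _ => hEi F G h)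
  have s5 : Pr P S E * Pr P S D ≤ Pr P S (fun F => Cn X (↑F)) := by
    refine (Pr_harris okP (fun F G h _ => hEi F G h) hDi).trans ?_
    apply Pr_mono okP
    rintro F hFS ⟨h1, h2⟩
    intro u hu v hv
    refine unwire_outT (hDc F hFS h2) (A := O) ?_ (hXT u hu) (hXT v hv)
      (hX u hu) (hX v hv) ?_
    · rintro e ⟨he1, he2⟩
      exact bT_ends' he1 he2
    · refine (h1 u hu v hv).mono (Set.union_subset_union_left _ ?_)
      exact_mod_cast Finset.inter_subset_left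
  have p0 : 0 ≤ Pr P S E := Pr_nonneg okP _ _
  have p00 : 0 ≤ Pr P B E := Pr_nonneg okP _ _
  have p1 : 0 ≤ aT T x n := aT_nonneg x n
  have p2 : 0 ≤ cT T y (K * R) n := cT_nonneg _ _ _
  have p3 : 0 ≤ Pr P A2 (CxL T y (K * R) n) := Pr_nonneg okP _ _
  have p4 : 0 ≤ Pr P (B ∪ A2) (fun F => E F ∧ CxL T y (K * R) n F) := Pr_nonneg okP _ _
  have s6 : κ * Pr P S E ≤ Pr P S (fun F => Cn X (↑F)) := by
    rw [mul_comm]
    exact (mul_le_mul_of_nonneg_left hDp p0).trans s5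
  calc κ * Pr P S (fun F => Cn (insert x X) (↑F))
      ≤ κ * (aT T x n * (Pr P S E * cT T y (K * R) n)) := by
        apply mul_le_mul_of_nonneg_left _ hκ.le
        refine (s1.trans s2).trans (mul_le_mul e4 ?_ p4 p1)
        exact s2'.trans (mul_le_mul s4 e3 p3 p0)
    _ = aT T x n * (cT T y (K * R) n * (κ * Pr P S E)) := by ring
    _ ≤ _ := by
        apply mul_le_mul_of_nonneg_left _ p1
        exact mul_le_mul_of_nonneg_left s6 p2

/-- local lower bound: two arms and a decoupling cluster -/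
theorem low1 {X : Finset Vtx} {x y : Vtx} (hx : x ∈ T) (hyT : y ∈ T) {R n K : ℕ} (hy : y ∈ X)
    (hxy : sd y x ≤ R) (hn : K * R + R ≤ n) {κ : ℝ} (hκ : 0 < κ) (hD : Dec T K x R κ) :
    κ * (aT T x n * aT T y n) * Pr P (ES T) (fun F => Cn X (↑F)) ≤
      Pr P (ES T) (fun F => Cn (insert x X) (↑F)) := by
  obtain ⟨D, hDi, hDp, hDc⟩ := hD
  have p0 : 0 ≤ Pr P (ES T) (fun F => Cn X (↑F)) := Pr_nonneg okP _ _
  have i1 := fkg hDi (Ar_incr (ES T) x n) (aT_nonneg (T := T) _ _) hDp le_rfl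
  have i2 := fkg (incr_and hDi (Ar_incr (ES T) x n)) (Ar_incr (ES T) y n)
    (aT_nonneg (T := T) _ _) i1 le_rfl
  have i3 := fkg (incr_and (incr_and hDi (Ar_incr (ES T) x n)) (Ar_incr (ES T) y n))
    (Cn_incr (ES T) X) p0 i2 le_rfl
  calc κ * (aT T x n * aT T y n) * Pr P (ES T) (fun F => Cn X (↑F))
      = κ * aT T x n * aT T y n * Pr P (ES T) (fun F => Cn X (↑F)) := by ring
    _ ≤ _ := i3
    _ ≤ _ := by
      apply Pr_mono okP
      rintro F hFS ⟨⟨⟨k1, u, hu, hxu⟩, v, hv, hyv⟩, k5⟩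
      obtain ⟨z, hz⟩ := hDc F hFS k1
      have m1 := hz x u hx (by rw [sd_self]; omega) (by omega) hxu
      have t1 := sd_tri v x y
      have t2 := sd_comm x y
      have m2 := hz y v hyT (by omega) (by omega) hyv
      exact Cn_insert k5 hy (m1.trans m2.symm)

/-- global lower bound -/
theorem low1N {X : Finset Vtx} {x y : Vtx} (hx : x ∈ T) (hyT : y ∈ T) {n : ℕ} (hy : y ∈ X)
    {κ : ℝ} (hκ : 0 < κ) (hD : Net T n κ) :
    κ * (aT T x n * aT T y n) * Pr P (ES T) (fun F => Cn X (↑F)) ≤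
      Pr P (ES T) (fun F => Cn (insert x X) (↑F)) := by
  obtain ⟨D, hDi, hDp, hDc⟩ := hD
  have p0 : 0 ≤ Pr P (ES T) (fun F => Cn X (↑F)) := Pr_nonneg okP _ _
  have i1 := fkg hDi (Ar_incr (ES T) x n) (aT_nonneg (T := T) _ _) hDp le_rfl
  have i2 := fkg (incr_and hDi (Ar_incr (ES T) x n)) (Ar_incr (ES T) y n)
    (aT_nonneg (T := T) _ _) i1 le_rfl
  have i3 := fkg (incr_and (incr_and hDi (Ar_incr (ES T) x n)) (Ar_incr (ES T) y n))
    (Cn_incr (ES T) X) p0 i2 le_rfl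
  calc κ * (aT T x n * aT T y n) * Pr P (ES T) (fun F => Cn X (↑F))
      = κ * aT T x n * aT T y n * Pr P (ES T) (fun F => Cn X (↑F)) := by ring
    _ ≤ _ := i3
    _ ≤ _ := by
      apply Pr_mono okP
      rintro F hFS ⟨⟨⟨k1, u, hu, hxu⟩, v, hv, hyv⟩, k5⟩
      obtain ⟨z, hz⟩ := hDc F hFS k1
      have t1 := sd_comm x u
      have t2 := sd_comm y v
      have m1 := hz x u hx (by omega) hxu
      have m2 := hz y v hyT (by omega) hyv
      exact Cn_insert k5 hy (m1.trans m2.symm)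

theorem low2 {X : Finset Vtx} {x y z0 : Vtx} (hx : x ∈ T) (hyT : y ∈ T) {R q n K : ℕ}
    (hy : y ∈ X) (hz0 : z0 ∈ X) (hxy : sd y x + q ≤ R) (hn : K * R + R ≤ n)
    (hqn : K * q ≤ n) (hfar : K * q ≤ sd z0 y) {κ : ℝ} (hκ : 0 < κ)
    (hD : Dec T K x R κ) (hD' : Dec T K y q κ) :
    (κ * κ) * (aT T x n * cT T y q n) * Pr P (ES T) (fun F => Cn X (↑F)) ≤
      Pr P (ES T) (fun F => Cn (insert x X) (↑F)) := by
  obtain ⟨D, hDi, hDp, hDc⟩ := hD
  obtain ⟨D', hDi', hDp', hDc'⟩ := hD'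
  have p0 : 0 ≤ Pr P (ES T) (fun F => Cn X (↑F)) := Pr_nonneg okP _ _
  have n2 := Ar_incr (ES T) x n
  have n4 := Cx_incr (T := T) (ES T) y q n
  have i1 := fkg hDi n2 (aT_nonneg (T := T) _ _) hDp le_rfl
  have i2 := fkg (incr_and hDi n2) hDi' hκ.le i1 hDp'
  have i3 := fkg (incr_and (incr_and hDi n2) hDi') n4 (cT_nonneg (T := T) _ _ _) i2 le_rfl
  have i4 := fkg (incr_and (incr_and (incr_and hDi n2) hDi') n4) (Cn_incr (ES T) X) p0 i3 le_rfl
  calc (κ * κ) * (aT T x n * cT T y q n) * Pr P (ES T) (fun F => Cn X (↑F))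
      = κ * aT T x n * κ * cT T y q n * Pr P (ES T) (fun F => Cn X (↑F)) := by ring
    _ ≤ _ := i4
    _ ≤ _ := by
      apply Pr_mono okP
      rintro F hFS ⟨⟨⟨⟨k1, t, ht, hxt⟩, k3⟩, ⟨u, w, hu0, hu, hw, huw⟩⟩, k5⟩
      obtain ⟨z, hz⟩ := hDc F hFS k1
      obtain ⟨z', hz'⟩ := hDc' F hFS k3
      have m1 := hz x t hx (by rw [sd_self]; omega) (by omega) hxt
      have t1 := sd_tri u y x
      have t2 := sd_tri w x y
      have t3 := sd_comm x y
      have m2 := hz u w hu0 (by omega) (by omega) huw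
      have m3 := hz' u w hu0 hu (by omega) huw
      have m4 := hz' y z0 hyT (by rw [sd_self]; omega) hfar (k5 y hy z0 hz0)
      exact Cn_insert k5 hy ((m1.trans m2.symm).trans (m3.trans m4.symm))

theorem low2N {X : Finset Vtx} {x y z0 : Vtx} (hx : x ∈ T) (hyT : y ∈ T) {q n N K : ℕ}
    (hy : y ∈ X) (hz0 : z0 ∈ X) (hn : N + q ≤ n)
    (hqn : K * q ≤ n) (hfar : K * q ≤ sd z0 y) {κ : ℝ} (hκ : 0 < κ)
    (hD : Net T N κ) (hD' : Dec T K y q κ) :
    (κ * κ) * (aT T x n * cT T y q n) * Pr P (ES T) (fun F => Cn X (↑F)) ≤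
      Pr P (ES T) (fun F => Cn (insert x X) (↑F)) := by
  obtain ⟨D, hDi, hDp, hDc⟩ := hD
  obtain ⟨D', hDi', hDp', hDc'⟩ := hD'
  have p0 : 0 ≤ Pr P (ES T) (fun F => Cn X (↑F)) := Pr_nonneg okP _ _
  have n2 := Ar_incr (ES T) x n
  have n4 := Cx_incr (T := T) (ES T) y q n
  have i1 := fkg hDi n2 (aT_nonneg (T := T) _ _) hDp le_rfl
  have i2 := fkg (incr_and hDi n2) hDi' hκ.le i1 hDp'
  have i3 := fkg (incr_and (incr_and hDi n2) hDi') n4 (cT_nonneg (T := T) _ _ _) i2 le_rfl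
  have i4 := fkg (incr_and (incr_and (incr_and hDi n2) hDi') n4) (Cn_incr (ES T) X) p0 i3 le_rfl
  calc (κ * κ) * (aT T x n * cT T y q n) * Pr P (ES T) (fun F => Cn X (↑F))
      = κ * aT T x n * κ * cT T y q n * Pr P (ES T) (fun F => Cn X (↑F)) := by ring
    _ ≤ _ := i4
    _ ≤ _ := by
      apply Pr_mono okP
      rintro F hFS ⟨⟨⟨⟨k1, t, ht, hxt⟩, k3⟩, ⟨u, w, hu0, hu, hw, huw⟩⟩, k5⟩
      obtain ⟨z, hz⟩ := hDc F hFS k1
      obtain ⟨z', hz'⟩ := hDc' F hFS k3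
      have e1 := sd_comm x t
      have m1 := hz x t hx (by omega) hxt
      have t1 := sd_tri w u y
      have t3 := sd_comm w u
      have m2 := hz u w hu0 (by omega) huw
      have m3 := hz' u w hu0 hu (by omega) huw
      have m4 := hz' y z0 hyT (by rw [sd_self]; omega) hfar (k5 y hy z0 hz0)
      exact Cn_insert k5 hy ((m1.trans m2.symm).trans (m3.trans m4.symm))

/-- quasi-multiplicativity -/
theorem aT_glue {v : Vtx} (hv : v ∈ T) {r n K : ℕ} (hn : K * r ≤ n) {κ : ℝ} (hκ : 0 < κ)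
    (hD : Dec T K v r κ) : κ * (aT T v (K * r) * cT T v r n) ≤ aT T v n := by
  obtain ⟨D, hDi, hDp, hDc⟩ := hD
  have n2 := Ar_incr (ES T) v (K * r)
  have n4 := Cx_incr (T := T) (ES T) v r n
  have i1 := fkg hDi n2 (aT_nonneg (T := T) _ _) hDp le_rfl
  have i2 := fkg (incr_and hDi n2) n4 (cT_nonneg (T := T) _ _ _) i1 le_rfl
  calc κ * (aT T v (K * r) * cT T v r n) = κ * aT T v (K * r) * cT T v r n := by ring
    _ ≤ _ := i2
    _ ≤ _ := by
      apply Pr_mono okP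
      rintro F hFS ⟨⟨k1, t, ht, hvt⟩, ⟨u, w, hu0, hu, hw, huw⟩⟩
      obtain ⟨z, hz⟩ := hDc F hFS k1
      have m1 := hz v t hv (by rw [sd_self]; omega) ht hvt
      have m2 := hz u w hu0 hu (by omega) huw
      exact ⟨w, hw, (m1.trans m2.symm).trans huw⟩

end Pool.Agent.D0H95.KP
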