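import Pool.Agent.D0H95.KP.Loc

/-!
One-arm probabilities in a domain covered by windows.
-/

set_option autoImplicit false
set_option maxHeartbeats 1000000
set_option linter.unusedVariables false

namespace Pool.Agent.D0H95.KP
open Finset H974 Pool.Agent.H160R2.CV H362P
open Pool.Agent.H160R2.CV.Quad
open H973 (ES mem_ES BX mem_BX)
open TH976 (sd sd_self sd_comm sd_tri sd_pos fkg incr_and pr_edge EH)
open Pool.Agent.Y989.SD (Win XT HT VT Blk QB mem_QB emb)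

variable {T : Finset Vtx}

theorem eT_small {v : Vtx} {n : ℕ} (hn : 1 ≤ n) (h : n ≤ dd T v) :
    eT T v n = (n : ℝ) ^ (-(5 / 48 : ℝ)) := by
  have n0 : (0 : ℝ) < n := by exact_mod_cast hn
  have h1 : (1 : ℝ) ≤ (dd T v : ℝ) / n := by
    rw [le_div_iff₀ n0, one_mul]
    exact_mod_cast h
  unfold eT EH
  rw [min_eq_left h1, Real.one_rpow, mul_one]

theorem eT_large {v : Vtx} {n : ℕ} (hn : 1 ≤ n) (hd : 1 ≤ dd T v) (h : dd T v ≤ n) :
    eT T v n = (dd T v : ℝ) ^ (-(5 / 48 : ℝ)) * ((dd T v : ℝ) / n) ^ (1 / 3 : ℝ) := by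
  have n0 : (0 : ℝ) < n := by exact_mod_cast hn
  have d0 : (0 : ℝ) < dd T v := by exact_mod_cast hd
  have h1 : (dd T v : ℝ) / n ≤ 1 := by
    rw [div_le_one n0]
    exact_mod_cast h
  unfold eT EH
  rw [min_eq_right h1]
  have e : (1 / 3 : ℝ) = 5 / 48 + 11 / 48 := by norm_num
  rw [e, Real.rpow_add (div_pos d0 n0), ← mul_assoc, Real.div_rpow d0.le n0.le (5 / 48),
    Real.rpow_neg n0.le, Real.rpow_neg d0.le]
  congr 1
  have p1 : (dd T v : ℝ) ^ (5 / 48 : ℝ) ≠ 0 := by positivity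
  have p2 : (n : ℝ) ^ (5 / 48 : ℝ) ≠ 0 := by positivity
  field_simp

theorem far_of_ar {v : Vtx} {n : ℕ} {F : Finset Edg} (h : Ar v n F) : Far v n F := by
  obtain ⟨w, h1, h2⟩ := h
  exact ⟨w, by rw [← sd_nv]; exact h1, h2⟩

theorem aT_le_ar (T : Finset Vtx) (v : Vtx) (n : ℕ) : aT T v n ≤ ar n :=
  (Pr_mono okP (fun F _ h => far_of_ar h)).trans (far_le _ _ _)

theorem ar_le_aT {v : Vtx} {n : ℕ} (h : n < dd T v) : ar n ≤ aT T v n := by
  have h1 : RE (v.1 - n) (v.1 + n) (v.2 - n) (v.2 + n) ⊆ ES T := bo_sub_ES h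
  rw [← TwoAux.pr_QQ h1]
  apply Pr_mono okP
  intro F _ hF
  obtain ⟨w, h2, h3⟩ := TwoAux.far_of_QQ hF
  exact ⟨w, by rw [sd_nv]; exact h2, h3⟩

/-- upper bound for the arms -/
theorem arm_up {L : ℤ} {B α Ca Cw : ℝ} (hCa : 0 < Ca) (hCw : 0 < Cw)
    (har : ∀ n : ℕ, 1 ≤ n → ar n ≤ Ca * (n : ℝ) ^ (-(5 / 48 : ℝ)))
    (hw : ∀ (v : Vtx), Win T v L B α → ∀ r R : ℕ, 1 ≤ r → r ≤ R → (R : ℤ) ≤ L →
      Pr P (ES T) (XT T v r R) ≤ Cw * ((r : ℝ) / R) ^ (1 / 3 : ℝ)) (hB : Bas T L B α)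
    {v : Vtx} (hv : v ∈ T) {n : ℕ} (hn : 1 ≤ n) (hnL : (n : ℤ) ≤ L) :
    aT T v n ≤ (16 * Ca + 10 * Ca * Cw) * eT T v n := by
  have hd := dd_pos hv
  have n0 : (0 : ℝ) < n := by exact_mod_cast hn
  have d0 : (0 : ℝ) < dd T v := by exact_mod_cast hd
  have e0 : 0 < eT T v n := eT_pos hv hn
  rcases Nat.lt_or_ge (16 * dd T v) n with h1 | h1
  · obtain ⟨v0, hv0, h2, h3⟩ := hB v hv
    have s1 := aT_split (T := T) hv (r := dd T v) (n := n) (by omega)
    have s2 : aT T v (dd T v) ≤ Ca * (dd T v : ℝ) ^ (-(5 / 48 : ℝ)) :=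
      (aT_le_ar T v _).trans (har _ hd)
    have s3 : cT T v (dd T v) n ≤ Cw * (((2 * dd T v + 3 : ℕ) : ℝ) / ((n - dd T v - 3 : ℕ) : ℝ)) ^
        (1 / 3 : ℝ) := by
      refine le_trans ?_ (hw v0 h3 (2 * dd T v + 3) (n - dd T v - 3) (by omega) (by omega)
        (by omega))
      apply Pr_mono okP
      rintro F hF ⟨u, w, hu, k1, k2, k3⟩
      refine ⟨u, hu, mem_BX_sd.mpr ?_, w, reach_mem hF hu k3, ?_, k3⟩
      · have := sd_tri u v v0
        omega
      · apply not_mem_BX_sd (by positivity)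
        have := sd_tri w v0 v
        have := sd_comm v v0
        omega
    have s4 : (((2 * dd T v + 3 : ℕ) : ℝ) / ((n - dd T v - 3 : ℕ) : ℝ)) ≤ 10 * (dd T v / n) := by
      have hp : (0 : ℝ) < ((n - dd T v - 3 : ℕ) : ℝ) := by
        have : 0 < n - dd T v - 3 := by omega
        exact_mod_cast this
      rw [← mul_div_assoc, div_le_div_iff₀ hp n0]
      have a1 : ((2 * dd T v + 3 : ℕ) : ℝ) ≤ 5 * dd T v := by
        have : 2 * dd T v + 3 ≤ 5 * dd T v := by omega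
        exact_mod_cast this
      have a2 : (n : ℝ) ≤ 2 * ((n - dd T v - 3 : ℕ) : ℝ) := by
        have : n ≤ 2 * (n - dd T v - 3) := by omega
        exact_mod_cast this
      calc ((2 * dd T v + 3 : ℕ) : ℝ) * n ≤ (5 * dd T v) * (2 * ((n - dd T v - 3 : ℕ) : ℝ)) :=
            mul_le_mul a1 a2 n0.le (by positivity)
        _ = _ := by ring
    have s5 : (((2 * dd T v + 3 : ℕ) : ℝ) / ((n - dd T v - 3 : ℕ) : ℝ)) ^ (1 / 3 : ℝ) ≤
        10 * ((dd T v : ℝ) / n) ^ (1 / 3 : ℝ) := by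
      calc _ ≤ (10 * ((dd T v : ℝ) / n)) ^ (1 / 3 : ℝ) :=
            Real.rpow_le_rpow (by positivity) s4 (by norm_num)
        _ = (10 : ℝ) ^ (1 / 3 : ℝ) * ((dd T v : ℝ) / n) ^ (1 / 3 : ℝ) :=
            Real.mul_rpow (by norm_num) (by positivity)
        _ ≤ (10 : ℝ) ^ (1 : ℝ) * ((dd T v : ℝ) / n) ^ (1 / 3 : ℝ) := by
            apply mul_le_mul_of_nonneg_right _ (by positivity)
            exact Real.rpow_le_rpow_of_exponent_le (by norm_num) (by norm_num)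
        _ = _ := by rw [Real.rpow_one]
    calc aT T v n ≤ aT T v (dd T v) * cT T v (dd T v) n := s1
      _ ≤ (Ca * (dd T v : ℝ) ^ (-(5 / 48 : ℝ))) * (Cw * (10 * ((dd T v : ℝ) / n) ^ (1 / 3 : ℝ))) := by
          apply mul_le_mul s2 _ (cT_nonneg _ _ _) (by positivity)
          exact s3.trans (mul_le_mul_of_nonneg_left s5 hCw.le)
      _ = 10 * Ca * Cw * ((dd T v : ℝ) ^ (-(5 / 48 : ℝ)) * ((dd T v : ℝ) / n) ^ (1 / 3 : ℝ)) := by
          ring
      _ = 10 * Ca * Cw * eT T v n := by rw [eT_large hn hd (by omega)]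
      _ ≤ _ := by
          apply mul_le_mul_of_nonneg_right _ e0.le
          linarith
  · have s1 : aT T v n ≤ Ca * (n : ℝ) ^ (-(5 / 48 : ℝ)) := (aT_le_ar T v _).trans (har _ hn)
    have s2 : (n : ℝ) ^ (-(5 / 48 : ℝ)) ≤ 16 * eT T v n := by
      unfold eT EH
      have a1 : (1 / 16 : ℝ) ≤ min 1 ((dd T v : ℝ) / n) := by
        apply le_min (by norm_num)
        rw [div_le_div_iff₀ (by norm_num) n0]
        have : (n : ℝ) ≤ 16 * dd T v := by exact_mod_cast h1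
        linarith
      have a2 : (1 / 16 : ℝ) ≤ (min 1 ((dd T v : ℝ) / n)) ^ (11 / 48 : ℝ) := by
        calc (1 / 16 : ℝ) = (1 / 16 : ℝ) ^ (1 : ℝ) := (Real.rpow_one _).symm
          _ ≤ (1 / 16 : ℝ) ^ (11 / 48 : ℝ) :=
              Real.rpow_le_rpow_of_exponent_ge (by norm_num) (by norm_num) (by norm_num)
          _ ≤ _ := Real.rpow_le_rpow (by norm_num) a1 (by norm_num)
      have p1 : 0 < (n : ℝ) ^ (-(5 / 48 : ℝ)) := by positivity
      nlinarith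
    calc aT T v n ≤ Ca * (n : ℝ) ^ (-(5 / 48 : ℝ)) := s1
      _ ≤ Ca * (16 * eT T v n) := mul_le_mul_of_nonneg_left s2 hCa.le
      _ = 16 * Ca * eT T v n := by ring
      _ ≤ _ := by
          apply mul_le_mul_of_nonneg_right _ e0.le
          have := mul_pos hCa hCw
          linarith

/-- the arm at the scale of the distance to the boundary -/
theorem arm_core {L : ℤ} {B α ca : ℝ} (hca : 0 < ca) (hca1 : ca ≤ 1)
    (har : ∀ n : ℕ, 1 ≤ n → ca * (n : ℝ) ^ (-(5 / 48 : ℝ)) ≤ ar n) (hB : Bas T L B α)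
    {v : Vtx} (hv : v ∈ T) {s : ℕ} (hs : s = dd T v / 16) (hL : (6 * (dd T v + 1) : ℤ) ≤ L)
    (hL2 : (400 * dd T v + 7000 : ℤ) ≤ 32 * L) :
    (ca * (1 / 2 : ℝ) ^ 189 * kt) * ((s + 1 : ℕ) : ℝ) ^ (-(5 / 48 : ℝ)) ≤
      aT T v (3000 * (s + 1)) := by
  obtain ⟨v0, hv0, h2, h3⟩ := hB v hv
  have hd := dd_pos hv
  have ht := win_tube h3 h2 (s := s) (by omega) hd (by omega) (by omega)
  have hk := kt_pos
  have s0 : (1 : ℝ) ≤ ((s + 1 : ℕ) : ℝ) := by
    push_cast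
    have : (0 : ℝ) ≤ s := Nat.cast_nonneg s
    linarith
  rcases Nat.eq_zero_or_pos s with h0 | h0
  · subst h0
    have a1 : ((0 + 1 : ℕ) : ℝ) ^ (-(5 / 48 : ℝ)) = 1 := by
      simp
    rw [a1, mul_one]
    calc ca * (1 / 2 : ℝ) ^ 189 * kt ≤ 1 * 1 * kt := by
          apply mul_le_mul_of_nonneg_right _ hk.le
          exact mul_le_mul hca1 (pow_le_one₀ (by norm_num) (by norm_num)) (by positivity)
            zero_le_one
      _ = kt := by ring
      _ ≤ _ := ht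
      _ ≤ _ := by
          apply Pr_mono okP
          rintro F _ ⟨u, w, hu, k1, k2, k3⟩
          have : u = v := by
            by_contra hne
            have := sd_pos hne
            omega
          subst this
          exact ⟨w, k2, k3⟩
  · have h4 : 3 * s < dd T v := by omega
    have p1 : ar (3 * s) ≤ aT T v (3 * s) := ar_le_aT h4
    have p2 := pr_CA h0 (bo_sub_ES h4)
    have i1 := fkg (Ar_incr (ES T) v (3 * s)) (CA_incr (ES T) v s (3 * s)) (by positivity) p1 p2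
    have i2 := fkg (incr_and (Ar_incr (ES T) v (3 * s)) (CA_incr (ES T) v s (3 * s)))
      (Cx_incr (T := T) (ES T) v s (3000 * (s + 1))) hk.le i1 ht
    have p3 := har (3 * s) (by omega)
    have p4 : (1 / 2 : ℝ) * ((s + 1 : ℕ) : ℝ) ^ (-(5 / 48 : ℝ)) ≤
        ((3 * s : ℕ) : ℝ) ^ (-(5 / 48 : ℝ)) := by
      have s1 : (1 : ℝ) ≤ s := by exact_mod_cast h0
      have b1 : ((3 * s : ℕ) : ℝ) ≤ 3 * ((s + 1 : ℕ) : ℝ) := by
        push_cast
        linarith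
      have b2 : (0 : ℝ) < ((3 * s : ℕ) : ℝ) := by
        push_cast
        linarith
      calc (1 / 2 : ℝ) * ((s + 1 : ℕ) : ℝ) ^ (-(5 / 48 : ℝ)) ≤
            (3 : ℝ) ^ (-(5 / 48 : ℝ)) * ((s + 1 : ℕ) : ℝ) ^ (-(5 / 48 : ℝ)) := by
            apply mul_le_mul_of_nonneg_right _ (by positivity)
            rw [Real.rpow_neg (by norm_num), one_div]
            apply inv_anti₀ (by positivity)
            calc (3 : ℝ) ^ (5 / 48 : ℝ) ≤ (3 : ℝ) ^ (1 / 2 : ℝ) :=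
                  Real.rpow_le_rpow_of_exponent_le (by norm_num) (by norm_num)
              _ ≤ 2 := by
                  rw [← Real.sqrt_eq_rpow]
                  rw [Real.sqrt_le_left (by norm_num)]
                  norm_num
        _ = (3 * ((s + 1 : ℕ) : ℝ)) ^ (-(5 / 48 : ℝ)) :=
            (Real.mul_rpow (by norm_num) (by linarith)).symm
        _ ≤ _ := Real.rpow_le_rpow_of_nonpos b2 b1 (by norm_num)
    calc (ca * (1 / 2 : ℝ) ^ 189 * kt) * ((s + 1 : ℕ) : ℝ) ^ (-(5 / 48 : ℝ))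
        = ca * ((1 / 2 : ℝ) * ((s + 1 : ℕ) : ℝ) ^ (-(5 / 48 : ℝ))) * (1 / 2 : ℝ) ^ 188 * kt := by
          ring
      _ ≤ ca * ((3 * s : ℕ) : ℝ) ^ (-(5 / 48 : ℝ)) * (1 / 2 : ℝ) ^ 188 * kt := by
          apply mul_le_mul_of_nonneg_right _ hk.le
          apply mul_le_mul_of_nonneg_right _ (by positivity)
          exact mul_le_mul_of_nonneg_left p4 hca.le
      _ ≤ ar (3 * s) * (1 / 2 : ℝ) ^ 188 * kt := by
          apply mul_le_mul_of_nonneg_right _ hk.le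
          exact mul_le_mul_of_nonneg_right p3 (by positivity)
      _ ≤ _ := i2
      _ ≤ _ := by
          apply Pr_mono okP
          rintro F _ ⟨⟨⟨w, k1, k2⟩, k3⟩, ⟨u, w', hu, k4, k5, k6⟩⟩
          obtain ⟨z, hz⟩ := CA_meet (by omega) k3
          have m1 := hz v w (by rw [← sd_nv, sd_self]; omega) (by rw [← sd_nv]; exact k1) k2
          have m2 := hz u w' (by rw [← sd_nv]; exact k4) (by rw [← sd_nv]; omega) k6
          exact ⟨w', k5, (m1.trans m2.symm).trans k6⟩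

theorem ar1 {s d a b c : ℕ} (hs : s = d / 16) (h1 : 3000 * (s + 1) ≤ a) (h2 : a ≤ b + c)
    (h3 : c ≤ d + 3) : 64 * (20 * (s + 1)) ≤ b := by omega

theorem ar2 {s n b : ℕ} (h1 : n + 1280 * (s + 1) ≤ b) : 64 * (20 * (s + 1)) ≤ b := by linarith

/-- lower bound for the arms -/
theorem arm_low {L : ℤ} {B α ca c : ℝ} (hca : 0 < ca) (hca1 : ca ≤ 1) (hc : 0 < c) (hc1 : c ≤ 1)
    (har : ∀ n : ℕ, 1 ≤ n → ca * (n : ℝ) ^ (-(5 / 48 : ℝ)) ≤ ar n)
    (hw : ∀ (v : Vtx), Win T v L B α → ∀ r : ℕ, 1 ≤ r → (128 * r : ℤ) ≤ L →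
      c ≤ Pr P (ES T) (HT T v r (64 * r)))
    (hx : ∀ (v : Vtx), Win T v L B α → ∀ r R : ℕ, 1 ≤ r → r ≤ R → (R : ℤ) ≤ L →
      c * ((r : ℝ) / R) ^ (1 / 3 : ℝ) ≤ Pr P (ES T) (XT T v r R)) (hB : Bas T L B α)
    {v : Vtx} (hv : v ∈ T) {n : ℕ} (hn : 1 ≤ n) (hnL : (6000 * n : ℤ) ≤ L) :
    (ca * (1 / 2 : ℝ) ^ 200 * kt * c ^ 2) * eT T v n ≤ aT T v n := by
  have hd := dd_pos hv
  have n0 : (0 : ℝ) < n := by exact_mod_cast hn
  have d0 : (0 : ℝ) < dd T v := by exact_mod_cast hd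
  have e0 : 0 < eT T v n := eT_pos hv hn
  have hk := kt_pos
  have hk1 : kt ≤ 1 := kt_le
  have hc2 : c ^ 2 ≤ 1 := pow_le_one₀ hc.le hc1
  rcases Nat.lt_or_ge n (dd T v) with h1 | h1
  · calc (ca * (1 / 2 : ℝ) ^ 200 * kt * c ^ 2) * eT T v n ≤ (ca * 1 * 1 * 1) * eT T v n := by
          apply mul_le_mul_of_nonneg_right _ e0.le
          apply mul_le_mul _ hc2 (by positivity) (by positivity)
          apply mul_le_mul _ hk1 hk.le (by positivity)
          exact mul_le_mul_of_nonneg_left (pow_le_one₀ (by norm_num) (by norm_num)) hca.le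
      _ = ca * (n : ℝ) ^ (-(5 / 48 : ℝ)) := by rw [eT_small hn h1.le]; ring
      _ ≤ ar n := har n hn
      _ ≤ _ := ar_le_aT h1
  · obtain ⟨s, hs⟩ : ∃ s : ℕ, s = dd T v / 16 := ⟨_, rfl⟩
    obtain ⟨v0, hv0, h2, h3⟩ := hB v hv
    have hcore := arm_core hca hca1 har hB hv hs (by omega) (by omega)
    have hH := hw v0 h3 (20 * (s + 1)) (by omega) (by push_cast; omega)
    have hX := hx v0 h3 (20 * (s + 1)) (n + 1280 * (s + 1)) (by omega) (by omega) (by omega)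
    have i1 := fkg (Ar_incr (ES T) v (3000 * (s + 1)))
      (Y989.SD.CHN.HT_incr (ES T) T v0 (20 * (s + 1) : ℕ) (64 * (20 * (s + 1) : ℕ))) hc.le hcore hH
    have i2 := fkg (incr_and (Ar_incr (ES T) v (3000 * (s + 1)))
      (Y989.SD.CHN.HT_incr (ES T) T v0 (20 * (s + 1) : ℕ) (64 * (20 * (s + 1) : ℕ))))
      (Y989.SD.CHN.XT_incr (ES T) T v0 (20 * (s + 1) : ℕ) (n + 1280 * (s + 1) : ℕ))
      (by positivity) i1 hX
    have s0 : (0 : ℝ) < ((s + 1 : ℕ) : ℝ) := by positivity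
    have a1 : ((s + 1 : ℕ) : ℝ) ≤ 2 * dd T v := by
      have : s + 1 ≤ 2 * dd T v := by omega
      exact_mod_cast this
    have a2 : (dd T v : ℝ) ≤ 16 * ((s + 1 : ℕ) : ℝ) := by
      have : dd T v ≤ 16 * (s + 1) := by omega
      exact_mod_cast this
    have a3 : (dd T v : ℝ) ≤ n := by exact_mod_cast h1
    have b1 : (1 / 2 : ℝ) * (dd T v : ℝ) ^ (-(5 / 48 : ℝ)) ≤
        ((s + 1 : ℕ) : ℝ) ^ (-(5 / 48 : ℝ)) := by
      calc (1 / 2 : ℝ) * (dd T v : ℝ) ^ (-(5 / 48 : ℝ)) ≤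
            (2 : ℝ) ^ (-(5 / 48 : ℝ)) * (dd T v : ℝ) ^ (-(5 / 48 : ℝ)) := by
            apply mul_le_mul_of_nonneg_right _ (by positivity)
            calc (1 / 2 : ℝ) = (2 : ℝ) ^ (-1 : ℝ) := by rw [Real.rpow_neg_one]; norm_num
              _ ≤ _ := Real.rpow_le_rpow_of_exponent_le (by norm_num) (by norm_num)
        _ = (2 * (dd T v : ℝ)) ^ (-(5 / 48 : ℝ)) := (Real.mul_rpow (by norm_num) d0.le).symm
        _ ≤ _ := Real.rpow_le_rpow_of_nonpos s0 a1 (by norm_num)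
    have b2 : (1 / 128 : ℝ) * ((dd T v : ℝ) / n) ^ (1 / 3 : ℝ) ≤
        (((20 * (s + 1) : ℕ) : ℝ) / ((n + 1280 * (s + 1) : ℕ) : ℝ)) ^ (1 / 3 : ℝ) := by
      have c1 : (1 / 128 : ℝ) * ((dd T v : ℝ) / n) ≤
          ((20 * (s + 1) : ℕ) : ℝ) / ((n + 1280 * (s + 1) : ℕ) : ℝ) := by
        rw [← mul_div_assoc, div_le_div_iff₀ n0 (by positivity)]
        push_cast at a1 a2 s0 ⊢
        nlinarith
      calc (1 / 128 : ℝ) * ((dd T v : ℝ) / n) ^ (1 / 3 : ℝ) ≤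
            (1 / 128 : ℝ) ^ (1 / 3 : ℝ) * ((dd T v : ℝ) / n) ^ (1 / 3 : ℝ) := by
            apply mul_le_mul_of_nonneg_right _ (by positivity)
            calc (1 / 128 : ℝ) = (1 / 128 : ℝ) ^ (1 : ℝ) := (Real.rpow_one _).symm
              _ ≤ _ := Real.rpow_le_rpow_of_exponent_ge (by norm_num) (by norm_num) (by norm_num)
        _ = ((1 / 128 : ℝ) * ((dd T v : ℝ) / n)) ^ (1 / 3 : ℝ) :=
            (Real.mul_rpow (by norm_num) (by positivity)).symm
        _ ≤ _ := Real.rpow_le_rpow (by positivity) c1 (by norm_num)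
    calc (ca * (1 / 2 : ℝ) ^ 200 * kt * c ^ 2) * eT T v n
        ≤ (ca * (1 / 2 : ℝ) ^ 197 * kt * c ^ 2) * eT T v n := by
          apply mul_le_mul_of_nonneg_right _ e0.le
          apply mul_le_mul_of_nonneg_right _ (by positivity)
          apply mul_le_mul_of_nonneg_right _ hk.le
          apply mul_le_mul_of_nonneg_left _ hca.le
          exact pow_le_pow_of_le_one (by norm_num) (by norm_num) (by norm_num)
      _ = ((ca * (1 / 2 : ℝ) ^ 189 * kt) * ((1 / 2 : ℝ) * (dd T v : ℝ) ^ (-(5 / 48 : ℝ)))) * c *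
          (c * ((1 / 128 : ℝ) * ((dd T v : ℝ) / n) ^ (1 / 3 : ℝ))) := by
          rw [eT_large hn hd h1]; ring
      _ ≤ ((ca * (1 / 2 : ℝ) ^ 189 * kt) * ((s + 1 : ℕ) : ℝ) ^ (-(5 / 48 : ℝ))) * c *
          (c * (((20 * (s + 1) : ℕ) : ℝ) / ((n + 1280 * (s + 1) : ℕ) : ℝ)) ^ (1 / 3 : ℝ)) := by
          apply mul_le_mul _ _ (by positivity) (by positivity)
          · apply mul_le_mul_of_nonneg_right _ hc.le
            exact mul_le_mul_of_nonneg_left b1 (by positivity)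
          · exact mul_le_mul_of_nonneg_left b2 hc.le
      _ ≤ _ := i2
      _ ≤ _ := by
          apply Pr_mono okP
          rintro F hF ⟨⟨⟨w, k1, k2⟩, k3⟩, ⟨u, hu, k4, w', hw', k5, k6⟩⟩
          obtain ⟨z, hz⟩ := ht_meets hF (by omega) k3
          have t1 := sd_tri w v0 v
          have t2 := sd_comm v v0
          have t3 := sd_tri w' v v0
          rw [mem_BX_sd] at k4
          have k5' : n + 1280 * (s + 1) ≤ sd w' v0 := by
            by_contra hcon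
            apply k5
            have : ((n + 1280 * (s + 1) : ℕ) : ℤ) - 1 = ((n + 1280 * (s + 1) - 1 : ℕ) : ℤ) := by
              omega
            rw [this, mem_BX_sd]
            omega
          have g1 : 64 * (20 * (s + 1)) ≤ sd w v0 := ar1 hs k1 t1 (by omega)
          have g2 : 64 * (20 * (s + 1)) ≤ sd w' v0 := ar2 k5'
          have m1 := hz v w hv (by omega) g1 k2
          have m2 := hz u w' hu k4 g2 k6
          exact ⟨w', by omega, (m1.trans m2.symm).trans k6⟩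

/-- **Local estimates.** -/
theorem local_est (B α : ℝ) (hα : 0 < α) : ∃ κ : ℝ, 0 < κ ∧ κ ≤ 1 ∧
    ∀ (T : Finset Vtx) (L : ℤ), Bas T L B α →
      (∀ c ∈ T, ∀ R : ℕ, 1 ≤ R → (1000 * R : ℤ) ≤ L → Dec T 455 c R κ) ∧
      ∀ v ∈ T, ∀ n : ℕ, 1 ≤ n → (6000 * n : ℤ) ≤ L →
        κ * eT T v n ≤ aT T v n ∧ κ * aT T v n ≤ eT T v n := by
  obtain ⟨c, C, hc, hC, hwin⟩ := Y989.SD.m_WIN B α hα
  obtain ⟨ca, Ca, hca, hCa, har⟩ := Pool.Agent.H160R2.SA.arSharp
  obtain ⟨c', hc'⟩ : ∃ c' : ℝ, c' = min c 1 := ⟨_, rfl⟩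
  obtain ⟨ca', hca'⟩ : ∃ ca' : ℝ, ca' = min ca 1 := ⟨_, rfl⟩
  have c'0 : 0 < c' := by rw [hc']; exact lt_min hc one_pos
  have c'1 : c' ≤ 1 := by rw [hc']; exact min_le_right _ _
  have c'c : c' ≤ c := by rw [hc']; exact min_le_left _ _
  have ca'0 : 0 < ca' := by rw [hca']; exact lt_min hca one_pos
  have ca'1 : ca' ≤ 1 := by rw [hca']; exact min_le_right _ _
  have ca'c : ca' ≤ ca := by rw [hca']; exact min_le_left _ _
  have hk := kt_pos
  have hk1 : kt ≤ 1 := kt_le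
  obtain ⟨U, hU⟩ : ∃ U : ℝ, U = 16 * Ca + 10 * Ca * C := ⟨_, rfl⟩
  have U0 : 0 < U := by rw [hU]; positivity
  obtain ⟨κ1, hκ1⟩ : ∃ κ1 : ℝ, κ1 = ca' * (1 / 2 : ℝ) ^ 200 * kt * c' ^ 2 := ⟨_, rfl⟩
  have κ10 : 0 < κ1 := by rw [hκ1]; positivity
  obtain ⟨κ, hκ⟩ : ∃ κ : ℝ, κ = min (min c' ((1 / 2 : ℝ) ^ 188)) (min κ1 (min U⁻¹ 1)) := ⟨_, rfl⟩
  have k1 : κ ≤ min c' ((1 / 2 : ℝ) ^ 188) := by rw [hκ]; exact min_le_left _ _
  have k2 : κ ≤ κ1 := by rw [hκ]; exact (min_le_right _ _).trans (min_le_left _ _)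
  have k3 : κ ≤ U⁻¹ := by
    rw [hκ]; exact (min_le_right _ _).trans ((min_le_right _ _).trans (min_le_left _ _))
  have k4 : κ ≤ 1 := by
    rw [hκ]; exact (min_le_right _ _).trans ((min_le_right _ _).trans (min_le_right _ _))
  have k0 : 0 < κ := by
    rw [hκ]
    exact lt_min (lt_min c'0 (by positivity)) (lt_min κ10 (lt_min (inv_pos.mpr U0) one_pos))
  refine ⟨κ, k0, k4, fun T L hB => ⟨?_, ?_⟩⟩
  · intro v hv R hR hRL
    have hH : ∀ (v : Vtx), Win T v L B α → ∀ r : ℕ, 1 ≤ r → (128 * r : ℤ) ≤ L →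
        c' ≤ Pr P (ES T) (HT T v r (64 * r)) := fun v0 h0 r hr hrL =>
      c'c.trans ((hwin T v0 L h0 r (64 * r) (by omega) (by omega) (by omega)).2.2.2 hrL)
    obtain ⟨D, d1, d2, d3⟩ := dec_loc (c := c') c'0 hH hB hv hR hRL
    exact ⟨D, d1, k1.trans d2, d3⟩
  · intro v hv n hn hnL
    constructor
    · have h1 := arm_low (c := c') (ca := ca') ca'0 ca'1 c'0 c'1 (fun n hn => ?_)
        (fun v0 h0 r hr hrL => ?_) (fun v0 h0 r R hr hrR hRL => ?_) hB hv hn hnL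
      · rw [← hκ1] at h1
        exact (mul_le_mul_of_nonneg_right k2 (eT_pos hv hn).le).trans h1
      · exact (mul_le_mul_of_nonneg_right ca'c (by positivity)).trans (har n hn).1
      · exact c'c.trans ((hwin T v0 L h0 r (64 * r) (by omega) (by omega) (by omega)).2.2.2 hrL)
      · have h5 := (hwin T v0 L h0 r R (by omega) (by omega) hRL).2.1
        refine (mul_le_mul_of_nonneg_right c'c (by positivity)).trans ?_
        rw [Int.cast_natCast, Int.cast_natCast] at h5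
        exact h5
    · have h1 := arm_up (Ca := Ca) (Cw := C) hCa hC (fun n hn => (har n hn).2)
        (fun v0 h0 r R hr hrR hRL => ?_) hB hv hn (by omega)
      · rw [← hU] at h1
        calc κ * aT T v n ≤ U⁻¹ * (U * eT T v n) :=
              mul_le_mul k3 h1 (aT_nonneg _ _) (by positivity)
          _ = _ := by rw [← mul_assoc, inv_mul_cancel₀ U0.ne', one_mul]
      · have h5 := (hwin T v0 L h0 r R (by omega) (by omega) hRL).1
        rw [Int.cast_natCast, Int.cast_natCast] at h5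
        exact h5

end Pool.Agent.D0H95.KP
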