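import Pool.Agent.D0H95.KP.Cov

/-!
Smooth Jordan domains: the `k`-point connection probabilities.
-/

set_option autoImplicit false
set_option maxHeartbeats 1000000
set_option linter.unusedVariables false

namespace Pool.Agent.D0H95.KP
open Finset H974 Pool.Agent.H160R2.CV H362P
open Pool.Agent.H160R2.CV.Quad
open H973 (ES mem_ES BX mem_BX)
open TH976 (sd sd_self sd_comm sd_tri sd_pos fkg incr_and pr_edge EH cx norm_cx Cmp TwoP kFun PD
  Good)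
open Pool.Agent.Y989.SD (SmW disc cir pos TD Win btT)

theorem kFun_congr {g : ℂ → ℂ → ℝ} {z z' : ℕ → ℂ} {k : ℕ} (hk : 2 ≤ k)
    (h : ∀ i < k, z i = z' i) : kFun g z k = kFun g z' k := by
  unfold kFun
  rw [h 0 (by omega), h 1 (by omega)]
  congr 1
  apply Finset.prod_congr rfl
  intro j hj
  rw [Finset.mem_Ico] at hj
  congr 1
  funext p
  obtain ⟨⟨⟨a, ha⟩, ⟨b, hb⟩⟩, hab⟩ := p
  simp only
  rw [h j (by omega), h a (by omega), h b (by omega)]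

theorem kpt_smooth {f g : ℂ → ℂ} {M α : ℝ} (hf : SmW f g M α) :
    ∃ C ε0 : ℝ, 1 ≤ C ∧ 0 < ε0 ∧ ∀ ε : ℝ, 0 < ε → ε ≤ ε0 →
      (∀ v : Vtx, v ∈ TD f ε ↔ pos ε v ∈ f '' disc) ∧
      ∀ (k : ℕ) (x : ℕ → Vtx) (w : ℕ → ℂ), 2 ≤ k → (∀ i < k, x i ∈ D0 f ε) →
      (∀ i < k, ‖w i‖ < 1 ∧ f (w i) = pos ε (x i)) →
      (∀ i < k, ∀ j < k, i ≠ j → x i ≠ x j) →
      Cmp (C ^ k) (PD (↑(TD f ε) : Set Vtx) (Cn ((Finset.range k).image x)))
        (ε ^ (5 * k / 48 : ℝ) * kFun (GG f) w k) := by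
  obtain ⟨M1, κ, ε1, κ0, κ1, hε1, hdom⟩ := dom_TD hf
  obtain ⟨c, hc, hgood⟩ := good_of_dom (K := 455) (M := M1) (k := 3) κ0 κ1 (by norm_num)
  obtain ⟨K, ε2, hK, hε2, htwo⟩ := two_cov hf
  obtain ⟨ρ, B, ε3, hρ, hε3, hGD⟩ := Y989.SD.m_GD f g M α hf
  obtain ⟨C, hC⟩ : ∃ C : ℝ, C = (3 : ℝ) ^ 12 * (1 + c⁻¹) * (K * K * K) := ⟨_, rfl⟩
  have C1 : 1 ≤ C := by
    rw [hC]
    have hci : 0 < c⁻¹ := inv_pos.mpr hc
    exact Cmp.one_le_mul' (Cmp.one_le_mul' (by norm_num) (by linarith))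
      (Cmp.one_le_mul' (Cmp.one_le_mul' hK hK) hK)
  refine ⟨C, min ε1 (min ε2 ε3), C1, lt_min hε1 (lt_min hε2 hε3), ?_⟩
  intro ε hε hεε
  have i1 : ε ≤ ε1 := hεε.trans (min_le_left _ _)
  have i2 : ε ≤ ε2 := hεε.trans ((min_le_right _ _).trans (min_le_left _ _))
  have i3 : ε ≤ ε3 := hεε.trans ((min_le_right _ _).trans (min_le_right _ _))
  obtain ⟨g1, -, -⟩ := hGD ε hε i3
  refine ⟨g1, ?_⟩
  intro k x w hk hx hw hd
  obtain ⟨N, hN⟩ := hdom ε hε i1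
  have gd := hgood (TD f ε) (eT (TD f ε)) N hN
  -- the inverse of the parametrization
  have hinv : ∀ v ∈ D0 f ε, ‖Function.invFunOn f disc (pos ε v)‖ < 1 ∧
      f (Function.invFunOn f disc (pos ε v)) = pos ε v := by
    intro v hv
    have h1 := Function.invFunOn_mem hv.1
    have h2 := Function.invFunOn_eq hv.1
    refine ⟨?_, h2⟩
    rcases lt_or_eq_of_le (mem_disc'.mp h1) with h3 | h3
    · exact h3
    · exfalso
      have h4 := hv.2 _ h3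
      rw [h2, sub_self, norm_zero] at h4
      linarith
  obtain ⟨φ, hφ⟩ : ∃ φ : ℂ → ℂ, φ = fun z => Function.invFunOn f disc ((ε : ℂ) * z) := ⟨_, rfl⟩
  have hφv : ∀ v : Vtx, φ (cx v) = Function.invFunOn f disc (pos ε v) := by
    intro v
    rw [hφ, pos_eq]
  obtain ⟨G, hG⟩ : ∃ G : ℂ → ℂ → ℝ, G = fun z w =>
      ε ^ (5 / 48 : ℝ) * ε ^ (5 / 48 : ℝ) * GG f (φ z) (φ w) := ⟨_, rfl⟩
  have hTwo : TwoP (D0 f ε) (eT (TD f ε)) G K := by
    intro u hu v hv huv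
    rw [hG]
    simp only
    rw [hφv, hφv]
    exact htwo ε hε i2 u hu v hv huv _ _ (hinv u hu).1 (hinv v hv).1 (hinv u hu).2 (hinv v hv).2
  have hsub : D0 f ε ⊆ (↑(TD f ε) : Set Vtx) := fun v hv => Finset.mem_coe.mpr ((g1 v).mpr hv.1)
  obtain ⟨-, key⟩ := kpoint gd (fun v hv => eT_one (Finset.mem_coe.mp hv)) (reg_eT (TD f ε)) hsub
    hTwo hK
  have h1 := key k x hk hx hd
  rw [← hC] at h1
  refine h1.congr rfl ?_
  have h2 := TH976.kFun_cov (g := G) (g' := GG f) (J := fun _ => ε ^ (5 / 48 : ℝ)) (φ := φ)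
    (z := fun i => cx (x i)) (k := k) hk (fun _ _ => by positivity) (fun i _ j _ _ => by rw [hG])
  rw [h2, Finset.prod_const, Finset.card_range, ← Real.rpow_natCast, ← Real.rpow_mul hε.le]
  congr 1
  · congr 1
    ring
  · apply kFun_congr hk
    intro i hi
    rw [hφv]
    have h3 := hinv (x i) (hx i hi)
    have h4 := hw i hi
    apply hf.inj (mem_disc'.mpr h4.1.le) (mem_disc'.mpr h3.1.le)
    rw [h3.2, h4.2]

end Pool.Agent.D0H95.KP
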