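import Pool.Agent.D0H95.KP.Abs

/-!
Connection probabilities in a general finite domain: the addition of a point.
-/

set_option autoImplicit false
set_option maxHeartbeats 1000000
set_option linter.unusedVariables false

namespace Pool.Agent.D0H95.KP
open Finset H974 Pool.Agent.H160R2.CV H362P
open Pool.Agent.H160R2.CV.Quad
open H973 (ES mem_ES)
open TH976 (sd sd_self sd_comm sd_tri sd_pos fkg incr_and Near Diam Good Reg PD dE Cmp)

/-- What is needed of a finite domain: decoupling up to the scale `N`, a global cluster at the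
scale `N`, the one-arm probabilities up to the scale `2 N`, diameter at most `M N`. -/
structure Dom (T : Finset Vtx) (e : Vtx → ℕ → ℝ) (K M N : ℕ) (κ k : ℝ) : Prop where
  hK : 3 ≤ K
  hM : 1 ≤ M
  hN : 4 * K ≤ N
  hκ0 : 0 < κ
  hκ1 : κ ≤ 1
  dec : ∀ c ∈ T, ∀ R : ℕ, 1 ≤ R → R ≤ N → Dec T K c R κ
  net : Net T N κ
  arm : ∀ v ∈ T, ∀ n : ℕ, 1 ≤ n → n ≤ 2 * N → κ * e v n ≤ aT T v n ∧ κ * aT T v n ≤ e v n
  diam : ∀ u ∈ T, ∀ v ∈ T, sd u v ≤ M * N
  reg : Reg (↑T : Set Vtx) e k
  one : ∀ v ∈ T, e v 1 = 1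

variable {T : Finset Vtx} {e : Vtx → ℕ → ℝ} {K M N : ℕ} {κ k : ℝ}

theorem Dom.pos (h : Dom T e K M N κ k) {v : Vtx} (hv : v ∈ T) {n : ℕ} (hn : 1 ≤ n) : 0 < e v n :=
  h.reg.pos v (Finset.mem_coe.mpr hv) n hn

/-- change of scale -/
theorem Dom.sc (h : Dom T e K M N κ k) (J : ℕ) {v : Vtx} (hv : v ∈ T) {n m : ℕ} (hn : 1 ≤ n)
    (hm : 1 ≤ m) (hnm : m ≤ 3 ^ J * n) : e v n ≤ k ^ (J + 1) * e v m := by
  have hk := h.reg.hk
  have k0 : 0 < k := by linarith
  have hv' : v ∈ (↑T : Set Vtx) := Finset.mem_coe.mpr hv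
  have h1 : ∀ j : ℕ, e v n ≤ k ^ j * e v (3 ^ j * n) := by
    intro j
    induction j with
    | zero => simp
    | succ j ih =>
      have h2 := h.reg.dbl v hv' (3 ^ j * n) (Nat.one_le_iff_ne_zero.mpr (by positivity))
      calc e v n ≤ k ^ j * e v (3 ^ j * n) := ih
        _ ≤ k ^ j * (k * e v (3 * (3 ^ j * n))) := mul_le_mul_of_nonneg_left h2 (by positivity)
        _ = k ^ (j + 1) * e v (3 ^ (j + 1) * n) := by
            have : 3 * (3 ^ j * n) = 3 ^ (j + 1) * n := by ring
            rw [this]; ring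
  have h3 := h.reg.anti v hv' m (3 ^ J * n) hm hnm
  calc e v n ≤ k ^ J * e v (3 ^ J * n) := h1 J
    _ ≤ k ^ J * (k * e v m) := mul_le_mul_of_nonneg_left h3 (by positivity)
    _ = _ := by ring

/-- upper bound at the nearest point -/
theorem Dom.upper (h : Dom T e K M N κ k) {J : ℕ} (hJ : 12 * (K * K * M) ≤ 3 ^ J)
    {X : Finset Vtx} (hXT : ∀ u ∈ X, u ∈ T) {x y : Vtx} (hx : x ∈ T) {a D : ℕ} (hy : y ∈ X)
    (hyx : sd y x = a) (ha : 1 ≤ a) (hD : 1 ≤ D) (hX : ∀ u ∈ X, a ≤ sd u x)
    (hXD : ∀ u ∈ X, sd u y ≤ D) :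
    κ ^ 5 * (e y D * Pr P (ES T) (fun F => Cn (insert x X) (↑F))) ≤
      (k ^ (J + 1)) ^ 4 * ((e x a * e y (max a D)) * Pr P (ES T) (fun F => Cn X (↑F))) := by
  have hK := h.hK
  have hM := h.hM
  have hN := h.hN
  have hyT := hXT y hy
  have κ0 := h.hκ0
  have κ1 := h.hκ1
  have haM : a ≤ M * N := by rw [← hyx]; exact h.diam y hyT x hx
  have hKK : K ≤ K * K := by nlinarith
  have hKKM : K * K ≤ K * K * M := by nlinarith
  have hMM : M ≤ K * K * M := by nlinarith
  have hKM : K * K ≤ K * K * M := hKKM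
  have h3J : 0 < 3 ^ J := by positivity
  set A := k ^ (J + 1) with hA
  have hk := h.reg.hk
  have A1 : 1 ≤ A := one_le_pow₀ hk
  have A0 : 0 < A := by linarith
  have pX : 0 ≤ Pr P (ES T) (fun F => Cn X (↑F)) := Pr_nonneg okP _ _
  have pI : 0 ≤ Pr P (ES T) (fun F => Cn (insert x X) (↑F)) := Pr_nonneg okP _ _
  have e1 := h.pos hx ha
  have e2 := h.pos hyT hD
  have e3 := h.pos hyT (show 1 ≤ max a D by omega)
  rcases Nat.lt_or_ge a K with hc | hc
  · -- `a < K`
    have h1 : Pr P (ES T) (fun F => Cn (insert x X) (↑F)) ≤ Pr P (ES T) (fun F => Cn X (↑F)) :=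
      Pr_mono okP (fun F _ hF u hu v hv => hF u (Finset.mem_insert_of_mem hu) v
        (Finset.mem_insert_of_mem hv))
    have h2 : 1 ≤ A * e x a := by
      have := h.sc J hx le_rfl ha (show a ≤ 3 ^ J * 1 by omega)
      rw [h.one x hx] at this
      exact this
    have h3 : e y D ≤ A * e y (max a D) := by
      apply h.sc J hyT hD (by omega)
      have : K * D ≤ 3 ^ J * D := Nat.mul_le_mul_right _ (by omega)
      have : K * 1 ≤ K * D := Nat.mul_le_mul_left _ hD
      have : 1 * D ≤ K * D := Nat.mul_le_mul_right _ (by omega)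
      omega
    generalize Pr P (ES T) (fun F => Cn (insert x X) (↑F)) = I at *
    generalize Pr P (ES T) (fun F => Cn X (↑F)) = Y at *
    calc κ ^ 5 * (e y D * I) ≤ 1 * (e y D * I) := by
          apply mul_le_mul_of_nonneg_right (pow_le_one₀ κ0.le κ1) (by positivity)
      _ ≤ 1 * ((A * e y (max a D)) * (A * e x a * Y)) := by
          apply mul_le_mul_of_nonneg_left _ zero_le_one
          apply mul_le_mul h3 _ pI (by positivity)
          calc I ≤ 1 * Y := by linarith
            _ ≤ A * e x a * Y := mul_le_mul_of_nonneg_right h2 pX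
      _ = A ^ 2 * ((e x a * e y (max a D)) * Y) := by ring
      _ ≤ A ^ 4 * ((e x a * e y (max a D)) * Y) := by
          apply mul_le_mul_of_nonneg_right _ (by positivity)
          exact pow_le_pow_right₀ A1 (by norm_num)
  · obtain ⟨μ, hμ⟩ : ∃ μ : ℕ, μ = min a N := ⟨_, rfl⟩
    have hμM : a ≤ M * μ := by
      rcases le_total a N with h1 | h1
      · rw [hμ, min_eq_left h1]; nlinarith
      · rw [hμ, min_eq_right h1]; exact haM
    rcases Nat.lt_or_ge μ (3 * (K * K) * D) with hc2 | hc2
    · -- `D` is large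
      obtain ⟨r, hr⟩ : ∃ r : ℕ, r = a / K := ⟨_, rfl⟩
      obtain ⟨r', hr'⟩ : ∃ r' : ℕ, r' = min r N := ⟨_, rfl⟩
      have hr1 : 1 ≤ r := by rw [hr]; exact Nat.div_pos hc (by omega)
      have hKr : K * r ≤ a := by rw [hr]; exact Nat.mul_div_le a K
      have har : a < K * r + K := by
        rw [hr]
        have := Nat.lt_mul_div_succ a (show 0 < K by omega)
        linarith
      have hr'1 : 1 ≤ r' := by omega
      have hr'r : r' ≤ r := by omega
      have hKr' : K * r' ≤ a := (Nat.mul_le_mul_left K hr'r).trans hKr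
      have h0 := up1 (T := T) (X := X) hx (r := r') (K := K) hy (by rw [hyx]; nlinarith)
        (fun u hu => hKr'.trans (hX u hu)) κ0 (h.dec x hx r' hr'1 (by omega))
      have h1 := (h.arm x hx r' hr'1 (by omega)).2
      have h2 : e x r' ≤ A * e x a := by
        apply h.sc J hx hr'1 ha
        rcases le_total r N with h3 | h3
        · rw [hr', min_eq_left h3]
          calc a ≤ K * r + K * 1 := by omega
            _ ≤ K * r + K * r := by
                have := Nat.mul_le_mul_left K hr1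
                omega
            _ = (2 * K) * r := by ring
            _ ≤ 3 ^ J * r := Nat.mul_le_mul_right _ (by omega)
        · rw [hr', min_eq_right h3]
          exact haM.trans (Nat.mul_le_mul_right _ (by omega))
      have h3 : e y D ≤ A * e y (max a D) := by
        apply h.sc J hyT hD (by omega)
        have q1 : a ≤ M * (3 * (K * K) * D) := hμM.trans (Nat.mul_le_mul_left _ hc2.le)
        have q2 : M * (3 * (K * K) * D) = (3 * (K * K * M)) * D := by ring
        have q3 : (3 * (K * K * M)) * D ≤ 3 ^ J * D := Nat.mul_le_mul_right _ (by omega)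
        have q4 : 1 * D ≤ 3 ^ J * D := Nat.mul_le_mul_right _ h3J
        omega
      have p1 : 0 ≤ aT T x r' := aT_nonneg _ _
      generalize Pr P (ES T) (fun F => Cn (insert x X) (↑F)) = I at *
      generalize Pr P (ES T) (fun F => Cn X (↑F)) = Y at *
      calc κ ^ 5 * (e y D * I) = κ ^ 3 * (e y D * (κ * (κ * I))) := by ring
        _ ≤ 1 * (e y D * (κ * (κ * I))) := by
            apply mul_le_mul_of_nonneg_right (pow_le_one₀ κ0.le κ1) (by positivity)
        _ ≤ 1 * (e y D * (κ * (aT T x r' * Y))) := by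
            apply mul_le_mul_of_nonneg_left _ zero_le_one
            apply mul_le_mul_of_nonneg_left _ e2.le
            exact mul_le_mul_of_nonneg_left h0 κ0.le
        _ = e y D * ((κ * aT T x r') * Y) := by ring
        _ ≤ (A * e y (max a D)) * ((A * e x a) * Y) := by
            apply mul_le_mul h3 _ (by positivity) (by positivity)
            exact mul_le_mul_of_nonneg_right (h1.trans h2) pX
        _ = A ^ 2 * ((e x a * e y (max a D)) * Y) := by ring
        _ ≤ A ^ 4 * ((e x a * e y (max a D)) * Y) := by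
            apply mul_le_mul_of_nonneg_right _ (by positivity)
            exact pow_le_pow_right₀ A1 (by norm_num)
    · -- `D` is small
      obtain ⟨t, ht⟩ : ∃ t : ℕ, t = K * D := ⟨_, rfl⟩
      obtain ⟨s, hs⟩ : ∃ s : ℕ, s = K * (K * D) := ⟨_, rfl⟩
      have hs2 : 3 * (K * K) * D = 3 * s := by rw [hs]; ring
      have hts : 3 * t ≤ s := by
        rw [hs, ht]
        nlinarith [Nat.mul_le_mul_right (K * D) hK]
      have ht1 : 3 ≤ t := by rw [ht]; nlinarith
      have hDt : D ≤ t := by rw [ht]; nlinarith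
      obtain ⟨n, hn⟩ : ∃ n : ℕ, n = (μ - 1) / 2 := ⟨_, rfl⟩
      have hμa : μ ≤ a := by omega
      have hμN : μ ≤ N := by omega
      have hxy := sd_comm x y
      have h0 := up2 (T := T) (X := X) hXT hx (n := n) (R := D) (K := K) hy (by omega)
        (by omega) hXD κ0 (h.dec y hyT D hD (by omega))
      have h1 := aT_glue (T := T) hyT (r := K * D) (n := n) (K := K) (by omega) κ0
        (h.dec y hyT (K * D) (by omega) (by omega))
      have h2 := (h.arm x hx n (by omega) (by omega)).2
      have h3 := (h.arm y hyT n (by omega) (by omega)).2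
      have h4 := (h.arm y hyT (K * (K * D)) (by omega) (by omega)).1
      have h5 : e x n ≤ A * e x a := by
        apply h.sc J hx (by omega) ha
        calc a ≤ M * μ := hμM
          _ ≤ M * (4 * n) := Nat.mul_le_mul_left _ (by omega)
          _ = (4 * M) * n := by ring
          _ ≤ 3 ^ J * n := Nat.mul_le_mul_right _ (by omega)
      have hmax : max a D = a := by omega
      have h6 : e y n ≤ A * e y (max a D) := by
        rw [hmax]
        apply h.sc J hyT (by omega) ha
        calc a ≤ M * μ := hμM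
          _ ≤ M * (4 * n) := Nat.mul_le_mul_left _ (by omega)
          _ = (4 * M) * n := by ring
          _ ≤ 3 ^ J * n := Nat.mul_le_mul_right _ (by omega)
      have h7 : e y D ≤ A * e y (K * (K * D)) := by
        apply h.sc J hyT hD (by omega)
        calc K * (K * D) = (K * K) * D := by ring
          _ ≤ 3 ^ J * D := Nat.mul_le_mul_right _ (by omega)
      have p1 : 0 ≤ aT T x n := aT_nonneg _ _
      have p2 : 0 ≤ cT T y (K * D) n := cT_nonneg _ _ _
      have p3 : 0 ≤ aT T y (K * (K * D)) := aT_nonneg _ _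
      have p4 := h.pos hyT (show 1 ≤ K * (K * D) by omega)
      generalize Pr P (ES T) (fun F => Cn (insert x X) (↑F)) = I at *
      generalize Pr P (ES T) (fun F => Cn X (↑F)) = Y at *
      generalize cT T y (K * D) n = c at *
      generalize aT T y (K * (K * D)) = b at *
      generalize aT T x n = α at *
      generalize aT T y n = β at *
      -- `κ ^ 3 * (e y D * c) ≤ A * (A * e y (max a D))`
      have h8 : κ ^ 3 * (e y D * c) ≤ A * (A * e y (max a D)) := by
        calc κ ^ 3 * (e y D * c) ≤ κ ^ 3 * ((A * e y (K * (K * D))) * c) := by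
              apply mul_le_mul_of_nonneg_left _ (by positivity)
              exact mul_le_mul_of_nonneg_right h7 p2
          _ = A * (κ * (κ * ((κ * e y (K * (K * D))) * c))) := by ring
          _ ≤ A * (κ * (κ * (b * c))) := by
              apply mul_le_mul_of_nonneg_left _ A0.le
              apply mul_le_mul_of_nonneg_left _ κ0.le
              apply mul_le_mul_of_nonneg_left _ κ0.le
              exact mul_le_mul_of_nonneg_right h4 p2
          _ ≤ A * (κ * β) := by
              apply mul_le_mul_of_nonneg_left _ A0.le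
              exact mul_le_mul_of_nonneg_left h1 κ0.le
          _ ≤ A * (A * e y (max a D)) := by
              apply mul_le_mul_of_nonneg_left _ A0.le
              exact h3.trans h6
      calc κ ^ 5 * (e y D * I) = κ ^ 3 * e y D * (κ * (κ * I)) := by ring
        _ ≤ κ ^ 3 * e y D * (κ * (α * (c * Y))) := by
            apply mul_le_mul_of_nonneg_left _ (by positivity)
            exact mul_le_mul_of_nonneg_left h0 κ0.le
        _ = (κ * α) * ((κ ^ 3 * (e y D * c)) * Y) := by ring
        _ ≤ (A * e x a) * ((A * (A * e y (max a D))) * Y) := by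
            apply mul_le_mul (h2.trans h5) _ (by positivity) (by positivity)
            exact mul_le_mul_of_nonneg_right h8 pX
        _ = A ^ 3 * ((e x a * e y (max a D)) * Y) := by ring
        _ ≤ A ^ 4 * ((e x a * e y (max a D)) * Y) := by
            apply mul_le_mul_of_nonneg_right _ (by positivity)
            exact pow_le_pow_right₀ A1 (by norm_num)

/-- two arms give the connection -/
theorem Dom.two_arms (h : Dom T e K M N κ k) {J : ℕ} (hJ : 12 * (K * K * M) ≤ 3 ^ J)
    {X : Finset Vtx} (hXT : ∀ u ∈ X, u ∈ T) {x y : Vtx} (hx : x ∈ T) {a : ℕ} (hy : y ∈ X)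
    (hyx : sd y x = a) (ha : 1 ≤ a) :
    κ ^ 3 * ((e x a * e y a) * Pr P (ES T) (fun F => Cn X (↑F))) ≤
      (k ^ (J + 1)) ^ 2 * Pr P (ES T) (fun F => Cn (insert x X) (↑F)) := by
  have hK := h.hK
  have hM := h.hM
  have hN := h.hN
  have hyT := hXT y hy
  have κ0 := h.hκ0
  have κ1 := h.hκ1
  have haM : a ≤ M * N := by rw [← hyx]; exact h.diam y hyT x hx
  have hKK : K ≤ K * K := by nlinarith
  have hKKM : K * K ≤ K * K * M := by nlinarith
  have hMM : M ≤ K * K * M := by nlinarith
  have h3J : 0 < 3 ^ J := by positivity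
  set A := k ^ (J + 1) with hA
  have hk := h.reg.hk
  have A1 : 1 ≤ A := one_le_pow₀ hk
  have A0 : 0 < A := by linarith
  have pX : 0 ≤ Pr P (ES T) (fun F => Cn X (↑F)) := Pr_nonneg okP _ _
  have pI : 0 ≤ Pr P (ES T) (fun F => Cn (insert x X) (↑F)) := Pr_nonneg okP _ _
  have e1 := h.pos hx ha
  have e2 := h.pos hyT ha
  -- the scale of the arms
  obtain ⟨n, hn1, hn2, hnJ, hlow⟩ : ∃ n : ℕ, 1 ≤ n ∧ n ≤ 2 * N ∧ n ≤ 3 ^ J * a ∧
      κ * (aT T x n * aT T y n) * Pr P (ES T) (fun F => Cn X (↑F)) ≤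
        Pr P (ES T) (fun F => Cn (insert x X) (↑F)) := by
    rcases Nat.lt_or_ge N (2 * K * a) with hc | hc
    · exact ⟨N, by omega, by omega, hc.le.trans (Nat.mul_le_mul_right _ (by omega)),
        low1N (T := T) hx hyT hy κ0 h.net⟩
    · have q1 : K * a + a ≤ 2 * K * a := by nlinarith
      have q2 : a ≤ K * a := by nlinarith
      exact ⟨K * a + a, by omega, by omega, q1.trans (Nat.mul_le_mul_right _ (by omega)),
        low1 (T := T) hx hyT (R := a) hy hyx.le le_rfl κ0 (h.dec x hx a ha (by omega))⟩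
  have a1 := (h.arm x hx n hn1 hn2).1
  have a2 := (h.arm y hyT n hn1 hn2).1
  have b1 : e x a ≤ A * e x n := h.sc J hx ha hn1 hnJ
  have b2 : e y a ≤ A * e y n := h.sc J hyT ha hn1 hnJ
  have p1 := h.pos hx hn1
  have p2 := h.pos hyT hn1
  have p3 : 0 ≤ aT T x n := aT_nonneg _ _
  generalize Pr P (ES T) (fun F => Cn (insert x X) (↑F)) = I at *
  generalize Pr P (ES T) (fun F => Cn X (↑F)) = Y at *
  generalize aT T x n = α at *
  generalize aT T y n = β at *
  calc κ ^ 3 * ((e x a * e y a) * Y) ≤ κ ^ 3 * (((A * e x n) * (A * e y n)) * Y) := by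
        apply mul_le_mul_of_nonneg_left _ (by positivity)
        apply mul_le_mul_of_nonneg_right _ pX
        exact mul_le_mul b1 b2 e2.le (by positivity)
    _ = A ^ 2 * (κ * ((κ * e x n) * (κ * e y n)) * Y) := by ring
    _ ≤ A ^ 2 * (κ * (α * β) * Y) := by
        apply mul_le_mul_of_nonneg_left _ (by positivity)
        apply mul_le_mul_of_nonneg_right _ pX
        apply mul_le_mul_of_nonneg_left _ κ0.le
        exact mul_le_mul a1 a2 (by positivity) p3
    _ ≤ A ^ 2 * I := mul_le_mul_of_nonneg_left hlow (by positivity)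

/-- lower bound at the nearest point -/
theorem Dom.lower (h : Dom T e K M N κ k) {J : ℕ} (hJ : 12 * (K * K * M) ≤ 3 ^ J)
    {X : Finset Vtx} (hXT : ∀ u ∈ X, u ∈ T) {x y z0 : Vtx} (hx : x ∈ T) {a D : ℕ} (hy : y ∈ X)
    (hz0 : z0 ∈ X) (hyx : sd y x = a) (ha : 1 ≤ a) (hD : 1 ≤ D)
    (hcase : D ≤ 1 ∨ D ≤ 2 * sd z0 y) (hDM : D ≤ M * N) :
    κ ^ 5 * ((e x a * e y (max a D)) * Pr P (ES T) (fun F => Cn X (↑F))) ≤
      (k ^ (J + 1)) ^ 4 * (e y D * Pr P (ES T) (fun F => Cn (insert x X) (↑F))) := by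
  have hK := h.hK
  have hM := h.hM
  have hN := h.hN
  have hyT := hXT y hy
  have κ0 := h.hκ0
  have κ1 := h.hκ1
  have haM : a ≤ M * N := by rw [← hyx]; exact h.diam y hyT x hx
  have hKK : K ≤ K * K := by nlinarith
  have hKKM : K * K ≤ K * K * M := by nlinarith
  have hMM : M ≤ K * K * M := by nlinarith
  have hKM : K * M ≤ K * K * M := Nat.mul_le_mul_right _ hKK
  have h3J : 0 < 3 ^ J := by positivity
  have h2arms := h.two_arms hJ hXT hx hy hyx ha
  set A := k ^ (J + 1) with hA
  have hk := h.reg.hk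
  have k0 : 0 < k := by linarith
  have A1 : 1 ≤ A := one_le_pow₀ hk
  have A0 : 0 < A := by linarith
  have hkA : k ≤ A := by
    calc k = k ^ 1 := (pow_one k).symm
      _ ≤ k ^ (J + 1) := pow_le_pow_right₀ hk (by omega)
  have pX : 0 ≤ Pr P (ES T) (fun F => Cn X (↑F)) := Pr_nonneg okP _ _
  have pI : 0 ≤ Pr P (ES T) (fun F => Cn (insert x X) (↑F)) := Pr_nonneg okP _ _
  have e1 := h.pos hx ha
  have e2 := h.pos hyT hD
  have e3 := h.pos hyT (show 1 ≤ max a D by omega)
  have e4 := h.pos hyT ha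
  have hyT' : y ∈ (↑T : Set Vtx) := Finset.mem_coe.mpr hyT
  obtain ⟨μ, hμ⟩ : ∃ μ : ℕ, μ = min (min a D) N := ⟨_, rfl⟩
  rcases Nat.lt_or_ge μ (4 * K) with hc | hc
  · -- small scale
    have key : e y (max a D) ≤ A ^ 2 * (e y a * e y D) := by
      rcases Nat.lt_or_ge a (4 * K) with h1 | h1
      · have i1 : 1 ≤ A * e y a := by
          have := h.sc J hyT le_rfl ha (show a ≤ 3 ^ J * 1 by omega)
          rw [h.one y hyT] at this
          exact this
        have i2 : e y (max a D) ≤ A * e y D :=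
          (h.reg.anti y hyT' D (max a D) hD (le_max_right _ _)).trans
            (mul_le_mul_of_nonneg_right hkA e2.le)
        calc e y (max a D) ≤ 1 * (A * e y D) := by linarith
          _ ≤ (A * e y a) * (A * e y D) := mul_le_mul_of_nonneg_right i1 (by positivity)
          _ = _ := by ring
      · have h2 : D < 4 * K := by omega
        have i1 : 1 ≤ A * e y D := by
          have := h.sc J hyT le_rfl hD (show D ≤ 3 ^ J * 1 by omega)
          rw [h.one y hyT] at this
          exact this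
        have i2 : e y (max a D) ≤ A * e y a :=
          (h.reg.anti y hyT' a (max a D) ha (le_max_left _ _)).trans
            (mul_le_mul_of_nonneg_right hkA e4.le)
        calc e y (max a D) ≤ (A * e y a) * 1 := by linarith
          _ ≤ (A * e y a) * (A * e y D) := mul_le_mul_of_nonneg_left i1 (by positivity)
          _ = _ := by ring
    generalize Pr P (ES T) (fun F => Cn (insert x X) (↑F)) = I at *
    generalize Pr P (ES T) (fun F => Cn X (↑F)) = Y at *
    calc κ ^ 5 * ((e x a * e y (max a D)) * Y)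
        ≤ κ ^ 3 * ((e x a * e y (max a D)) * Y) := by
          apply mul_le_mul_of_nonneg_right _ (by positivity)
          exact pow_le_pow_of_le_one κ0.le κ1 (by norm_num)
      _ ≤ κ ^ 3 * ((e x a * (A ^ 2 * (e y a * e y D))) * Y) := by
          apply mul_le_mul_of_nonneg_left _ (by positivity)
          apply mul_le_mul_of_nonneg_right _ pX
          exact mul_le_mul_of_nonneg_left key e1.le
      _ = A ^ 2 * (e y D * (κ ^ 3 * ((e x a * e y a) * Y))) := by ring
      _ ≤ A ^ 2 * (e y D * (A ^ 2 * I)) := by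
          apply mul_le_mul_of_nonneg_left _ (by positivity)
          exact mul_le_mul_of_nonneg_left h2arms e2.le
      _ = _ := by ring
  · -- large scale
    obtain ⟨q, hq⟩ : ∃ q : ℕ, q = μ / (4 * K) := ⟨_, rfl⟩
    have hq1 : 1 ≤ q := by rw [hq]; exact Nat.div_pos hc (by omega)
    have hKq : 4 * K * q ≤ μ := by rw [hq]; exact Nat.mul_div_le μ (4 * K)
    have hKq' : μ < 4 * K * q + 4 * K := by
      rw [hq]
      have := Nat.lt_mul_div_succ μ (show 0 < 4 * K by omega)
      linarith
    obtain ⟨t, ht⟩ : ∃ t : ℕ, t = K * q := ⟨_, rfl⟩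
    have e4t : 4 * K * q = 4 * t := by rw [ht]; ring
    have hqt : 3 * q ≤ t := by rw [ht]; exact Nat.mul_le_mul_right _ hK
    have hfar : K * q ≤ sd z0 y := by
      rw [← ht]
      omega
    have hKt : K ≤ t := by rw [ht]; nlinarith
    obtain ⟨m, hm⟩ : ∃ m : ℕ, m = min a D := ⟨_, rfl⟩
    have hmM : m ≤ M * μ := by
      rcases le_total (min a D) N with h1 | h1
      · rw [hm, hμ, min_eq_left h1]; nlinarith
      · rw [hμ, min_eq_right h1, hm]; exact (min_le_left _ _).trans haM
    have hmq : m ≤ 3 ^ J * q := by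
      calc m ≤ M * μ := hmM
        _ ≤ M * (8 * K * q) := by
            apply Nat.mul_le_mul_left
            have : 8 * K * q = 8 * t := by rw [ht]; ring
            omega
        _ = (8 * (K * M)) * q := by ring
        _ ≤ 3 ^ J * q := Nat.mul_le_mul_right _ (by omega)
    -- the scale of the arms
    obtain ⟨n, hn1, hn2, hnJ, hqn, hlow⟩ : ∃ n : ℕ, 1 ≤ n ∧ n ≤ 2 * N ∧ n ≤ 3 ^ J * a ∧ q ≤ n ∧
        (κ * κ) * (aT T x n * cT T y q n) * Pr P (ES T) (fun F => Cn X (↑F)) ≤
          Pr P (ES T) (fun F => Cn (insert x X) (↑F)) := by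
      rcases Nat.lt_or_ge N (4 * K * a) with hc2 | hc2
      · refine ⟨2 * N, by omega, le_rfl, ?_, by omega,
          low2N (T := T) hx hyT (N := N) (K := K) hy hz0 (by omega) (by omega) hfar κ0 h.net
            (h.dec y hyT q hq1 (by omega))⟩
        calc 2 * N ≤ 2 * (4 * K * a) := by omega
          _ = (8 * K) * a := by ring
          _ ≤ 3 ^ J * a := Nat.mul_le_mul_right _ (by omega)
      · obtain ⟨w, hw⟩ : ∃ w : ℕ, w = K * a := ⟨_, rfl⟩
        have f1 : 4 * K * a = 4 * w := by rw [hw]; ring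
        have f2 : K * (2 * a) = 2 * w := by rw [hw]; ring
        have f3 : 3 * a ≤ w := by rw [hw]; exact Nat.mul_le_mul_right _ hK
        refine ⟨4 * K * a, by omega, by omega, Nat.mul_le_mul_right _ (by omega), by omega,
          low2 (T := T) hx hyT (R := 2 * a) (K := K) hy hz0 (by omega) (by omega) (by omega)
            hfar κ0 (h.dec x hx (2 * a) (by omega) (by omega)) (h.dec y hyT q hq1 (by omega))⟩
    have a1 := (h.arm x hx n hn1 hn2).1
    have a2 := (h.arm y hyT n hn1 hn2).1
    have a3 := (h.arm y hyT q hq1 (by omega)).2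
    have a4 := aT_split (T := T) hyT hqn
    have b1 : e x a ≤ A * e x n := h.sc J hx ha hn1 hnJ
    have b2 : e y a ≤ A * e y n := h.sc J hyT ha hn1 hnJ
    have b3 : e y q ≤ A * e y m := h.sc J hyT hq1 (by omega) hmq
    have hmax : e y (max a D) * e y m = e y a * e y D := by
      rcases le_total a D with h1 | h1
      · rw [hm, max_eq_right h1, min_eq_left h1]; ring
      · rw [hm, max_eq_left h1, min_eq_right h1]
    have p1 := h.pos hx hn1
    have p2 := h.pos hyT hn1
    have p4 := h.pos hyT hq1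
    have p5 := h.pos hyT (show 1 ≤ m by omega)
    have p3 : 0 ≤ aT T x n := aT_nonneg _ _
    have p6 : 0 ≤ cT T y q n := cT_nonneg _ _ _
    generalize Pr P (ES T) (fun F => Cn (insert x X) (↑F)) = I at *
    generalize Pr P (ES T) (fun F => Cn X (↑F)) = Y at *
    generalize aT T x n = α at *
    generalize aT T y n = β at *
    generalize aT T y q = γ at *
    generalize cT T y q n = c at *
    generalize e x n = en at *
    generalize e y n = fn at *
    generalize e y q = fq at *
    generalize e y m = fm at *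
    generalize e y (max a D) = fM at *
    generalize e y D = fD at *
    generalize e y a = fa at *
    generalize e x a = ea at *
    -- `κ ^ 2 * fa ≤ A ^ 2 * fm * c`
    have h8 : κ ^ 2 * fa ≤ A ^ 2 * (fm * c) := by
      calc κ ^ 2 * fa ≤ κ ^ 2 * (A * fn) := mul_le_mul_of_nonneg_left b2 (by positivity)
        _ = A * (κ * (κ * fn)) := by ring
        _ ≤ A * (κ * (γ * c)) := by
            apply mul_le_mul_of_nonneg_left _ A0.le
            exact mul_le_mul_of_nonneg_left (a2.trans a4) κ0.le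
        _ = A * ((κ * γ) * c) := by ring
        _ ≤ A * ((A * fm) * c) := by
            apply mul_le_mul_of_nonneg_left _ A0.le
            exact mul_le_mul_of_nonneg_right (a3.trans b3) p6
        _ = _ := by ring
    -- `κ ^ 2 * fM ≤ A ^ 2 * fD * c`
    have h9 : κ ^ 2 * fM ≤ A ^ 2 * (fD * c) := by
      have : (κ ^ 2 * fM) * fm ≤ (A ^ 2 * (fD * c)) * fm := by
        calc (κ ^ 2 * fM) * fm = fD * (κ ^ 2 * fa) := by
              rw [mul_assoc, hmax]; ring
          _ ≤ fD * (A ^ 2 * (fm * c)) := mul_le_mul_of_nonneg_left h8 e2.le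
          _ = _ := by ring
      exact le_of_mul_le_mul_right this p5
    calc κ ^ 5 * ((ea * fM) * Y) = κ ^ 3 * (ea * (κ ^ 2 * fM) * Y) := by ring
      _ ≤ κ ^ 3 * ((A * en) * (A ^ 2 * (fD * c)) * Y) := by
          apply mul_le_mul_of_nonneg_left _ (by positivity)
          apply mul_le_mul_of_nonneg_right _ pX
          exact mul_le_mul b1 h9 (by positivity) (by positivity)
      _ = A ^ 3 * fD * (κ ^ 2 * ((κ * en) * c) * Y) := by ring
      _ ≤ A ^ 3 * fD * (κ ^ 2 * (α * c) * Y) := by
          apply mul_le_mul_of_nonneg_left _ (by positivity)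
          apply mul_le_mul_of_nonneg_right _ pX
          apply mul_le_mul_of_nonneg_left _ (by positivity)
          exact mul_le_mul_of_nonneg_right a1 p6
      _ = A ^ 3 * fD * ((κ * κ) * (α * c) * Y) := by ring
      _ ≤ A ^ 3 * fD * I := mul_le_mul_of_nonneg_left hlow (by positivity)
      _ = 1 * (A ^ 3 * (fD * I)) := by ring
      _ ≤ A * (A ^ 3 * (fD * I)) := mul_le_mul_of_nonneg_right A1 (by positivity)
      _ = _ := by ring

/-- the percolation restricted to a finite domain -/
theorem bD_eq (T : Finset Vtx) : ∃ m0 : ℕ, ∀ m : ℕ, m0 ≤ m → TH976.bD (↑T : Set Vtx) m = ES T := by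
  classical
  obtain ⟨m0, hm0⟩ : ∃ m0 : ℕ, ES T ⊆ boxE m0 := by
    obtain ⟨m, hm⟩ : ∃ m : ℕ, ∀ v ∈ T, nv v ≤ m := by
      refine ⟨T.sup nv, fun v hv => Finset.le_sup (f := nv) hv⟩
    refine ⟨m, fun e he => ?_⟩
    obtain ⟨h1, h2⟩ := mem_ES.mp he
    have h3 := hm _ h1
    have h4 := hm _ h2
    obtain ⟨x, y, _ | _⟩ := e
    · rw [src_mk] at h3
      rw [tgt_false] at h4
      unfold nv at h3 h4
      simp only at h3 h4
      unfold boxE
      rw [mem_RE_false]
      omega
    · rw [src_mk] at h3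
      rw [tgt_true] at h4
      unfold nv at h3 h4
      simp only at h3 h4
      unfold boxE
      rw [mem_RE_true]
      omega
  refine ⟨m0, fun m hm => ?_⟩
  ext e
  rw [TH976.mem_bD]
  unfold dE
  simp only [Set.mem_ofPred_eq, Finset.mem_coe]
  constructor
  · rintro ⟨-, h⟩
    exact mem_ES.mpr h
  · intro h
    exact ⟨(hm0.trans (boxE_mono hm)) h, mem_ES.mp h⟩

/-- **Adding a point.** -/
theorem good_of_dom {K M : ℕ} {κ k : ℝ} (hκ0 : 0 < κ) (hκ1 : κ ≤ 1) (hk : 1 ≤ k) :
    ∃ c : ℝ, 0 < c ∧ ∀ (T : Finset Vtx) (e : Vtx → ℕ → ℝ) (N : ℕ), Dom T e K M N κ k →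
      Good (↑T : Set Vtx) e c := by
  obtain ⟨J, hJ⟩ : ∃ J : ℕ, 12 * (K * K * M) ≤ 3 ^ J :=
    ⟨12 * (K * K * M), (Nat.lt_pow_self (by norm_num)).le⟩
  have k0 : 0 < k := by linarith
  set A := k ^ (J + 1) with hA
  have A1 : 1 ≤ A := one_le_pow₀ hk
  have A0 : 0 < A := by linarith
  refine ⟨κ ^ 5 / (k * A ^ 4), by positivity, ?_⟩
  intro T e N h
  have hc : 0 < κ ^ 5 / (k * A ^ 4) := by positivity
  refine TH976.good_of hc (fun v hv n hn => h.reg.pos v hv n hn) ?_
  intro X x y a d hXD hx hxX hy hn hd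
  obtain ⟨m0, hm0⟩ := bD_eq T
  refine ⟨m0, fun m hm => ?_⟩
  rw [hm0 m hm]
  obtain ⟨⟨y0, hy0, hay⟩, hmin⟩ := hn
  obtain ⟨⟨p, hp, r, hr, hD⟩, hmax⟩ := hd
  have ha1 : 1 ≤ a := by
    rw [hay]
    apply sd_pos
    rintro rfl
    exact hxX hy0
  have hyx : sd y0 x = a := by rw [sd_comm]; exact hay.symm
  obtain ⟨D', hD'⟩ : ∃ D' : ℕ, D' = max d 1 := ⟨_, rfl⟩
  rw [← hD']
  have hD1 : 1 ≤ D' := by omega
  have hxT : x ∈ T := Finset.mem_coe.mp hx
  have hXT : ∀ u ∈ X, u ∈ T := fun u hu => Finset.mem_coe.mp (hXD u hu)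
  have hyT := hXT y hy
  have hy0T := hXT y0 hy0
  have hdM : d ≤ M * N := by rw [hD]; exact h.diam p (hXT p hp) r (hXT r hr)
  have hM := h.hM
  have hN := h.hN
  have hK := h.hK
  have hMN : 1 ≤ M * N := Nat.mul_pos (by omega) (by omega)
  have hyy : sd y y0 ≤ D' := by
    have := hmax ⟨y, hy, y0, hy0, rfl⟩
    omega
  have r1 := h.reg.rat y (hXD y hy) y0 (hXD y0 hy0) D' (max a D') hyy hD1 (le_max_right _ _)
  have r2 := h.reg.rat y0 (hXD y0 hy0) y (hXD y hy) D' (max a D') (by rw [sd_comm]; exact hyy)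
    hD1 (le_max_right _ _)
  have a1 := h.pos hxT ha1
  have u1 := h.pos hyT hD1
  have u2 := h.pos hy0T hD1
  have u3 := h.pos hyT (show 1 ≤ max a D' by omega)
  have u4 := h.pos hy0T (show 1 ≤ max a D' by omega)
  have pX : 0 ≤ Pr P (ES T) (fun F => Cn X (↑F)) := Pr_nonneg okP _ _
  have pI : 0 ≤ Pr P (ES T) (fun F => Cn (insert x X) (↑F)) := Pr_nonneg okP _ _
  constructor
  · have hcs : ∃ z0 ∈ X, D' ≤ 1 ∨ D' ≤ 2 * sd z0 y0 := by
      have h1 : d ≤ sd p y0 + sd r y0 := by
        rw [hD, sd_comm r y0]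
        exact sd_tri p y0 r
      rcases Nat.lt_or_ge (sd p y0) (sd r y0) with h2 | h2
      · exact ⟨r, hr, by omega⟩
      · exact ⟨p, hp, by omega⟩
    obtain ⟨z0, hz0, hcs⟩ := hcs
    have hl := h.lower hJ hXT hxT hy0 hz0 hyx ha1 hD1 hcs (by omega)
    rw [← hA] at hl
    generalize Pr P (ES T) (fun F => Cn (insert x X) (↑F)) = I at *
    generalize Pr P (ES T) (fun F => Cn X (↑F)) = Y at *
    generalize e x a = ea at *
    generalize e y (max a D') = B at *
    generalize e y0 (max a D') = B' at *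
    generalize e y D' = C at *
    generalize e y0 D' = C' at *
    rw [div_mul_eq_mul_div, div_le_iff₀ (by positivity)]
    have : κ ^ 5 * ((ea * B) * Y) * C' ≤ C * I * (k * A ^ 4) * C' := by
      calc κ ^ 5 * ((ea * B) * Y) * C' = κ ^ 5 * (ea * Y) * (C' * B) := by ring
        _ ≤ κ ^ 5 * (ea * Y) * (k * (B' * C)) :=
            mul_le_mul_of_nonneg_left r2 (by positivity)
        _ = k * C * (κ ^ 5 * ((ea * B') * Y)) := by ring
        _ ≤ k * C * (A ^ 4 * (C' * I)) := mul_le_mul_of_nonneg_left hl (by positivity)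
        _ = _ := by ring
    exact le_of_mul_le_mul_right this u2
  · have hu := h.upper hJ hXT hxT hy0 hyx ha1 hD1 (fun u hu => by
      have := hmin ⟨u, hu, rfl⟩
      rw [sd_comm]
      exact this) (fun u hu => by
      have := hmax ⟨u, hu, y0, hy0, rfl⟩
      omega)
    rw [← hA] at hu
    generalize Pr P (ES T) (fun F => Cn (insert x X) (↑F)) = I at *
    generalize Pr P (ES T) (fun F => Cn X (↑F)) = Y at *
    generalize e x a = ea at *
    generalize e y (max a D') = B at *
    generalize e y0 (max a D') = B' at *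
    generalize e y D' = C at *
    generalize e y0 D' = C' at *
    rw [div_mul_eq_mul_div, div_le_iff₀ (by positivity)]
    have : κ ^ 5 * (C * I) * B' ≤ (ea * B) * Y * (k * A ^ 4) * B' := by
      calc κ ^ 5 * (C * I) * B' = κ ^ 5 * I * (C * B') := by ring
        _ ≤ κ ^ 5 * I * (k * (B * C')) := mul_le_mul_of_nonneg_left r1 (by positivity)
        _ = k * B * (κ ^ 5 * (C' * I)) := by ring
        _ ≤ k * B * (A ^ 4 * ((ea * B') * Y)) := mul_le_mul_of_nonneg_left hu (by positivity)
        _ = _ := by ring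
    exact le_of_mul_le_mul_right this u4

end Pool.Agent.D0H95.KP
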