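import Pool.Agent.D0H95.KP.Tube
import Pool.Agent.Y989.SD.Main
import Pool.Agent.H160R2.SA.Arm

/-!
Local estimates in a domain covered by windows.
-/

set_option autoImplicit false
set_option maxHeartbeats 1000000
set_option linter.unusedVariables false

namespace Pool.Agent.D0H95.KP
open Finset H974 Pool.Agent.H160R2.CV H362P
open Pool.Agent.H160R2.CV.Quad
open H973 (ES mem_ES BX mem_BX)
open TH976 (sd sd_self sd_comm sd_tri sd_pos fkg incr_and pr_edge EH)
open Pool.Agent.Y989.SD (Win XT HT VT Blk QB mem_QB emb)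

variable {T : Finset Vtx}

/-- every vertex is close to the base of a window -/
def Bas (T : Finset Vtx) (L : ℤ) (B α : ℝ) : Prop :=
  ∀ v ∈ T, ∃ v0 ∈ T, sd v v0 ≤ dd T v + 3 ∧ Win T v0 L B α

theorem mem_BX_sd {c y : Vtx} {n : ℕ} : y ∈ BX c (n : ℤ) ↔ sd y c ≤ n := by
  rw [mem_BX]
  unfold sd
  omega

theorem not_mem_BX_sd {c y : Vtx} {n : ℤ} (hn : 0 ≤ n) (h : n ≤ sd y c) : y ∉ BX c (n - 1) := by
  rw [mem_BX]
  unfold sd at h
  omega

/-- a blocking cluster meets the crossings -/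
theorem ht_meets {F : Finset Edg} (hF : F ⊆ ES T) {v0 : Vtx} {r : ℕ} (hr : 1 ≤ r)
    (h : HT T v0 r (64 * r) F) :
    ∃ z : Vtx, ∀ u w : Vtx, u ∈ T → sd u v0 ≤ r → 64 * r ≤ sd w v0 → Reach (↑F) u w →
      Reach (↑F) u z := by
  obtain ⟨z, -, -, -, hz⟩ := h
  refine ⟨z, fun u w hu h1 h2 h3 => ?_⟩
  have hw : w ∈ T := reach_mem hF hu h3
  refine (Y989.SD.CHN.meets hF hz hu (mem_BX_sd.mpr h1) hw ?_ h3).symm
  refine not_mem_BX_sd (by positivity) ?_
  exact_mod_cast h2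

/-- decoupling -/
theorem dec_loc {L : ℤ} {B α c : ℝ} (hc : 0 < c)
    (hw : ∀ (v : Vtx), Win T v L B α → ∀ r : ℕ, 1 ≤ r → (128 * r : ℤ) ≤ L →
      c ≤ Pr P (ES T) (HT T v r (64 * r))) (hB : Bas T L B α) {v : Vtx} (hv : v ∈ T) {R : ℕ}
    (hR : 1 ≤ R) (hRL : (1000 * R : ℤ) ≤ L) : Dec T 455 v R (min c ((1 / 2 : ℝ) ^ 188)) := by
  rcases Nat.lt_or_ge (3 * R) (dd T v) with h1 | h1
  · refine ⟨CA v R (3 * R), CA_incr _ _ _ _, (min_le_right _ _).trans
      (pr_CA hR (bo_sub_ES h1)), ?_⟩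
    intro F hF hA
    obtain ⟨z, hz⟩ := CA_meet (by omega) hA
    refine ⟨z, fun u w hu h2 h3 h4 => hz u w ?_ ?_ h4⟩
    · rw [← sd_nv]; exact h2
    · rw [← sd_nv]; omega
  · obtain ⟨v0, hv0, h2, h3⟩ := hB v hv
    refine ⟨HT T v0 (7 * R : ℕ) (64 * (7 * R : ℕ)), Y989.SD.CHN.HT_incr _ _ _ _ _,
      (min_le_left _ _).trans (hw v0 h3 (7 * R) (by omega) (by push_cast; omega)), ?_⟩
    intro F hF hA
    obtain ⟨z, hz⟩ := ht_meets hF (by omega) hA
    refine ⟨z, fun u w hu h4 h5 h6 => hz u w hu ?_ ?_ h6⟩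
    · have := sd_tri u v v0
      omega
    · have := sd_tri w v0 v
      have := sd_comm v v0
      omega

/-- the tube above a vertex of a window -/
theorem win_tube {L : ℤ} {B α : ℝ} {v v0 : Vtx} (hW : Win T v0 L B α)
    (h0 : sd v v0 ≤ dd T v + 3) {s : ℕ} (hs : 16 * s ≤ dd T v) (hd : 1 ≤ dd T v)
    (hL : (dd T v + s + 3 : ℤ) ≤ L) (hL2 : (2 * dd T v + 3 + 6007 * (s + 1) : ℤ) ≤ 32 * L) :
    kt ≤ cT T v s (3000 * (s + 1)) := by
  obtain ⟨e, he, h, sl, hlp, -, -, hT⟩ := hW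
  have lip : ∀ (x : ℤ) (k : ℕ), |h (x + k) - h x| ≤ 3 * k ∧ |h (x - k) - h x| ≤ 3 * k := by
    intro x k
    induction k with
    | zero => simp
    | succ k ih =>
      have h1 := abs_le.mp (hlp.lip (x + k))
      have h2 := abs_le.mp (hlp.lip (x - (k + 1)))
      have e2 : x - ((k : ℤ) + 1) + 1 = x - k := by ring
      rw [e2] at h2
      have i1 := abs_le.mp ih.1
      have i2 := abs_le.mp ih.2
      push_cast
      rw [← add_assoc]
      constructor
      · rw [abs_le]; omega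
      · rw [abs_le]; omega
  have lip' : ∀ (x a : ℤ), -(s : ℤ) ≤ a → a ≤ s → h (x + a) ≤ h x + 3 * s := by
    intro x a h1 h2
    rcases le_total 0 a with h3 | h3
    · obtain ⟨k, rfl⟩ := Int.eq_ofNat_of_zero_le h3
      have := abs_le.mp (lip x k).1
      omega
    · obtain ⟨k, hk⟩ := Int.eq_ofNat_of_zero_le (neg_nonneg.mpr h3)
      have e1 : x + a = x - k := by omega
      rw [e1]
      have := abs_le.mp (lip x k).2
      omega
  refine tube (e := e) he ?_
  intro a b a1 a2 b1 b2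
  -- window coordinates of `v`
  obtain ⟨y, hy⟩ : ∃ y : Vtx, y = ((v.1 - v0.1) * e.2 - (v.2 - v0.2) * e.1,
      (v.1 - v0.1) * e.1 + (v.2 - v0.2) * e.2) := ⟨_, rfl⟩
  have hy1 : |y.1| ≤ sd v v0 ∧ |y.2| ≤ sd v v0 := by
    rw [hy]
    unfold sd
    rcases he with rfl | rfl | rfl | rfl <;> simp only [mul_one, mul_zero, mul_neg] <;>
      constructor <;> rw [abs_le] <;> omega
  have q1 := abs_le.mp hy1.1
  have q2 := abs_le.mp hy1.2
  have col : h y.1 ≤ y.2 - (dd T v - 1 : ℕ) := by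
    have m1 : (y.1, y.2 - ((dd T v - 1 : ℕ) : ℤ)) ∈ QB L := by
      rw [mem_QB]
      simp only
      omega
    have m2 := (hT _ m1).mp ?_
    · exact m2
    · have m3 : emb e v0 (y.1, y.2 - ((dd T v - 1 : ℕ) : ℤ)) =
          (v.1 - ((dd T v - 1 : ℕ) : ℤ) * e.1, v.2 - ((dd T v - 1 : ℕ) : ℤ) * e.2) := by
        rw [hy]
        unfold emb
        rcases he with rfl | rfl | rfl | rfl <;> ext <;>
          simp only [mul_one, mul_zero, mul_neg] <;> ring
      rw [m3]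
      apply dd_in (v := v)
      unfold sd
      rcases he with rfl | rfl | rfl | rfl <;> simp only [mul_one, mul_zero, mul_neg] <;> omega
  have m4 : (y.1 + a, y.2 + b) ∈ QB L := by
    rw [mem_QB]
    simp only
    omega
  have m5 := (hT _ m4).mpr ?_
  · have m6 : emb e v0 (y.1 + a, y.2 + b) = (v.1 + a * e.2 + b * e.1, v.2 - a * e.1 + b * e.2) := by
      rw [hy]
      unfold emb
      rcases he with rfl | rfl | rfl | rfl <;> ext <;>
        simp only [mul_one, mul_zero, mul_neg] <;> ring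
    rw [m6] at m5
    exact m5
  · simp only
    have := lip' y.1 a a1 a2
    omega

end Pool.Agent.D0H95.KP
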