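import Pool.Agent.D0H95.KP.Arm

/-!
A macroscopic cluster from a walk through the domain.
-/

set_option autoImplicit false
set_option maxHeartbeats 1000000
set_option linter.unusedVariables false

namespace Pool.Agent.D0H95.KP
open Finset H974 Pool.Agent.H160R2.CV H362P
open Pool.Agent.H160R2.CV.Quad
open H973 (ES mem_ES BX mem_BX)
open TH976 (sd sd_self sd_comm sd_tri sd_pos fkg incr_and pr_edge EH)

variable {T : Finset Vtx}

/-! ### a boundary vertex near a given vertex -/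

theorem step1 (Q : ℤ → Prop) (a b : ℤ) (ha : Q a) (hb : ¬ Q b) :
    ∃ x : ℤ, |x - a| ≤ |b - a| ∧ Q x ∧ (¬ Q (x + 1) ∨ ¬ Q (x - 1)) := by
  rcases le_total a b with h | h
  · obtain ⟨k, hk⟩ := Int.eq_ofNat_of_zero_le (sub_nonneg.mpr h)
    have key : ∀ k : ℕ, ∀ a : ℤ, Q a → ¬ Q (a + k) →
        ∃ x : ℤ, |x - a| ≤ k ∧ Q x ∧ (¬ Q (x + 1) ∨ ¬ Q (x - 1)) := by
      intro k
      induction k with
      | zero => intro a h1 h2; exact absurd h1 (by simpa using h2)
      | succ k ih =>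
        intro a h1 h2
        by_cases h3 : Q (a + 1)
        · obtain ⟨x, h4, h5, h6⟩ := ih (a + 1) h3 (by
            have : a + 1 + (k : ℤ) = a + ((k + 1 : ℕ) : ℤ) := by push_cast; ring
            rw [this]; exact h2)
          refine ⟨x, ?_, h5, h6⟩
          rw [abs_le] at h4 ⊢
          push_cast
          omega
        · exact ⟨a, by simp; positivity, h1, Or.inl h3⟩
    obtain ⟨x, h1, h2, h3⟩ := key k a ha (by
      have : a + (k : ℤ) = b := by omega
      rw [this]; exact hb)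
    refine ⟨x, ?_, h2, h3⟩
    rw [hk, abs_of_nonneg (by positivity : (0 : ℤ) ≤ (k : ℤ))]
    exact h1
  · obtain ⟨k, hk⟩ := Int.eq_ofNat_of_zero_le (sub_nonneg.mpr h)
    have key : ∀ k : ℕ, ∀ a : ℤ, Q a → ¬ Q (a - k) →
        ∃ x : ℤ, |x - a| ≤ k ∧ Q x ∧ (¬ Q (x + 1) ∨ ¬ Q (x - 1)) := by
      intro k
      induction k with
      | zero => intro a h1 h2; exact absurd h1 (by simpa using h2)
      | succ k ih =>
        intro a h1 h2
        by_cases h3 : Q (a - 1)
        · obtain ⟨x, h4, h5, h6⟩ := ih (a - 1) h3 (by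
            have : a - 1 - (k : ℤ) = a - ((k + 1 : ℕ) : ℤ) := by push_cast; ring
            rw [this]; exact h2)
          refine ⟨x, ?_, h5, h6⟩
          rw [abs_le] at h4 ⊢
          push_cast
          omega
        · exact ⟨a, by simp; positivity, h1, Or.inr h3⟩
    obtain ⟨x, h1, h2, h3⟩ := key k a ha (by
      have : a - (k : ℤ) = b := by omega
      rw [this]; exact hb)
    refine ⟨x, ?_, h2, h3⟩
    have h4 : b - a = -(k : ℤ) := by omega
    rw [h4, abs_neg, abs_of_nonneg (by positivity : (0 : ℤ) ≤ (k : ℤ))]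
    exact h1

theorem bt_near {v : Vtx} (hv : v ∈ T) :
    ∃ u : Vtx, Y989.SD.btT T u ∧ sd v u ≤ dd T v := by
  obtain ⟨w, hw, hd⟩ := dd_out T v
  by_cases h1 : ((w.1, v.2) : Vtx) ∈ T
  · obtain ⟨y, h2, h3, h4⟩ := step1 (fun y => ((w.1, y) : Vtx) ∈ T) v.2 w.2 h1 hw
    refine ⟨(w.1, y), ⟨h3, ?_⟩, ?_⟩
    · rcases h4 with h4 | h4
      · exact Or.inr (Or.inr (Or.inl h4))
      · exact Or.inr (Or.inr (Or.inr h4))
    · rw [← hd]
      unfold sd
      simp only
      rw [abs_le] at h2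
      rcases abs_cases (w.2 - v.2) with h5 | h5 <;> omega
  · obtain ⟨x, h2, h3, h4⟩ := step1 (fun x => ((x, v.2) : Vtx) ∈ T) v.1 w.1 hv h1
    refine ⟨(x, v.2), ⟨h3, ?_⟩, ?_⟩
    · rcases h4 with h4 | h4
      · exact Or.inl h4
      · exact Or.inr (Or.inl h4)
    · rw [← hd]
      unfold sd
      simp only
      rw [abs_le] at h2
      rcases abs_cases (w.1 - v.1) with h5 | h5 <;> omega

/-! ### a walk -/

/-- a compact convex set has a walk with small steps which comes close to every point -/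
theorem walk {A : Set ℂ} (hA : IsCompact A) (hconv : Convex ℝ A) (hne : A.Nonempty) {δ : ℝ}
    (hδ : 0 < δ) : ∃ (m : ℕ) (p : ℕ → ℂ), (∀ j, p j ∈ A) ∧ (∀ j, ‖p j - p (j + 1)‖ ≤ δ) ∧
      ∀ z ∈ A, ∃ j < m, ‖z - p j‖ ≤ δ := by
  classical
  obtain ⟨a0, ha0⟩ := hne
  obtain ⟨t, htA, htf, hcov⟩ := hA.finite_cover_balls hδ
  obtain ⟨S, hS⟩ : ∃ S : Finset ℂ, S = htf.toFinset := ⟨_, rfl⟩
  have hmem : ∀ x, x ∈ S ↔ x ∈ t := fun x => by rw [hS, Set.Finite.mem_toFinset]
  obtain ⟨l, hl⟩ : ∃ l : List ℂ, l = S.toList := ⟨_, rfl⟩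
  have hlmem : ∀ x, x ∈ l ↔ x ∈ t := fun x => by rw [hl, Finset.mem_toList, hmem]
  obtain ⟨q, hq⟩ : ∃ q : ℕ → ℂ, q = fun i => l.getD i a0 := ⟨_, rfl⟩
  have hqA : ∀ i, q i ∈ A := by
    intro i
    rw [hq]
    rcases Nat.lt_or_ge i l.length with h | h
    · have : l.getD i a0 = l[i] := by simp [List.getD_eq_getElem, h]
      simp only
      rw [this]
      exact htA ((hlmem _).mp (List.getElem_mem h))
    · have : l.getD i a0 = a0 := by simp [List.getD_eq_default, h]
      simp only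
      rw [this]
      exact ha0
  have hqs : ∀ x ∈ t, ∃ i < l.length, q i = x := by
    intro x hx
    obtain ⟨i, hi, hix⟩ := List.mem_iff_getElem.mp ((hlmem x).mpr hx)
    refine ⟨i, hi, ?_⟩
    rw [hq]
    simp only
    rw [List.getD_eq_getElem _ _ hi]
    exact hix
  obtain ⟨D, hD⟩ := Metric.isBounded_iff.mp hA.isBounded
  have hD' : ∀ x ∈ A, ∀ y ∈ A, ‖x - y‖ ≤ max D 0 := fun x hx y hy => by
    rw [← dist_eq_norm]
    exact (hD hx hy).trans (le_max_left _ _)
  have hD0 : 0 ≤ max D 0 := le_max_right _ _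
  obtain ⟨n, hn⟩ := exists_nat_gt (max D 0 / δ)
  have hn0 : (0 : ℝ) < n := lt_of_le_of_lt (by positivity) hn
  have hn1 : 0 < n := by exact_mod_cast hn0
  have hstep : max D 0 / n ≤ δ := by
    rw [div_lt_iff₀ hδ] at hn
    rw [div_le_iff₀ hn0]
    linarith
  refine ⟨l.length * n, fun j => q (j / n) + (((j % n : ℕ) : ℝ) / n : ℝ) • (q (j / n + 1) - q (j / n)),
    ?_, ?_, ?_⟩
  · intro j
    apply hconv.add_smul_sub_mem (hqA _) (hqA _)
    constructor
    · positivity
    · rw [div_le_one hn0]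
      exact_mod_cast (Nat.mod_lt j hn1).le
  · intro j
    have hdiv : (j + 1) / n = j / n ∧ (j + 1) % n = j % n + 1 ∨
        (j + 1) / n = j / n + 1 ∧ (j + 1) % n = 0 ∧ j % n + 1 = n := by
      have e1 := Nat.div_add_mod j n
      have e2 := Nat.mod_lt j hn1
      rcases Nat.lt_or_ge (j % n + 1) n with h | h
      · left
        have e3 : j + 1 = n * (j / n) + (j % n + 1) := by omega
        constructor
        · rw [e3, Nat.mul_add_div hn1, Nat.div_eq_of_lt h, add_zero]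
        · conv_lhs => rw [e3]
          rw [Nat.mul_add_mod, Nat.mod_eq_of_lt h]
      · right
        have e4 : j % n + 1 = n := by omega
        have e3 : j + 1 = n * (j / n + 1) := by
          rw [Nat.mul_add, mul_one]; omega
        refine ⟨?_, ?_, e4⟩
        · rw [e3, Nat.mul_div_cancel_left _ hn1]
        · rw [e3, Nat.mul_mod_right]
    have hval : (q (j / n) + (((j % n : ℕ) : ℝ) / n : ℝ) • (q (j / n + 1) - q (j / n))) -
        (q ((j + 1) / n) + ((((j + 1) % n : ℕ) : ℝ) / n : ℝ) •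
          (q ((j + 1) / n + 1) - q ((j + 1) / n))) = -((1 / n : ℝ) • (q (j / n + 1) - q (j / n))) := by
      rcases hdiv with ⟨h1, h2⟩ | ⟨h1, h2, h3⟩
      · rw [h1, h2]
        push_cast
        rw [add_div, add_smul]
        abel
      · rw [h1, h2]
        have h4 : ((j % n : ℕ) : ℝ) = n - 1 := by
          have : ((j % n + 1 : ℕ) : ℝ) = n := by rw [h3]
          push_cast at this
          linarith
        rw [h4, Nat.cast_zero, zero_div, zero_smul, add_zero, sub_div, div_self hn0.ne', sub_smul,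
          one_smul]
        abel
    show ‖_‖ ≤ δ
    rw [hval, norm_neg, norm_smul, Real.norm_of_nonneg (by positivity)]
    calc 1 / (n : ℝ) * ‖q (j / n + 1) - q (j / n)‖ ≤ 1 / (n : ℝ) * max D 0 :=
          mul_le_mul_of_nonneg_left (hD' _ (hqA _) _ (hqA _)) (by positivity)
      _ = max D 0 / n := by ring
      _ ≤ δ := hstep
  · intro z hz
    obtain ⟨x, hx, hzx⟩ := Set.mem_iUnion₂.mp (hcov hz)
    obtain ⟨i, hi, hix⟩ := hqs x hx
    refine ⟨i * n, (Nat.mul_lt_mul_right hn1).mpr hi, ?_⟩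
    show ‖z - (q (i * n / n) + (((i * n % n : ℕ) : ℝ) / n : ℝ) • _)‖ ≤ δ
    rw [Nat.mul_mod_left, Nat.cast_zero, zero_div, zero_smul, add_zero, Nat.mul_div_cancel _ hn1,
      hix, ← dist_eq_norm]
    exact (Metric.mem_ball.mp hzx).le

/-! ### the macroscopic cluster -/

theorem net_of_walk {K s m : ℕ} {κ κ' : ℝ} (hK : 3 ≤ K) (hs : 4 ≤ s) (hκ : 0 ≤ κ) (hκ' : 0 ≤ κ')
    (c : ℕ → Vtx) (hc : ∀ j, c j ∈ T) (hstep : ∀ j, 4 * sd (c j) (c (j + 1)) ≤ s)
    (hcov : ∀ u ∈ T, ∃ j < m, sd u (c j) ≤ s) (hD : ∀ j, Dec T K (c j) s κ)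
    (hX : ∀ j, κ' ≤ cT T (c j) (s / 2) (2 * K * s)) : Net T (2 * K * s) ((κ * κ') ^ m) := by
  choose D hD1 hD2 hD3 using hD
  refine ⟨fun F => ∀ j < m, D j F ∧ Cx T (c j) (s / 2) (2 * K * s) F, ?_, ?_, ?_⟩
  · intro F G hFG hG hF j hj
    exact ⟨hD1 j F G hFG hG (hF j hj).1, Cx_incr (ES T) (c j) (s / 2) (2 * K * s) F G hFG hG
      (hF j hj).2⟩
  · apply Y989.SD.CHN.harris_fin okP (fun j F => D j F ∧ Cx T (c j) (s / 2) (2 * K * s) F)
      (fun j => incr_and (hD1 j) (Cx_incr _ _ _ _)) (mul_nonneg hκ hκ') m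
    intro j _
    exact fkg (hD1 j) (Cx_incr _ _ _ _) hκ' (hD2 j) (hX j)
  · intro F hF hA
    have hz : ∀ j < m, ∃ z : Vtx, ∀ u v : Vtx, u ∈ T → sd u (c j) ≤ s → K * s ≤ sd v (c j) →
        Reach (↑F) u v → Reach (↑F) u z := fun j hj => hD3 j F hF (hA j hj).1
    rcases Nat.eq_zero_or_pos m with h0 | h0
    · refine ⟨(0, 0), fun u v hu => ?_⟩
      obtain ⟨j, hj, -⟩ := hcov u hu
      omega
    · obtain ⟨z, hz0⟩ := hz 0 h0
      have hall : ∀ j < m, ∀ u v : Vtx, u ∈ T → sd u (c j) ≤ s → K * s ≤ sd v (c j) →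
          Reach (↑F) u v → Reach (↑F) u z := by
        intro j
        induction j with
        | zero => exact fun _ => hz0
        | succ j ih =>
          intro hj u v hu h1 h2 h3
          have hj' : j < m := by omega
          obtain ⟨z', hz'⟩ := hz (j + 1) hj
          obtain ⟨u', w', k0, k1, k2, k3⟩ := (hA j hj').2
          have hst := hstep j
          have hKs : 3 * s ≤ K * s := Nat.mul_le_mul_right _ hK
          have e1 : 2 * K * s = K * s + K * s := by ring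
          have t1 := sd_tri u' (c j) (c (j + 1))
          have t2 := sd_tri w' (c (j + 1)) (c j)
          have t3 := sd_comm (c j) (c (j + 1))
          have m1 := ih hj' u' w' k0 (by omega) (by omega) k3
          have m2 := hz' u' w' k0 (by omega) (by omega) k3
          exact (hz' u v hu h1 h2 h3).trans (m2.symm.trans m1)
      refine ⟨z, fun u v hu h1 h2 => ?_⟩
      obtain ⟨j, hj, h3⟩ := hcov u hu
      have t1 := sd_tri u (c j) v
      have t2 := sd_comm (c j) v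
      have hKs : 3 * s ≤ K * s := Nat.mul_le_mul_right _ hK
      have e1 : 2 * K * s = K * s + K * s := by ring
      exact hall j hj u v hu h3 (by omega) h2

/-- crossings from the one-arm estimates -/
theorem cx_of_arm {κ : ℝ} (hκ : 0 < κ) {v : Vtx} (hv : v ∈ T) {s K J : ℕ} (hs : 2 ≤ s)
    (hK : 1 ≤ K) (hJ : 6 * K ≤ 3 ^ J)
    (ha : ∀ n : ℕ, 1 ≤ n → n ≤ 2 * K * s →
      κ * eT T v n ≤ aT T v n ∧ κ * aT T v n ≤ eT T v n) :
    κ ^ 2 * (1 / 3 : ℝ) ^ (J + 1) ≤ cT T v (s / 2) (2 * K * s) := by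
  have hle : s / 2 ≤ 2 * K * s := by
    have : 1 * s ≤ K * s := Nat.mul_le_mul_right _ hK
    have e1 : 2 * K * s = 2 * (K * s) := by ring
    omega
  have h1 := aT_split (T := T) hv hle
  have hn1 : 1 ≤ 2 * K * s := by
    have := Nat.mul_pos (show 0 < K by omega) (show 0 < s by omega)
    have e1 : 2 * K * s = 2 * (K * s) := by ring
    omega
  have a1 := (ha (2 * K * s) hn1 le_rfl).1
  have a2 := (ha (s / 2) (by omega) hle).2
  have e1 := eT_pos hv (show 1 ≤ s / 2 by omega)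
  have e2 := eT_pos hv hn1
  have hr := reg_eT T
  have dbl : ∀ j : ℕ, eT T v (s / 2) ≤ 3 ^ j * eT T v (3 ^ j * (s / 2)) := by
    intro j
    induction j with
    | zero => simp
    | succ j ih =>
      have h2 := hr.dbl v (Finset.mem_coe.mpr hv) (3 ^ j * (s / 2))
        (Nat.one_le_iff_ne_zero.mpr (by
          have : 0 < 3 ^ j * (s / 2) := by
            have : 0 < s / 2 := by omega
            positivity
          omega))
      calc eT T v (s / 2) ≤ 3 ^ j * eT T v (3 ^ j * (s / 2)) := ih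
        _ ≤ 3 ^ j * (3 * eT T v (3 * (3 ^ j * (s / 2)))) :=
            mul_le_mul_of_nonneg_left h2 (by positivity)
        _ = 3 ^ (j + 1) * eT T v (3 ^ (j + 1) * (s / 2)) := by
            have : 3 * (3 ^ j * (s / 2)) = 3 ^ (j + 1) * (s / 2) := by ring
            rw [this]; ring
  have h3 : eT T v (3 ^ J * (s / 2)) ≤ 3 * eT T v (2 * K * s) := by
    apply hr.anti v (Finset.mem_coe.mpr hv) (2 * K * s) (3 ^ J * (s / 2)) hn1
    calc 2 * K * s ≤ 2 * K * (3 * (s / 2)) := Nat.mul_le_mul_left _ (by omega)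
      _ = 6 * K * (s / 2) := by ring
      _ ≤ _ := Nat.mul_le_mul_right _ hJ
  have h4 : eT T v (s / 2) ≤ 3 ^ (J + 1) * eT T v (2 * K * s) := by
    calc eT T v (s / 2) ≤ 3 ^ J * eT T v (3 ^ J * (s / 2)) := dbl J
      _ ≤ 3 ^ J * (3 * eT T v (2 * K * s)) := mul_le_mul_of_nonneg_left h3 (by positivity)
      _ = _ := by ring
  have hc := cT_nonneg (T := T) v (s / 2) (2 * K * s)
  -- `κ² e(2Ks) ≤ e(s/2) cT`
  have h5 : κ ^ 2 * eT T v (2 * K * s) ≤ eT T v (s / 2) * cT T v (s / 2) (2 * K * s) := by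
    calc κ ^ 2 * eT T v (2 * K * s) = κ * (κ * eT T v (2 * K * s)) := by ring
      _ ≤ κ * (aT T v (s / 2) * cT T v (s / 2) (2 * K * s)) :=
          mul_le_mul_of_nonneg_left (a1.trans h1) hκ.le
      _ = (κ * aT T v (s / 2)) * cT T v (s / 2) (2 * K * s) := by ring
      _ ≤ _ := mul_le_mul_of_nonneg_right a2 hc
  have h6 : κ ^ 2 * eT T v (2 * K * s) ≤
      (3 ^ (J + 1) * cT T v (s / 2) (2 * K * s)) * eT T v (2 * K * s) := by
    refine h5.trans ?_
    calc eT T v (s / 2) * cT T v (s / 2) (2 * K * s) ≤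
        (3 ^ (J + 1) * eT T v (2 * K * s)) * cT T v (s / 2) (2 * K * s) :=
          mul_le_mul_of_nonneg_right h4 hc
      _ = _ := by ring
  have h7 := le_of_mul_le_mul_right h6 e2
  calc κ ^ 2 * (1 / 3 : ℝ) ^ (J + 1) ≤
      (3 ^ (J + 1) * cT T v (s / 2) (2 * K * s)) * (1 / 3 : ℝ) ^ (J + 1) :=
        mul_le_mul_of_nonneg_right h7 (by positivity)
    _ = (3 * (1 / 3 : ℝ)) ^ (J + 1) * cT T v (s / 2) (2 * K * s) := by rw [mul_pow]; ring
    _ = _ := by norm_num

end Pool.Agent.D0H95.KP
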