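import Pool.Agent.D0H95.KP.Good

/-!
The distance to the complement of a finite domain, and the profile
`n ^ (-5/48) * min 1 (d / n) ^ (11/48)`.
-/

set_option autoImplicit false
set_option maxHeartbeats 400000
set_option linter.unusedVariables false

namespace Pool.Agent.D0H95.KP
open Finset H974 Pool.Agent.H160R2.CV H362P
open Pool.Agent.H160R2.CV.Quad
open H973 (ES mem_ES)
open TH976 (sd sd_self sd_comm sd_tri sd_pos EH EH_pos Reg)

theorem exists_out (T : Finset Vtx) (v : Vtx) : ∃ n : ℕ, ∃ w : Vtx, w ∉ T ∧ sd v w = n := by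
  obtain ⟨w, hw⟩ : ∃ w : Vtx, w ∉ T := Infinite.exists_notMem_finset T
  exact ⟨sd v w, w, hw, rfl⟩

open Classical in
/-- distance to the complement of `T` -/
noncomputable def dd (T : Finset Vtx) (v : Vtx) : ℕ := Nat.find (exists_out T v)

theorem dd_out (T : Finset Vtx) (v : Vtx) : ∃ w : Vtx, w ∉ T ∧ sd v w = dd T v := by
  classical
  exact Nat.find_spec (exists_out T v)

theorem dd_in {T : Finset Vtx} {v w : Vtx} (h : sd v w < dd T v) : w ∈ T := by
  classical
  by_contra hw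
  exact Nat.find_min (exists_out T v) h ⟨w, hw, rfl⟩

theorem dd_le {T : Finset Vtx} {v w : Vtx} (h : w ∉ T) : dd T v ≤ sd v w := by
  by_contra h1
  exact h (dd_in (not_le.mp h1))

theorem dd_lip (T : Finset Vtx) (u v : Vtx) : dd T u ≤ dd T v + sd u v := by
  obtain ⟨w, hw, h⟩ := dd_out T v
  have h1 := dd_le (v := u) hw
  have h2 := sd_tri u v w
  omega

theorem dd_pos {T : Finset Vtx} {v : Vtx} (h : v ∈ T) : 1 ≤ dd T v := by
  obtain ⟨w, hw, h1⟩ := dd_out T v
  have h2 : v ≠ w := by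
    rintro rfl
    exact hw h
  have := sd_pos h2
  omega

theorem bo_sub_ES {T : Finset Vtx} {v : Vtx} {n : ℕ} (h : n < dd T v) : bo v n ⊆ ES T := by
  intro e he
  have h1 := bo_ends he
  rw [← sd_nv, ← sd_nv] at h1
  rw [mem_ES]
  have a1 := sd_comm v (src e)
  have a2 := sd_comm v (tgt e)
  exact ⟨dd_in (v := v) (by omega), dd_in (v := v) (by omega)⟩

/-- the profile of the domain -/
noncomputable def eT (T : Finset Vtx) (v : Vtx) (n : ℕ) : ℝ := EH (dd T v) n

theorem eT_pos {T : Finset Vtx} {v : Vtx} (hv : v ∈ T) {n : ℕ} (hn : 1 ≤ n) : 0 < eT T v n := by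
  have h1 : (0 : ℝ) < dd T v := by exact_mod_cast dd_pos hv
  have h2 : (0 : ℝ) < n := by exact_mod_cast hn
  exact EH_pos h2 h1

theorem eT_one {T : Finset Vtx} {v : Vtx} (hv : v ∈ T) : eT T v 1 = 1 := by
  have h1 : (1 : ℝ) ≤ dd T v := by exact_mod_cast dd_pos hv
  unfold eT EH
  rw [Nat.cast_one, div_one, min_eq_left h1, Real.one_rpow, Real.one_rpow, mul_one]

theorem min_rat {r n su sv : ℝ} (hr : 0 < r) (hn : 0 < n) (hrn : r ≤ n) (h1 : 0 < su)
    (h2 : 0 < sv) (h : sv ≤ su + r) :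
    min 1 (su / r) * min 1 (sv / n) ≤ 2 * (min 1 (su / n) * min 1 (sv / r)) := by
  have e : ∀ s m : ℝ, 0 < m → min 1 (s / m) = min m s / m := by
    intro s m hm
    rw [← div_self hm.ne', min_div_div_right hm.le]
  rw [e su r hr, e sv n hn, e su n hn, e sv r hr, div_mul_div_comm, div_mul_div_comm,
    mul_comm n r, ← mul_div_assoc]
  apply div_le_div_of_nonneg_right _ (by positivity)
  rcases le_or_gt sv r with hc | hc
  · have a1 : min r sv = sv := min_eq_right hc
    have a2 : min n sv = sv := min_eq_right (hc.trans hrn)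
    have a3 : min r su ≤ min n su := min_le_min_right _ hrn
    have a4 : 0 < min n su := lt_min hn h1
    rw [a1, a2]
    nlinarith [mul_pos a4 h2]
  · have a1 : min r sv = r := min_eq_left hc.le
    have a3 : min n sv ≤ min n su + r := by
      rcases le_total n su with h3 | h3
      · rw [min_eq_left h3]
        have := min_le_left n sv
        linarith
      · rw [min_eq_right h3]
        have := min_le_right n sv
        linarith
    have a4 : min r su ≤ r := min_le_left _ _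
    have a5 : min r su ≤ min n su := min_le_min_right _ hrn
    have a6 : 0 < min r su := lt_min hr h1
    have a7 : 0 < min n su := lt_min hn h1
    rw [a1]
    calc min r su * min n sv ≤ min r su * (min n su + r) :=
          mul_le_mul_of_nonneg_left a3 a6.le
      _ = min r su * min n su + min r su * r := by ring
      _ ≤ r * min n su + min n su * r := by
          apply add_le_add
          · exact mul_le_mul_of_nonneg_right a4 a7.le
          · exact mul_le_mul_of_nonneg_right a5 hr.le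
      _ = _ := by ring

/-- the profile is regular -/
theorem reg_eT (T : Finset Vtx) : Reg (↑T : Set Vtx) (eT T) 3 := by
  refine ⟨by norm_num, fun v hv n hn => eT_pos (Finset.mem_coe.mp hv) hn, ?_, ?_, ?_⟩
  · intro v hv n m hn hnm
    have p := eT_pos (Finset.mem_coe.mp hv) hn
    have h1 : eT T v m ≤ eT T v n := by
      unfold eT EH
      have n0 : (0 : ℝ) < n := by exact_mod_cast hn
      have nm : (n : ℝ) ≤ m := by exact_mod_cast hnm
      have m0 : (0 : ℝ) < m := by linarith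
      have d0 : (0 : ℝ) < dd T v := by exact_mod_cast dd_pos (Finset.mem_coe.mp hv)
      apply mul_le_mul _ _ (by positivity) (by positivity)
      · exact Real.rpow_le_rpow_of_nonpos n0 nm (by norm_num)
      · apply Real.rpow_le_rpow (by positivity) _ (by norm_num)
        exact min_le_min_left _ (div_le_div_of_nonneg_left d0.le n0 nm)
    linarith
  · intro v hv n hn
    have n0 : (0 : ℝ) < n := by exact_mod_cast hn
    have d0 : (0 : ℝ) < dd T v := by exact_mod_cast dd_pos (Finset.mem_coe.mp hv)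
    unfold eT EH
    push_cast
    have h1 : (3 : ℝ)⁻¹ * min 1 ((dd T v : ℝ) / n) ≤ min 1 ((dd T v : ℝ) / (3 * n)) := by
      apply le_min
      · have := min_le_left (1 : ℝ) ((dd T v : ℝ) / n)
        linarith [min_le_left (1 : ℝ) ((dd T v : ℝ) / n),
          (lt_min one_pos (div_pos d0 n0) : 0 < min (1 : ℝ) ((dd T v : ℝ) / n))]
      · calc (3 : ℝ)⁻¹ * min 1 ((dd T v : ℝ) / n) ≤ (3 : ℝ)⁻¹ * ((dd T v : ℝ) / n) :=
              mul_le_mul_of_nonneg_left (min_le_right _ _) (by norm_num)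
          _ = _ := by field_simp
    have h2 : (3 : ℝ) ^ (-(11 / 48 : ℝ)) * (min 1 ((dd T v : ℝ) / n)) ^ (11 / 48 : ℝ) ≤
        (min 1 ((dd T v : ℝ) / (3 * n))) ^ (11 / 48 : ℝ) := by
      rw [Real.rpow_neg (by norm_num), ← Real.inv_rpow (by norm_num),
        ← Real.mul_rpow (by norm_num) (by positivity)]
      exact Real.rpow_le_rpow (by positivity) h1 (by norm_num)
    have h3 : (3 * (n : ℝ)) ^ (-(5 / 48 : ℝ)) = (3 : ℝ) ^ (-(5 / 48 : ℝ)) *
        (n : ℝ) ^ (-(5 / 48 : ℝ)) := Real.mul_rpow (by norm_num) n0.le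
    rw [h3]
    have h4 : (3 : ℝ) * ((3 : ℝ) ^ (-(5 / 48 : ℝ)) * (3 : ℝ) ^ (-(11 / 48 : ℝ))) ≥ 1 := by
      rw [← Real.rpow_add (by norm_num)]
      have : (3 : ℝ) * (3 : ℝ) ^ (-(5 / 48 : ℝ) + -(11 / 48 : ℝ)) =
          (3 : ℝ) ^ (1 + (-(5 / 48 : ℝ) + -(11 / 48 : ℝ))) := by
        rw [Real.rpow_add (by norm_num) 1, Real.rpow_one]
      rw [this]
      apply Real.one_le_rpow (by norm_num) (by norm_num)
    have p1 : 0 < (n : ℝ) ^ (-(5 / 48 : ℝ)) := by positivity
    have p2 : 0 ≤ (min 1 ((dd T v : ℝ) / n)) ^ (11 / 48 : ℝ) := by positivity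
    calc (n : ℝ) ^ (-(5 / 48 : ℝ)) * (min 1 ((dd T v : ℝ) / n)) ^ (11 / 48 : ℝ)
        ≤ (3 * ((3 : ℝ) ^ (-(5 / 48 : ℝ)) * (3 : ℝ) ^ (-(11 / 48 : ℝ)))) *
          ((n : ℝ) ^ (-(5 / 48 : ℝ)) * (min 1 ((dd T v : ℝ) / n)) ^ (11 / 48 : ℝ)) := by
          have := mul_nonneg p1.le p2
          nlinarith
      _ = 3 * (((3 : ℝ) ^ (-(5 / 48 : ℝ)) * (n : ℝ) ^ (-(5 / 48 : ℝ))) *
          ((3 : ℝ) ^ (-(11 / 48 : ℝ)) * (min 1 ((dd T v : ℝ) / n)) ^ (11 / 48 : ℝ))) := by ring
      _ ≤ _ := by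
          apply mul_le_mul_of_nonneg_left _ (by norm_num)
          exact mul_le_mul_of_nonneg_left h2 (by positivity)
  · intro u hu v hv r n huv hr hrn
    have r0 : (0 : ℝ) < r := by exact_mod_cast hr
    have rn : (r : ℝ) ≤ n := by exact_mod_cast hrn
    have n0 : (0 : ℝ) < n := by linarith
    have du : (0 : ℝ) < dd T u := by exact_mod_cast dd_pos (Finset.mem_coe.mp hu)
    have dv : (0 : ℝ) < dd T v := by exact_mod_cast dd_pos (Finset.mem_coe.mp hv)
    have hl : (dd T v : ℝ) ≤ dd T u + r := by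
      have h1 := dd_lip T v u
      have h2 := sd_comm u v
      have : dd T v ≤ dd T u + r := by omega
      exact_mod_cast this
    have key := min_rat r0 n0 rn du dv hl
    unfold eT EH
    have h1 : (min 1 ((dd T u : ℝ) / r)) ^ (11 / 48 : ℝ) * (min 1 ((dd T v : ℝ) / n)) ^ (11 / 48 : ℝ)
        ≤ 3 * ((min 1 ((dd T u : ℝ) / n)) ^ (11 / 48 : ℝ) *
          (min 1 ((dd T v : ℝ) / r)) ^ (11 / 48 : ℝ)) := by
      rw [← Real.mul_rpow (by positivity) (by positivity),
        ← Real.mul_rpow (by positivity) (by positivity)]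
      calc (min 1 ((dd T u : ℝ) / r) * min 1 ((dd T v : ℝ) / n)) ^ (11 / 48 : ℝ)
          ≤ (2 * (min 1 ((dd T u : ℝ) / n) * min 1 ((dd T v : ℝ) / r))) ^ (11 / 48 : ℝ) :=
            Real.rpow_le_rpow (by positivity) key (by norm_num)
        _ = (2 : ℝ) ^ (11 / 48 : ℝ) *
            (min 1 ((dd T u : ℝ) / n) * min 1 ((dd T v : ℝ) / r)) ^ (11 / 48 : ℝ) :=
            Real.mul_rpow (by norm_num) (by positivity)
        _ ≤ _ := by
            apply mul_le_mul_of_nonneg_right _ (by positivity)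
            calc (2 : ℝ) ^ (11 / 48 : ℝ) ≤ (2 : ℝ) ^ (1 : ℝ) :=
                  Real.rpow_le_rpow_of_exponent_le (by norm_num) (by norm_num)
              _ ≤ 3 := by rw [Real.rpow_one]; norm_num
    have p1 : 0 < (r : ℝ) ^ (-(5 / 48 : ℝ)) := by positivity
    have p2 : 0 < (n : ℝ) ^ (-(5 / 48 : ℝ)) := by positivity
    calc _ = ((r : ℝ) ^ (-(5 / 48 : ℝ)) * (n : ℝ) ^ (-(5 / 48 : ℝ))) *
          ((min 1 ((dd T u : ℝ) / r)) ^ (11 / 48 : ℝ) *
            (min 1 ((dd T v : ℝ) / n)) ^ (11 / 48 : ℝ)) := by ring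
      _ ≤ ((r : ℝ) ^ (-(5 / 48 : ℝ)) * (n : ℝ) ^ (-(5 / 48 : ℝ))) *
          (3 * ((min 1 ((dd T u : ℝ) / n)) ^ (11 / 48 : ℝ) *
          (min 1 ((dd T v : ℝ) / r)) ^ (11 / 48 : ℝ))) :=
          mul_le_mul_of_nonneg_left h1 (by positivity)
      _ = _ := by ring

end Pool.Agent.D0H95.KP
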