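import Pool.Agent.D0H95.KP.Prof

/-!
Crossings of long tubes.
-/

set_option autoImplicit false
set_option maxHeartbeats 1000000
set_option linter.unusedVariables false

namespace Pool.Agent.D0H95.KP
open Finset H974 Pool.Agent.H160R2.CV H362P
open Pool.Agent.H160R2.CV.Quad
open H973 (ES mem_ES)
open TH976 (sd sd_self sd_comm sd_tri sd_pos fkg incr_and pr_edge)

variable {T : Finset Vtx}

theorem RE_sub_ES {a b c d : ℤ} (h : ∀ x y : ℤ, a ≤ x → x ≤ b → c ≤ y → y ≤ d → (x, y) ∈ T) :
    RE a b c d ⊆ ES T := by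
  rintro ⟨x, y, _ | _⟩ he
  · rw [mem_RE_false] at he
    rw [mem_ES, src, tgt_false]
    exact ⟨h x y (by omega) (by omega) (by omega) (by omega),
      h x (y + 1) (by omega) (by omega) (by omega) (by omega)⟩
  · rw [mem_RE_true] at he
    rw [mem_ES, src, tgt_true]
    exact ⟨h x y (by omega) (by omega) (by omega) (by omega),
      h (x + 1) y (by omega) (by omega) (by omega) (by omega)⟩

theorem reach_incr (S : Finset Edg) (u v : Vtx) : IncrE S (fun F => Reach (↑F) u v) :=
  fun _ _ h _ hF => hF.mono (by exact_mod_cast h)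

/-- a deterministic path -/
theorem chain (S : Finset Edg) (p : ℕ → Vtx) (n : ℕ)
    (h : ∀ i < n, ∃ e ∈ S, (src e = p i ∧ tgt e = p (i + 1)) ∨ (src e = p (i + 1) ∧ tgt e = p i)) :
    (1 / 2 : ℝ) ^ n ≤ Pr P S (fun F => Reach (↑F) (p 0) (p n)) := by
  induction n with
  | zero =>
    rw [Pr_true S (fun F _ => Reach.refl _ _)]
    norm_num
  | succ n ih =>
    have h1 := ih (fun i hi => h i (hi.trans (Nat.lt_succ_self n)))
    obtain ⟨e, he, hc⟩ := h n (Nat.lt_succ_self n)
    have h2 := fkg (S := S) (A := fun F => Reach (↑F) (p 0) (p n)) (B := fun F => e ∈ F)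
      (reach_incr S _ _) (fun F G h _ hF => h hF) (by norm_num) h1 (pr_edge he).ge
    rw [pow_succ]
    refine h2.trans (Pr_mono okP ?_)
    rintro F _ ⟨h3, h4⟩
    refine h3.trans ?_
    rcases hc with ⟨k1, k2⟩ | ⟨k1, k2⟩
    · exact Adj.reach ⟨e, Finset.mem_coe.mpr h4, Or.inl ⟨k1, k2⟩⟩
    · exact (Adj.reach (F := (↑F : Set Edg)) ⟨e, Finset.mem_coe.mpr h4, Or.inl ⟨k1, k2⟩⟩).symm

/-- one of the four directions -/
def Dir (e : Vtx) : Prop := e = (0, 1) ∨ e = (1, 0) ∨ e = (0, -1) ∨ e = (-1, 0)

/-- the tube constant -/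
noncomputable def kt : ℝ := (1 / 2 : ℝ) ^ 60000

theorem kt_pos : 0 < kt := by unfold kt; positivity

theorem kt_le : kt ≤ 1 := by
  unfold kt
  exact pow_le_one₀ (by norm_num) (by norm_num)

/-- a tube is crossed with positive probability -/
theorem tube {e v : Vtx} (he : Dir e) {s : ℕ}
    (h : ∀ a b : ℤ, -(s : ℤ) ≤ a → a ≤ s → -(s : ℤ) ≤ b → b ≤ 6007 * (s + 1) →
      ((v.1 + a * e.2 + b * e.1, v.2 - a * e.1 + b * e.2) : Vtx) ∈ T) :
    kt ≤ cT T v s (3000 * (s + 1)) := by
  have hv : v ∈ T := by
    have := h 0 0 (by omega) (by omega) (by omega) (by omega)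
    simpa using this
  rcases Nat.eq_zero_or_pos s with hs | hs
  · subst hs
    have h1 := chain (ES T) (fun i : ℕ => ((v.1 + (i : ℤ) * e.1, v.2 + (i : ℤ) * e.2) : Vtx)) 3000 ?_
    · have h2 : (1 / 2 : ℝ) ^ 60000 ≤ (1 / 2 : ℝ) ^ 3000 :=
        pow_le_pow_of_le_one (by norm_num) (by norm_num) (by norm_num)
      unfold kt
      refine (h2.trans h1).trans ?_
      apply Pr_mono okP
      intro F _ hF
      refine ⟨v, (v.1 + ((3000 : ℕ) : ℤ) * e.1, v.2 + ((3000 : ℕ) : ℤ) * e.2), hv,
        by rw [sd_self], ?_, ?_⟩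
      · rcases he with rfl | rfl | rfl | rfl <;> unfold sd <;> simp only <;> omega
      · have : ((v.1 + ((0 : ℕ) : ℤ) * e.1, v.2 + ((0 : ℕ) : ℤ) * e.2) : Vtx) = v := by simp
        rw [this] at hF
        exact hF
    · intro i hi
      have m1 := h 0 i (by omega) (by omega) (by omega) (by omega)
      have m2 := h 0 (i + 1) (by omega) (by omega) (by omega) (by omega)
      rcases he with rfl | rfl | rfl | rfl
      · refine ⟨(v.1, v.2 + i, false), ?_, Or.inl ⟨?_, ?_⟩⟩
        · rw [mem_ES, src, tgt_false]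
          simp only [zero_mul, mul_zero, add_zero, mul_one, sub_zero, add_assoc] at m1 m2 ⊢
          exact ⟨m1, m2⟩
        · rw [src]; ext <;> simp
        · rw [tgt_false]; ext <;> simp [add_assoc]
      · refine ⟨(v.1 + i, v.2, true), ?_, Or.inl ⟨?_, ?_⟩⟩
        · rw [mem_ES, src, tgt_true]
          simp only [zero_mul, mul_zero, add_zero, mul_one, sub_zero, add_assoc] at m1 m2 ⊢
          exact ⟨m1, m2⟩
        · rw [src]; ext <;> simp
        · rw [tgt_true]; ext <;> simp [add_assoc]
      · refine ⟨(v.1, v.2 - (i + 1), false), ?_, Or.inr ⟨?_, ?_⟩⟩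
        · rw [mem_ES, src, tgt_false]
          constructor
          · convert m2 using 2 <;> ring
          · convert m1 using 2 <;> ring
        · rw [src]; ext
          · simp
          · simp; ring
        · rw [tgt_false]; ext
          · simp
          · simp; ring
      · refine ⟨(v.1 - (i + 1), v.2, true), ?_, Or.inr ⟨?_, ?_⟩⟩
        · rw [mem_ES, src, tgt_true]
          constructor
          · convert m2 using 2 <;> ring
          · convert m1 using 2 <;> ring
        · rw [src]; ext
          · simp; ring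
          · simp
        · rw [tgt_true]; ext
          · simp; ring
          · simp
  · have hs' : (0 : ℤ) < s := by exact_mod_cast hs
    have hl := H973.hh_long 1000 hs'
    have e1 : (8 + 6 * ((1000 : ℕ) : ℤ)) * (s : ℤ) = 6008 * s := by push_cast; ring
    rw [e1] at hl
    have hk : kt ≤ (1 / 2 : ℝ) ^ (48 * (1000 + 1)) := by
      unfold kt
      exact pow_le_pow_of_le_one (by norm_num) (by norm_num) (by norm_num)
    refine (hk.trans hl).trans ?_
    rcases he with rfl | rfl | rfl | rfl
    · have hS : RE (v.1 - s) (v.1 + s) (v.2 - s) (v.2 + 6007 * s) ⊆ ES T := by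
        apply RE_sub_ES
        intro x y h1 h2 h3 h4
        have := h (x - v.1) (y - v.2) (by omega) (by omega) (by omega) (by omega)
        convert this using 2 <;> ring
      have h1 := pr_TBc (1 / 2) (TBE_subset_RE.trans hS)
      have e2 : v.2 + 6007 * (s : ℤ) - (v.2 - s) = 6008 * s := by ring
      have e3 : v.1 + (s : ℤ) - (v.1 - s) = 2 * s := by ring
      rw [e2, e3] at h1
      rw [← h1]
      apply Pr_mono okP
      rintro F _ ⟨x, x', hx, hx', hr⟩
      refine ⟨(x, v.2 - s), (x', v.2 + 6007 * s), ?_, ?_, ?_, hr.mono Set.inter_subset_left⟩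
      · have := h (x - v.1) (-s) (by omega) (by omega) (by omega) (by omega)
        convert this using 2 <;> ring
      · unfold sd; simp only; omega
      · unfold sd; simp only; omega
    · have hS : RE (v.1 - s) (v.1 + 6007 * s) (v.2 - s) (v.2 + s) ⊆ ES T := by
        apply RE_sub_ES
        intro x y h1 h2 h3 h4
        have := h (v.2 - y) (x - v.1) (by omega) (by omega) (by omega) (by omega)
        convert this using 2 <;> ring
      have h1 := pr_LRc (1 / 2) (LRE_subset_RE.trans hS)
      have e2 : v.1 + 6007 * (s : ℤ) - (v.1 - s) = 6008 * s := by ring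
      have e3 : v.2 + (s : ℤ) - (v.2 - s) = 2 * s := by ring
      rw [e2, e3] at h1
      rw [← h1]
      apply Pr_mono okP
      rintro F _ ⟨y, y', hy, hy', hr⟩
      refine ⟨(v.1 - s, y), (v.1 + 6007 * s, y'), ?_, ?_, ?_, hr.mono Set.inter_subset_left⟩
      · have := h (v.2 - y) (-s) (by omega) (by omega) (by omega) (by omega)
        convert this using 2 <;> ring
      · unfold sd; simp only; omega
      · unfold sd; simp only; omega
    · have hS : RE (v.1 - s) (v.1 + s) (v.2 - 6007 * s) (v.2 + s) ⊆ ES T := by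
        apply RE_sub_ES
        intro x y h1 h2 h3 h4
        have := h (v.1 - x) (v.2 - y) (by omega) (by omega) (by omega) (by omega)
        convert this using 2 <;> ring
      have h1 := pr_TBc (1 / 2) (TBE_subset_RE.trans hS)
      have e2 : v.2 + (s : ℤ) - (v.2 - 6007 * s) = 6008 * s := by ring
      have e3 : v.1 + (s : ℤ) - (v.1 - s) = 2 * s := by ring
      rw [e2, e3] at h1
      rw [← h1]
      apply Pr_mono okP
      rintro F _ ⟨x, x', hx, hx', hr⟩
      refine ⟨(x', v.2 + s), (x, v.2 - 6007 * s), ?_, ?_, ?_,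
        (hr.mono Set.inter_subset_left).symm⟩
      · have := h (v.1 - x') (-s) (by omega) (by omega) (by omega) (by omega)
        convert this using 2 <;> ring
      · unfold sd; simp only; omega
      · unfold sd; simp only; omega
    · have hS : RE (v.1 - 6007 * s) (v.1 + s) (v.2 - s) (v.2 + s) ⊆ ES T := by
        apply RE_sub_ES
        intro x y h1 h2 h3 h4
        have := h (y - v.2) (v.1 - x) (by omega) (by omega) (by omega) (by omega)
        convert this using 2 <;> ring
      have h1 := pr_LRc (1 / 2) (LRE_subset_RE.trans hS)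
      have e2 : v.1 + (s : ℤ) - (v.1 - 6007 * s) = 6008 * s := by ring
      have e3 : v.2 + (s : ℤ) - (v.2 - s) = 2 * s := by ring
      rw [e2, e3] at h1
      rw [← h1]
      apply Pr_mono okP
      rintro F _ ⟨y, y', hy, hy', hr⟩
      refine ⟨(v.1 + s, y'), (v.1 - 6007 * s, y), ?_, ?_, ?_,
        (hr.mono Set.inter_subset_left).symm⟩
      · have := h (y' - v.2) (-s) (by omega) (by omega) (by omega) (by omega)
        convert this using 2 <;> ring
      · unfold sd; simp only; omega
      · unfold sd; simp only; omega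

end Pool.Agent.D0H95.KP
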